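import Mathlib

/-!
# `q`-adic divisibility of minors on a smooth plane curve

`det_expand`: expansion of a determinant whose entries are finite sums.
`pow_dvd_det_one`: for polynomials in one variable at points congruent modulo `q`, the
`n x n` determinant is divisible by `q ^ (n (n - 1) / 2)`.
`qminor`: the same for polynomials in two variables at points congruent modulo `q` of a plane
curve which is smooth there modulo `q`; the points need to lie on the curve only modulo the
relevant power of `q`.
-/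

set_option autoImplicit false

open Matrix Finset Polynomial
open scoped Polynomial.Bivariate

namespace Pool.Agent.SQF4

/-- expansion of a determinant whose entries are finite sums -/
theorem det_expand {n : ℕ} {R ι : Type*} [CommRing R] [DecidableEq ι] (S : Finset ι)
    (a : Fin n → ι → R) (φ : ι → Fin n → R) :
    Matrix.det (Matrix.of fun i j => ∑ m ∈ S, a j m * φ m i) =
      ∑ σ ∈ Fintype.piFinset (fun _ : Fin n => S),
        (∏ j, a j (σ j)) * Matrix.det (Matrix.of fun i j => φ (σ j) i) := by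
  classical
  have h1 : ∀ M : Matrix (Fin n) (Fin n) R,
      M.det = (Matrix.detRowAlternating (n := Fin n) (R := R)).toMultilinearMap (fun j i => M i j) := by
    intro M
    rw [← Matrix.det_transpose]
    rfl
  rw [h1]
  have h2 : (fun j i => (Matrix.of fun i j => ∑ m ∈ S, a j m * φ m i) i j) =
      (fun j : Fin n => ∑ m ∈ S, (a j m • φ m : Fin n → R)) := by
    funext j i
    simp [Finset.sum_apply]
  rw [h2, MultilinearMap.map_sum_finset]
  refine Finset.sum_congr rfl ?_
  intro σ _
  rw [h1, MultilinearMap.map_smul_univ, smul_eq_mul]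
  rfl

/-- terms with a non injective choice vanish -/
theorem det_expand_inj {n : ℕ} {R ι : Type*} [CommRing R] [DecidableEq ι] (S : Finset ι)
    (a : Fin n → ι → R) (φ : ι → Fin n → R) :
    Matrix.det (Matrix.of fun i j => ∑ m ∈ S, a j m * φ m i) =
      ∑ σ ∈ (Fintype.piFinset (fun _ : Fin n => S)).filter (fun σ => Function.Injective σ),
        (∏ j, a j (σ j)) * Matrix.det (Matrix.of fun i j => φ (σ j) i) := by
  classical
  rw [det_expand, Finset.sum_filter]
  refine Finset.sum_congr rfl ?_
  intro σ _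
  by_cases h : Function.Injective σ
  · rw [if_pos h]
  · rw [if_neg h]
    have : ∃ j k, σ j = σ k ∧ j ≠ k := by
      unfold Function.Injective at h
      push Not at h
      exact h
    obtain ⟨j, k, h1, h2⟩ := this
    rw [Matrix.det_zero_of_column_eq h2 (by intro i; simp [h1]), mul_zero]

/-- `n` distinct natural numbers have sum at least `0 + 1 + ... + (n - 1)` -/
theorem sum_ge_of_injective {n : ℕ} (σ : Fin n → ℕ) (h : Function.Injective σ) :
    n * (n - 1) / 2 ≤ ∑ j, σ j := by
  classical
  set s : Finset ℕ := Finset.univ.image σ with hs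
  have hc : s.card = n := by
    rw [hs, Finset.card_image_of_injective _ h, Finset.card_univ, Fintype.card_fin]
  have h1 : ∑ j, σ j = ∑ x ∈ s, x := by
    rw [hs, Finset.sum_image (fun _ _ _ _ hxy => h hxy)]
  have h2 : ∑ x ∈ s, x = ∑ i : Fin n, s.orderEmbOfFin hc i := by
    rw [← Finset.sum_coe_sort s (fun x => x)]
    refine (Fintype.sum_equiv (s.orderIsoOfFin hc).toEquiv _ _ ?_).symm
    intro i
    rfl
  have h3 : ∀ i : Fin n, (i : ℕ) ≤ s.orderEmbOfFin hc i := by
    intro i
    obtain ⟨i, hi⟩ := i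
    induction i with
    | zero => exact Nat.zero_le _
    | succ k ih =>
      have h4 := ih (by omega)
      have h5 : s.orderEmbOfFin hc ⟨k, by omega⟩ < s.orderEmbOfFin hc ⟨k + 1, hi⟩ :=
        (s.orderEmbOfFin hc).strictMono (by simp [Fin.lt_def])
      simp only at h4 ⊢
      omega
  rw [h1, h2, ← Finset.sum_range_id]
  rw [← Fin.sum_univ_eq_sum_range (fun i => i) n]
  exact Finset.sum_le_sum (fun i _ => h3 i)

/-- one variable: points congruent modulo `q` -/
theorem pow_dvd_det_one {A : Type*} [CommRing A] (q : A) {n : ℕ} (x0 : A) (t : Fin n → A)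
    (P : Fin n → A[X]) :
    q ^ (n * (n - 1) / 2) ∣
      Matrix.det (Matrix.of fun i j => (P j).eval (x0 + q * t i)) := by
  classical
  set D := ∑ j, (Polynomial.taylor x0 (P j)).natDegree + 1 with hD
  have h1 : ∀ i j, (P j).eval (x0 + q * t i) =
      ∑ m ∈ Finset.range D, (Polynomial.taylor x0 (P j)).coeff m * (q * t i) ^ m := by
    intro i j
    have h2 : (P j).eval (x0 + q * t i) = (Polynomial.taylor x0 (P j)).eval (q * t i) := by
      rw [Polynomial.taylor_eval, add_comm]
    rw [h2]
    refine Polynomial.eval_eq_sum_range' ?_ _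
    have : (Polynomial.taylor x0 (P j)).natDegree ≤
        ∑ j, (Polynomial.taylor x0 (P j)).natDegree :=
      Finset.single_le_sum (f := fun j => (Polynomial.taylor x0 (P j)).natDegree)
        (fun _ _ => Nat.zero_le _) (Finset.mem_univ j)
    omega
  have h3 : (Matrix.of fun i j => (P j).eval (x0 + q * t i)) =
      (Matrix.of fun i j => ∑ m ∈ Finset.range D,
        (Polynomial.taylor x0 (P j)).coeff m * (fun (m : ℕ) (i : Fin n) => (q * t i) ^ m) m i) := by
    ext i j
    simp only [Matrix.of_apply]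
    exact h1 i j
  rw [h3, det_expand_inj]
  refine Finset.dvd_sum ?_
  intro σ hσ
  refine Dvd.dvd.mul_left ?_ _
  have hinj : Function.Injective σ := (Finset.mem_filter.1 hσ).2
  have h4 : Matrix.det (Matrix.of fun i j => (q * t i) ^ (σ j)) =
      (∏ j, q ^ (σ j)) * Matrix.det (Matrix.of fun i j => (t i) ^ (σ j)) := by
    rw [← Matrix.det_mul_row]
    congr 1
    ext i j
    simp [mul_pow]
  rw [h4, Finset.prod_pow_eq_pow_sum]
  exact Dvd.dvd.mul_right (pow_dvd_pow q (sum_ge_of_injective σ hinj)) _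

/-- the Hensel approximations to the branch of the curve -/
noncomputable def hensel {A : Type*} [CommRing A] (g : A[X][Y]) (c y0 : A) : ℕ → A[X]
  | 0 => C y0
  | k + 1 => hensel g c y0 k - C c * g.eval (hensel g c y0 k)

lemma evalEval_sub_dvd {A : Type*} [CommRing A] (q : A) (p : A[X][Y]) (x x' y y' : A)
    (hx : q ∣ x - x') (hy : q ∣ y - y') : q ∣ p.evalEval x y - p.evalEval x' y' := by
  have h1 : q ∣ p.evalEval x y - p.evalEval x y' := by
    rw [← map_evalRingHom_eval, ← map_evalRingHom_eval]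
    exact hy.trans (sub_dvd_eval_sub _ _ _)
  have h2 : q ∣ p.evalEval x y' - p.evalEval x' y' := hx.trans (sub_dvd_eval_sub _ _ _)
  have := dvd_add h1 h2
  rwa [sub_add_sub_cancel] at this

lemma hensel_spec {A : Type*} [CommRing A] (q : A) (K : ℕ) (g : A[X][Y]) (c x0 y0 x y : A)
    (hx : q ∣ x - x0) (hy : q ∣ y - y0) (hg : q ^ K ∣ g.evalEval x y)
    (hc : q ∣ 1 - c * (derivative g).evalEval x0 y0) (k : ℕ) (hk : k + 1 ≤ K) :
    q ^ (k + 1) ∣ (hensel g c y0 k).eval x - y := by
  induction k with
  | zero =>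
    rw [zero_add, pow_one, hensel, eval_C]
    rw [← dvd_neg, neg_sub]
    exact hy
  | succ k ih =>
    have ih' := ih (by omega)
    set e : A := (hensel g c y0 k).eval x - y with he
    set h : A[X] := g.map (evalRingHom x) with hh
    have e1 : (g.eval (hensel g c y0 k)).eval x = h.eval (y + e) := by
      have : y + e = (hensel g c y0 k).eval x := by rw [he]; ring
      rw [this, hh, ← Polynomial.coe_evalRingHom (r := x), ← Polynomial.eval₂_at_apply,
        Polynomial.eval_map]
    obtain ⟨w, hw⟩ := h.binomExpansion y e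
    have e2 : (hensel g c y0 (k + 1)).eval x - y =
        e * (1 - c * h.derivative.eval y) - c * h.eval y - c * w * e ^ 2 := by
      rw [hensel, eval_sub, eval_mul, eval_C, e1, hw, he]
      ring
    rw [e2]
    have e3 : h.derivative.eval y = (derivative g).evalEval x y := by
      rw [hh, Polynomial.derivative_map, map_evalRingHom_eval]
    have e4 : h.eval y = g.evalEval x y := by rw [hh, map_evalRingHom_eval]
    have d1 : q ∣ 1 - c * h.derivative.eval y := by
      have h5 := evalEval_sub_dvd q (derivative g) x x0 y y0 hx hy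
      have h6 : 1 - c * h.derivative.eval y = (1 - c * (derivative g).evalEval x0 y0) -
          c * ((derivative g).evalEval x y - (derivative g).evalEval x0 y0) := by
        rw [e3]; ring
      rw [h6]
      exact dvd_sub hc (Dvd.dvd.mul_left h5 _)
    refine dvd_sub (dvd_sub ?_ ?_) ?_
    · rw [pow_succ]
      exact mul_dvd_mul ih' d1
    · rw [e4]
      exact Dvd.dvd.mul_left ((pow_dvd_pow q hk).trans hg) _
    · refine Dvd.dvd.mul_left ?_ _
      have h7 : q ^ (k + 1 + 1) ∣ q ^ (k + 1) * q ^ (k + 1) := by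
        rw [← pow_add]; exact pow_dvd_pow q (by omega)
      rw [pow_two]
      exact h7.trans (mul_dvd_mul ih' ih')

/-- congruent matrices have congruent determinants -/
lemma det_congr_dvd {A : Type*} [CommRing A] (Q : A) {n : ℕ} (M N : Matrix (Fin n) (Fin n) A)
    (h : ∀ i j, Q ∣ M i j - N i j) : Q ∣ M.det - N.det := by
  have h1 : M.map (Ideal.Quotient.mk (Ideal.span {Q})) =
      N.map (Ideal.Quotient.mk (Ideal.span {Q})) := by
    ext i j
    rw [Matrix.map_apply, Matrix.map_apply, Ideal.Quotient.eq, Ideal.mem_span_singleton]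
    exact h i j
  have h2 : Ideal.Quotient.mk (Ideal.span {Q}) M.det =
      Ideal.Quotient.mk (Ideal.span {Q}) N.det := by
    rw [RingHom.map_det, RingHom.map_det]
    exact congrArg Matrix.det h1
  rw [Ideal.Quotient.eq, Ideal.mem_span_singleton] at h2
  exact h2

/-- **Minors on a smooth plane curve.**  The points `(x i, y i)` are congruent to `(x0, y0)`
modulo `q`, they lie on the curve `g = 0` modulo `q ^ (n (n - 1) / 2)`, and `∂g/∂y` is
invertible modulo `q` at `(x0, y0)` (`c` is an inverse). -/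
theorem qminor {A : Type*} [CommRing A] (q : A) {n : ℕ} (g : A[X][Y]) (c x0 y0 : A)
    (x y : Fin n → A) (hx : ∀ i, q ∣ x i - x0) (hy : ∀ i, q ∣ y i - y0)
    (hg : ∀ i, q ^ (n * (n - 1) / 2) ∣ g.evalEval (x i) (y i))
    (hc : q ∣ 1 - c * (derivative g).evalEval x0 y0) (f : Fin n → A[X][Y]) :
    q ^ (n * (n - 1) / 2) ∣ Matrix.det (Matrix.of fun i j => (f j).evalEval (x i) (y i)) := by
  set K := n * (n - 1) / 2 with hK
  rcases Nat.eq_zero_or_pos K with hK0 | hK0
  · rw [hK0, pow_zero]; exact one_dvd _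
  choose t ht using hx
  have hx' : ∀ i, x i = x0 + q * t i := fun i => by rw [← ht i]; ring
  set Yk := hensel g c y0 (K - 1) with hYk
  have h1 : ∀ i, q ^ K ∣ Yk.eval (x i) - y i := by
    intro i
    have := hensel_spec q K g c x0 y0 (x i) (y i) ⟨t i, ht i⟩ (hy i) (hg i) hc (K - 1)
      (by omega)
    rwa [Nat.sub_add_cancel hK0] at this
  have h2 := pow_dvd_det_one q x0 t (fun j => (f j).eval Yk)
  rw [← hK] at h2
  have h3 : q ^ K ∣ Matrix.det (Matrix.of fun i j => (f j).evalEval (x i) (y i)) -
      Matrix.det (Matrix.of fun i j => ((f j).eval Yk).eval (x0 + q * t i)) := by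
    refine det_congr_dvd _ _ _ ?_
    intro i j
    simp only [Matrix.of_apply]
    rw [← hx' i]
    have h4 : ((f j).eval Yk).eval (x i) = (f j).evalEval (x i) (Yk.eval (x i)) := by
      rw [← map_evalRingHom_eval, ← Polynomial.coe_evalRingHom (r := x i),
        ← Polynomial.eval₂_at_apply, Polynomial.eval_map]
    rw [h4, ← map_evalRingHom_eval, ← map_evalRingHom_eval]
    refine Dvd.dvd.trans ?_ (sub_dvd_eval_sub _ _ _)
    rw [← dvd_neg, neg_sub]
    exact h1 i
  have := dvd_add h3 h2
  rwa [sub_add_cancel] at this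

/-- distinct natural numbers have sum at least `0 + 1 + ... + (n - 1)` -/
theorem sum_ge_finset (T : Finset ℕ) : T.card * (T.card - 1) / 2 ≤ ∑ x ∈ T, x := by
  have h := sum_ge_of_injective (fun i : Fin T.card => T.orderEmbOfFin rfl i)
    (T.orderEmbOfFin rfl).injective
  refine h.trans (le_of_eq ?_)
  rw [← Finset.sum_coe_sort T (fun x => x)]
  refine Fintype.sum_equiv (T.orderIsoOfFin rfl).toEquiv _ _ ?_
  intro i
  rfl

/-- weight of an injective choice -/
lemma weight_ge {N : ℕ} (S : Finset (Fin N)) (σ : Fin N → ℕ ⊕ Fin N) (h : Function.Injective σ)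
    (hσ : ∀ j r, σ j = Sum.inr r → r ∉ S) :
    S.card * (S.card - 1) / 2 ≤ ∑ j, Sum.elim (fun m => m) (fun _ => 0) (σ j) := by
  classical
  set J : Finset (Fin N) := Finset.univ.filter (fun j => ∃ m, σ j = Sum.inl m) with hJ
  have h1 : S.card ≤ J.card := by
    have h2 : (Finset.univ.filter (fun j => ¬ ∃ m, σ j = Sum.inl m)).card ≤
        (Finset.univ \ S).card := by
      refine Finset.card_le_card_of_injOn
        (fun j => Sum.elim (fun _ => j) (fun r => r) (σ j)) ?_ ?_
      · intro j hj
        have hj' := (Finset.mem_filter.1 hj).2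
        rcases hs : σ j with m | r
        · exact absurd ⟨m, hs⟩ hj'
        · simp only [hs, Sum.elim_inr, Finset.coe_sdiff, Finset.coe_univ, Set.mem_sdiff,
            Set.mem_univ, Finset.mem_coe, true_and]
          exact hσ j r hs
      · intro j hj k hk hjk
        have hj' := (Finset.mem_filter.1 hj).2
        have hk' := (Finset.mem_filter.1 hk).2
        rcases hs : σ j with m | r
        · exact absurd ⟨m, hs⟩ hj'
        · rcases hs' : σ k with m' | r'
          · exact absurd ⟨m', hs'⟩ hk'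
          · simp only [hs, hs', Sum.elim_inr] at hjk
            apply h
            rw [hs, hs', hjk]
    have h3 := Finset.card_filter_add_card_filter_not (s := (Finset.univ : Finset (Fin N)))
      (fun j => ∃ m, σ j = Sum.inl m)
    have h4 : (Finset.univ \ S).card + S.card = (Finset.univ : Finset (Fin N)).card := by
      rw [Finset.card_sdiff_add_card_eq_card (Finset.subset_univ S)]
    rw [← hJ] at h3
    omega
  set T : Finset ℕ := J.image (fun j => Sum.elim (fun m => m) (fun _ => 0) (σ j)) with hT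
  have hinj : Set.InjOn (fun j => Sum.elim (fun m => m) (fun _ => 0) (σ j)) (J : Set (Fin N)) := by
    intro j hj k hk hjk
    obtain ⟨m, hm⟩ := (Finset.mem_filter.1 hj).2
    obtain ⟨m', hm'⟩ := (Finset.mem_filter.1 hk).2
    simp only [hm, hm', Sum.elim_inl] at hjk
    apply h
    rw [hm, hm', hjk]
  have h5 : T.card = J.card := Finset.card_image_of_injOn hinj
  have h6 := sum_ge_finset T
  have h7 : ∑ x ∈ T, x = ∑ j ∈ J, Sum.elim (fun m => m) (fun _ => 0) (σ j) :=
    Finset.sum_image hinj
  have h8 : ∑ j ∈ J, Sum.elim (fun m => m) (fun _ => 0) (σ j) ≤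
      ∑ j, Sum.elim (fun m => m) (fun _ => 0) (σ j) :=
    Finset.sum_le_sum_of_subset (Finset.subset_univ J)
  have h9 : S.card * (S.card - 1) / 2 ≤ T.card * (T.card - 1) / 2 := by
    apply Nat.div_le_div_right
    apply Nat.mul_le_mul <;> omega
  omega

/-- one variable, only the rows in `S` are congruent -/
theorem pow_dvd_det_rows {A : Type*} [CommRing A] (q : A) {N : ℕ} (M : Matrix (Fin N) (Fin N) A)
    (S : Finset (Fin N)) (x0 : A) (t : Fin N → A) (P : Fin N → A[X])
    (hM : ∀ i ∈ S, ∀ j, M i j = (P j).eval (x0 + q * t i)) :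
    q ^ (S.card * (S.card - 1) / 2) ∣ M.det := by
  classical
  set D := ∑ j, (Polynomial.taylor x0 (P j)).natDegree + 1 with hD
  set I : Finset (ℕ ⊕ Fin N) := (Finset.range D).disjSum (Finset.univ \ S) with hI
  set a : Fin N → ℕ ⊕ Fin N → A := fun j => Sum.elim
    (fun m => (Polynomial.taylor x0 (P j)).coeff m) (fun r => M r j) with ha
  set w : ℕ ⊕ Fin N → ℕ := Sum.elim (fun m => m) (fun _ => 0) with hw
  set ψ : ℕ ⊕ Fin N → Fin N → A := Sum.elim
    (fun m i => if i ∈ S then t i ^ m else 0) (fun r i => if i = r then 1 else 0) with hψ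
  have h1 : ∀ i j, (P j).eval (x0 + q * t i) =
      ∑ m ∈ Finset.range D, (Polynomial.taylor x0 (P j)).coeff m * (q * t i) ^ m := by
    intro i j
    have h2 : (P j).eval (x0 + q * t i) = (Polynomial.taylor x0 (P j)).eval (q * t i) := by
      rw [Polynomial.taylor_eval, add_comm]
    rw [h2]
    refine Polynomial.eval_eq_sum_range' ?_ _
    have : (Polynomial.taylor x0 (P j)).natDegree ≤
        ∑ j, (Polynomial.taylor x0 (P j)).natDegree :=
      Finset.single_le_sum (f := fun j => (Polynomial.taylor x0 (P j)).natDegree)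
        (fun _ _ => Nat.zero_le _) (Finset.mem_univ j)
    omega
  have h3 : M = (Matrix.of fun i j => ∑ m ∈ I, a j m * (fun m i => q ^ w m * ψ m i) m i) := by
    ext i j
    rw [Matrix.of_apply, hI, Finset.sum_disjSum]
    simp only [ha, hw, hψ, Sum.elim_inl, Sum.elim_inr, pow_zero, one_mul]
    by_cases hi : i ∈ S
    · have h4 : ∑ r ∈ Finset.univ \ S, M r j * (if i = r then (1 : A) else 0) = 0 := by
        refine Finset.sum_eq_zero ?_
        intro r hr
        rw [if_neg (by rintro rfl; exact (Finset.mem_sdiff.1 hr).2 hi), mul_zero]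
      rw [h4, add_zero, hM i hi j, h1 i j]
      refine Finset.sum_congr rfl ?_
      intro m _
      rw [if_pos hi, mul_pow]
    · have h4 : ∑ m ∈ Finset.range D, (Polynomial.taylor x0 (P j)).coeff m *
          (q ^ m * (if i ∈ S then t i ^ m else 0)) = 0 := by
        refine Finset.sum_eq_zero ?_
        intro m _
        rw [if_neg hi, mul_zero, mul_zero]
      rw [h4, zero_add, Finset.sum_eq_single i]
      · rw [if_pos rfl, mul_one]
      · intro r _ hr
        rw [if_neg (Ne.symm hr), mul_zero]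
      · intro h
        exact absurd (Finset.mem_sdiff.2 ⟨Finset.mem_univ i, hi⟩) h
  rw [h3, det_expand_inj]
  refine Finset.dvd_sum ?_
  intro σ hσ
  refine Dvd.dvd.mul_left ?_ _
  obtain ⟨hσ1, hinj⟩ := Finset.mem_filter.1 hσ
  have hσ2 : ∀ j r, σ j = Sum.inr r → r ∉ S := by
    intro j r hr
    have h5 := Fintype.mem_piFinset.1 hσ1 j
    rw [hr, hI, Finset.inr_mem_disjSum] at h5
    exact (Finset.mem_sdiff.1 h5).2
  have h4 : Matrix.det (Matrix.of fun i j => q ^ w (σ j) * ψ (σ j) i) =
      (∏ j, q ^ w (σ j)) * Matrix.det (Matrix.of fun i j => ψ (σ j) i) := by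
    rw [← Matrix.det_mul_row]
    rfl
  rw [h4, Finset.prod_pow_eq_pow_sum]
  exact Dvd.dvd.mul_right (pow_dvd_pow q (weight_ge S σ hinj hσ2)) _

/-- **Cluster version**: only the rows in `S` belong to congruent points of the curve. -/
theorem qminor_rows {A : Type*} [CommRing A] (q : A) {N : ℕ} (M : Matrix (Fin N) (Fin N) A)
    (S : Finset (Fin N)) (g : A[X][Y]) (c x0 y0 : A) (x y : Fin N → A)
    (hx : ∀ i ∈ S, q ∣ x i - x0) (hy : ∀ i ∈ S, q ∣ y i - y0)
    (hg : ∀ i ∈ S, q ^ (S.card * (S.card - 1) / 2) ∣ g.evalEval (x i) (y i))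
    (hc : q ∣ 1 - c * (derivative g).evalEval x0 y0) (f : Fin N → A[X][Y])
    (hM : ∀ i ∈ S, ∀ j, q ^ (S.card * (S.card - 1) / 2) ∣
      M i j - (f j).evalEval (x i) (y i)) :
    q ^ (S.card * (S.card - 1) / 2) ∣ M.det := by
  classical
  set K := S.card * (S.card - 1) / 2 with hK
  rcases Nat.eq_zero_or_pos K with hK0 | hK0
  · rw [hK0, pow_zero]; exact one_dvd _
  have hx2 : ∀ i, ∃ t, i ∈ S → x i = x0 + q * t := by
    intro i
    by_cases hi : i ∈ S
    · obtain ⟨t, ht⟩ := hx i hi
      exact ⟨t, fun _ => by rw [← ht]; ring⟩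
    · exact ⟨0, fun h => absurd h hi⟩
  choose t ht using hx2
  set Yk := hensel g c y0 (K - 1) with hYk
  have h1 : ∀ i ∈ S, q ^ K ∣ Yk.eval (x i) - y i := by
    intro i hi
    have := hensel_spec q K g c x0 y0 (x i) (y i) (hx i hi) (hy i hi) (hg i hi) hc (K - 1)
      (by omega)
    rwa [Nat.sub_add_cancel hK0] at this
  set M' : Matrix (Fin N) (Fin N) A := Matrix.of fun i j =>
    if i ∈ S then ((f j).eval Yk).eval (x0 + q * t i) else M i j with hM'
  have h2 := pow_dvd_det_rows q M' S x0 t (fun j => (f j).eval Yk) (by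
    intro i hi j
    rw [hM', Matrix.of_apply, if_pos hi])
  rw [← hK] at h2
  have h3 : q ^ K ∣ M.det - M'.det := by
    refine det_congr_dvd _ _ _ ?_
    intro i j
    by_cases hi : i ∈ S
    · rw [hM', Matrix.of_apply, if_pos hi, ← ht i hi]
      have h4 : ((f j).eval Yk).eval (x i) = (f j).evalEval (x i) (Yk.eval (x i)) := by
        rw [← map_evalRingHom_eval, ← Polynomial.coe_evalRingHom (r := x i),
          ← Polynomial.eval₂_at_apply, Polynomial.eval_map]
      have h5 : q ^ K ∣ (f j).evalEval (x i) (y i) - (f j).evalEval (x i) (Yk.eval (x i)) := by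
        rw [← map_evalRingHom_eval, ← map_evalRingHom_eval]
        refine Dvd.dvd.trans ?_ (sub_dvd_eval_sub _ _ _)
        rw [← dvd_neg, neg_sub]
        exact h1 i hi
      rw [h4]
      have := dvd_add (hM i hi j) h5
      rwa [sub_add_sub_cancel] at this
    · rw [hM', Matrix.of_apply, if_neg hi, sub_self]
      exact dvd_zero _
  have := dvd_add h3 h2
  rwa [sub_add_cancel] at this

/-- **Integer version with scaled rows.**  `q` prime, the gradient of `g` at `(x0, y0)` is not
zero modulo `q` in the `y`-direction; the row of a point of the cluster may be multiplied by an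
integer `s i` prime to `q`. -/
theorem qminor_int {N : ℕ} (q : ℕ) (hq : q.Prime) (M : Matrix (Fin N) (Fin N) ℤ)
    (S : Finset (Fin N)) (g : ℤ[X][Y]) (x0 y0 : ℤ) (x y s : Fin N → ℤ)
    (hs : ∀ i ∈ S, ¬ (q : ℤ) ∣ s i)
    (hx : ∀ i ∈ S, (q : ℤ) ∣ x i - x0) (hy : ∀ i ∈ S, (q : ℤ) ∣ y i - y0)
    (hg : ∀ i ∈ S, (q : ℤ) ^ (S.card * (S.card - 1) / 2) ∣ g.evalEval (x i) (y i))
    (hgrad : ¬ (q : ℤ) ∣ (derivative g).evalEval x0 y0) (f : Fin N → ℤ[X][Y])
    (hM : ∀ i ∈ S, ∀ j, (q : ℤ) ^ (S.card * (S.card - 1) / 2) ∣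
      s i * M i j - (f j).evalEval (x i) (y i)) :
    (q : ℤ) ^ (S.card * (S.card - 1) / 2) ∣ M.det := by
  classical
  have hqp : Prime (q : ℤ) := Nat.prime_iff_prime_int.1 hq
  have hcop : IsCoprime ((derivative g).evalEval x0 y0) (q : ℤ) := by
    rw [isCoprime_comm]
    exact (Prime.coprime_iff_not_dvd hqp).2 hgrad
  obtain ⟨c, e, hce⟩ := hcop
  set s' : Fin N → ℤ := fun i => if i ∈ S then s i else 1 with hs'
  set M2 : Matrix (Fin N) (Fin N) ℤ := Matrix.of fun i j => s' i * M i j with hM2
  have h1 := qminor_rows (q : ℤ) M2 S g c x0 y0 x y hx hy hg ⟨e, by rw [← hce]; ring⟩ f (by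
    intro i hi j
    rw [hM2, Matrix.of_apply, hs']
    simp only [if_pos hi]
    exact hM i hi j)
  have h2 : M2.det = (∏ i, s' i) * M.det := by
    rw [hM2, Matrix.det_mul_column]
  rw [h2] at h1
  have h3 : IsCoprime ((q : ℤ) ^ (S.card * (S.card - 1) / 2)) (∏ i, s' i) := by
    apply IsCoprime.pow_left
    apply IsCoprime.prod_right
    intro i _
    simp only [hs']
    split_ifs with hi
    · exact (Prime.coprime_iff_not_dvd hqp).2 (hs i hi)
    · exact isCoprime_one_right
  exact h3.dvd_of_dvd_mul_left h1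

/-- several clusters with different primes -/
theorem prod_dvd_of_clusters {ι : Type*} (I : Finset ι) (q : ι → ℕ) (e : ι → ℕ)
    (hq : ∀ i ∈ I, (q i).Prime) (hne : ∀ i ∈ I, ∀ j ∈ I, i ≠ j → q i ≠ q j) (d : ℤ)
    (h : ∀ i ∈ I, ((q i : ℤ)) ^ e i ∣ d) : ∏ i ∈ I, (q i : ℤ) ^ e i ∣ d := by
  classical
  refine Finset.prod_dvd_of_coprime ?_ h
  intro i hi j hj hij
  apply IsCoprime.pow
  exact Nat.isCoprime_iff_coprime.2 ((Nat.coprime_primes (hq i hi) (hq j hj)).2 (hne i hi j hj hij))

end Pool.Agent.SQF4
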