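import Pool.Agent.Lib.SQF4.Slices

/-!
# SQF (MP_8842b2_nt), module Basis: a reduced basis of a slice

For `a, b` independent in `Z^4` the slice `{x : a.x = b.x = 0}` has a reduced basis `(e1, e2)`:
`2|e1.e2| ≤ e1.e1 ≤ e2.e2`, `|e1||e2| ≤ 5|a||b|` (sup norms), and `x = u e1 + v e2` has
`|u||e1|, |v||e2| ≤ 3|x|`.
-/

set_option autoImplicit false

open Finset Matrix

namespace Pool.Agent.SQF4

/-- two independent integer vectors -/
def Indep2 (x y : Fin 4 → ℤ) : Prop := ∀ u v : ℤ, u • x + v • y = 0 → u = 0 ∧ v = 0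

/-- `(e1, e2)` is a reduced basis of the slice `a.x = b.x = 0` -/
structure RBasis (a b e1 e2 : Fin 4 → ℤ) : Prop where
  a1 : a ⬝ᵥ e1 = 0
  b1 : b ⬝ᵥ e1 = 0
  a2 : a ⬝ᵥ e2 = 0
  b2 : b ⬝ᵥ e2 = 0
  span : ∀ x : Fin 4 → ℤ, a ⬝ᵥ x = 0 → b ⬝ᵥ x = 0 → ∃ u v : ℤ, x = u • e1 + v • e2
  ind : Indep2 e1 e2
  red : 2 * |e1 ⬝ᵥ e2| ≤ e1 ⬝ᵥ e1
  le : e1 ⬝ᵥ e1 ≤ e2 ⬝ᵥ e2

private lemma Basis_self_nonneg (x : Fin 4 → ℤ) : 0 ≤ x ⬝ᵥ x := by
  unfold dotProduct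
  exact Finset.sum_nonneg (fun i _ => mul_self_nonneg _)

private lemma Basis_self_eq_zero (x : Fin 4 → ℤ) (h : x ⬝ᵥ x = 0) : x = 0 := by
  unfold dotProduct at h
  rw [Finset.sum_eq_zero_iff_of_nonneg (fun i _ => mul_self_nonneg _)] at h
  funext i
  exact mul_self_eq_zero.1 (h i (Finset.mem_univ i))

private lemma Basis_self_pos (x : Fin 4 → ℤ) (h : x ≠ 0) : 0 < x ⬝ᵥ x :=
  lt_of_le_of_ne (Basis_self_nonneg x) (fun h0 => h (Basis_self_eq_zero x h0.symm))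

/-- five vectors in `Z^4` are dependent -/
private lemma Basis_rel5 (f : Fin 5 → Fin 4 → ℤ) :
    ∃ c : Fin 5 → ℤ, c ≠ 0 ∧ ∑ i, c i • f i = 0 := by
  set M : Matrix (Fin 5) (Fin 5) ℤ := Matrix.of fun i j => Fin.lastCases 0 (fun k => f i k) j
    with hM
  have h0 : M.det = 0 := by
    apply Matrix.det_eq_zero_of_column_eq_zero (Fin.last 4)
    intro i
    simp only [hM, Matrix.of_apply, Fin.lastCases_last]
  obtain ⟨c, hc, hc2⟩ := Matrix.exists_vecMul_eq_zero_iff.2 h0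
  refine ⟨c, hc, ?_⟩
  funext k
  have h1 := congrFun hc2 k.castSucc
  simp only [Matrix.vecMul, dotProduct, Pi.zero_apply] at h1
  simp only [Finset.sum_apply, Pi.smul_apply, smul_eq_mul, Pi.zero_apply]
  rw [← h1]
  refine Finset.sum_congr rfl (fun i _ => ?_)
  simp [hM]

/-- three vectors in the slice are dependent -/
private lemma Basis_rel3 (a b : Fin 4 → ℤ) (hab : Indep2 a b) (x e f : Fin 4 → ℤ)
    (hef : Indep2 e f) (ax : a ⬝ᵥ x = 0) (bx : b ⬝ᵥ x = 0) (ae : a ⬝ᵥ e = 0) (be : b ⬝ᵥ e = 0)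
    (af : a ⬝ᵥ f = 0) (bf : b ⬝ᵥ f = 0) :
    ∃ D U V : ℤ, D ≠ 0 ∧ D • x = U • e + V • f := by
  obtain ⟨c, hc, hc2⟩ := Basis_rel5 ![a, b, x, e, f]
  simp only [Fin.sum_univ_succ, Fin.sum_univ_zero, Matrix.cons_val_zero, Matrix.cons_val_succ,
    add_zero] at hc2
  set c0 := c 0 with hc0
  set c1 := c (Fin.succ 0) with hc1
  set c2 := c (Fin.succ (Fin.succ 0)) with hc22
  set c3 := c (Fin.succ (Fin.succ (Fin.succ 0))) with hc3
  set c4 := c (Fin.succ (Fin.succ (Fin.succ (Fin.succ 0)))) with hc4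
  -- the part in the plane of `a, b` vanishes
  have h1 : c0 • a + c1 • b = 0 := by
    apply Basis_self_eq_zero
    have h2 : c0 • a + c1 • b = -(c2 • x + (c3 • e + c4 • f)) := by
      have : c0 • a + c1 • b + (c2 • x + (c3 • e + c4 • f)) = 0 := by
        rw [← hc2]; abel
      exact eq_neg_of_add_eq_zero_left this
    have h3 : (c0 • a + c1 • b) ⬝ᵥ (c0 • a + c1 • b) =
        (c0 • a + c1 • b) ⬝ᵥ (-(c2 • x + (c3 • e + c4 • f))) := by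
      nth_rewrite 2 [h2]; rfl
    rw [h3]
    simp only [dotProduct_neg, dotProduct_add, add_dotProduct, smul_dotProduct, dotProduct_smul,
      ax, bx, ae, be, af, bf, smul_eq_mul, mul_zero, add_zero, neg_zero]
  obtain ⟨h4, h5⟩ := hab c0 c1 h1
  have h6 : c2 • x + (c3 • e + c4 • f) = 0 := by
    rw [h4, h5] at hc2
    simpa using hc2
  have h7 : c2 ≠ 0 := by
    intro h8
    rw [h8, zero_smul, zero_add] at h6
    obtain ⟨h9, h10⟩ := hef c3 c4 h6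
    apply hc
    funext i
    fin_cases i
    · exact h4
    · exact h5
    · exact h8
    · exact h9
    · exact h10
  refine ⟨c2, -c3, -c4, h7, ?_⟩
  have := eq_neg_of_add_eq_zero_left h6
  rw [this, neg_smul, neg_smul]
  abel

/-- a nonzero vector orthogonal to three given ones -/
private lemma Basis_orth (a b c : Fin 4 → ℤ) :
    ∃ x : Fin 4 → ℤ, x ≠ 0 ∧ a ⬝ᵥ x = 0 ∧ b ⬝ᵥ x = 0 ∧ c ⬝ᵥ x = 0 := by
  set M : Matrix (Fin 4) (Fin 4) ℤ := Matrix.of ![a, b, c, 0] with hM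
  have h0 : M.det = 0 := by
    apply Matrix.det_eq_zero_of_row_eq_zero 3
    intro j
    simp [hM]
  obtain ⟨x, hx, hx2⟩ := Matrix.exists_mulVec_eq_zero_iff.2 h0
  refine ⟨x, hx, ?_, ?_, ?_⟩
  · exact congrFun hx2 0
  · exact congrFun hx2 1
  · exact congrFun hx2 2

private lemma Basis_round (U D : ℤ) (hD : D ≠ 0) : ∃ u : ℤ, 2 * |U - u * D| ≤ |D| := by
  refine ⟨round ((U : ℚ) / D), ?_⟩
  have h1 := abs_sub_round ((U : ℚ) / D)
  have hD' : (D : ℚ) ≠ 0 := by exact_mod_cast hD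
  have h2 : (U : ℚ) - round ((U : ℚ) / D) * D = ((U : ℚ) / D - round ((U : ℚ) / D)) * D := by
    field_simp
  have h3 : 2 * |(U : ℚ) - round ((U : ℚ) / D) * D| ≤ |(D : ℚ)| := by
    rw [h2, abs_mul]
    have := mul_le_mul_of_nonneg_right h1 (abs_nonneg (D : ℚ))
    linarith
  exact_mod_cast h3

/-- EXISTENCE OF A REDUCED BASIS -/
theorem exists_rbasis (a b : Fin 4 → ℤ) (hab : Indep2 a b) :
    ∃ e1 e2 : Fin 4 → ℤ, RBasis a b e1 e2 := by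
  classical
  -- the shortest vector
  have hex1 : ∃ n : ℕ, ∃ x : Fin 4 → ℤ, x ≠ 0 ∧ a ⬝ᵥ x = 0 ∧ b ⬝ᵥ x = 0 ∧
      (x ⬝ᵥ x).toNat = n := by
    obtain ⟨x, h1, h2, h3, _⟩ := Basis_orth a b 0
    exact ⟨_, x, h1, h2, h3, rfl⟩
  obtain ⟨e1, h10, ha1, hb1, h1n⟩ := Nat.find_spec hex1
  have hmin1 : ∀ x : Fin 4 → ℤ, x ≠ 0 → a ⬝ᵥ x = 0 → b ⬝ᵥ x = 0 → e1 ⬝ᵥ e1 ≤ x ⬝ᵥ x := by
    intro x hx hax hbx
    have := Nat.find_min' hex1 ⟨x, hx, hax, hbx, rfl⟩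
    rw [← h1n] at this
    have h2 := Basis_self_nonneg x
    have h3 := Basis_self_nonneg e1
    omega
  have hex2 : ∃ n : ℕ, ∃ x : Fin 4 → ℤ, Indep2 e1 x ∧ a ⬝ᵥ x = 0 ∧ b ⬝ᵥ x = 0 ∧
      (x ⬝ᵥ x).toNat = n := by
    obtain ⟨x, h1, h2, h3, h4⟩ := Basis_orth a b e1
    refine ⟨_, x, ?_, h2, h3, rfl⟩
    intro u v huv
    have h5 : e1 ⬝ᵥ (u • e1 + v • x) = u * (e1 ⬝ᵥ e1) := by
      rw [dotProduct_add, dotProduct_smul, dotProduct_smul, h4]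
      simp
    rw [huv, dotProduct_zero] at h5
    have h6 := Basis_self_pos e1 h10
    have h7 : u = 0 := by
      rcases mul_eq_zero.1 h5.symm with h8 | h8
      · exact h8
      · omega
    refine ⟨h7, ?_⟩
    rw [h7, zero_smul, zero_add] at huv
    have h8 : v * (x ⬝ᵥ x) = 0 := by
      have : x ⬝ᵥ (v • x) = v * (x ⬝ᵥ x) := by rw [dotProduct_smul, smul_eq_mul]
      rw [← this, huv, dotProduct_zero]
    have h9 := Basis_self_pos x h1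
    rcases mul_eq_zero.1 h8 with h10 | h10
    · exact h10
    · omega
  obtain ⟨e2, hi, ha2, hb2, h2n⟩ := Nat.find_spec hex2
  have hmin2 : ∀ x : Fin 4 → ℤ, Indep2 e1 x → a ⬝ᵥ x = 0 → b ⬝ᵥ x = 0 →
      e2 ⬝ᵥ e2 ≤ x ⬝ᵥ x := by
    intro x hx hax hbx
    have := Nat.find_min' hex2 ⟨x, hx, hax, hbx, rfl⟩
    rw [← h2n] at this
    have h2 := Basis_self_nonneg x
    have h3 := Basis_self_nonneg e2
    omega
  have h20 : e2 ≠ 0 := by
    intro h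
    have := (hi 0 1 (by rw [h]; simp)).2
    exact one_ne_zero this
  have hle : e1 ⬝ᵥ e1 ≤ e2 ⬝ᵥ e2 := hmin1 e2 h20 ha2 hb2
  have hred : 2 * |e1 ⬝ᵥ e2| ≤ e1 ⬝ᵥ e1 := by
    have h1 : ∀ s : ℤ, e2 ⬝ᵥ e2 ≤ (e2 + s • e1) ⬝ᵥ (e2 + s • e1) := by
      intro s
      apply hmin2
      · intro u v huv
        have h2 : (u + v * s) • e1 + v • e2 = 0 := by
          rw [← huv, smul_add, smul_smul, add_smul]
          abel
        obtain ⟨h3, h4⟩ := hi _ _ h2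
        rw [h4] at h3
        exact ⟨by simpa using h3, h4⟩
      · rw [dotProduct_add, dotProduct_smul, ha1, ha2]; simp
      · rw [dotProduct_add, dotProduct_smul, hb1, hb2]; simp
    have h2 : ∀ s : ℤ, (e2 + s • e1) ⬝ᵥ (e2 + s • e1) =
        e2 ⬝ᵥ e2 + 2 * s * (e1 ⬝ᵥ e2) + s ^ 2 * (e1 ⬝ᵥ e1) := by
      intro s
      simp only [dotProduct_add, add_dotProduct, smul_dotProduct, dotProduct_smul, smul_eq_mul]
      rw [dotProduct_comm e2 e1]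
      ring
    have h3 := h1 1
    have h4 := h1 (-1)
    rw [h2] at h3 h4
    have h5 : |e1 ⬝ᵥ e2| ≤ (e1 ⬝ᵥ e1) / 2 := by
      rw [abs_le]
      constructor <;> omega
    omega
  refine ⟨e1, e2, ha1, hb1, ha2, hb2, ?_, hi, hred, hle⟩
  intro x hax hbx
  obtain ⟨D, U, V, hD, hrel⟩ := Basis_rel3 a b hab x e1 e2 hi hax hbx ha1 hb1 ha2 hb2
  obtain ⟨u, hu⟩ := Basis_round U D hD
  obtain ⟨v, hv⟩ := Basis_round V D hD
  refine ⟨u, v, ?_⟩
  by_contra hne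
  set y : Fin 4 → ℤ := x - (u • e1 + v • e2) with hy
  have hy0 : y ≠ 0 := fun h => hne (sub_eq_zero.1 h)
  have hay : a ⬝ᵥ y = 0 := by
    rw [hy, dotProduct_sub, dotProduct_add, dotProduct_smul, dotProduct_smul, ha1, ha2, hax]
    simp
  have hby : b ⬝ᵥ y = 0 := by
    rw [hy, dotProduct_sub, dotProduct_add, dotProduct_smul, dotProduct_smul, hb1, hb2, hbx]
    simp
  set U' := U - u * D with hU'
  set V' := V - v * D with hV'
  have hDy : D • y = U' • e1 + V' • e2 := by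
    rw [hy, smul_sub, hrel, smul_add, smul_smul, smul_smul, hU', hV', sub_smul, sub_smul,
      mul_comm D u, mul_comm D v]
    abel
  have hDyy : D ^ 2 * (y ⬝ᵥ y) = U' ^ 2 * (e1 ⬝ᵥ e1) + 2 * (U' * V') * (e1 ⬝ᵥ e2) +
      V' ^ 2 * (e2 ⬝ᵥ e2) := by
    have h1 : (D • y) ⬝ᵥ (D • y) = D ^ 2 * (y ⬝ᵥ y) := by
      simp only [smul_dotProduct, dotProduct_smul, smul_eq_mul]
      ring
    rw [← h1, hDy]
    simp only [dotProduct_add, add_dotProduct, smul_dotProduct, dotProduct_smul, smul_eq_mul]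
    rw [dotProduct_comm e2 e1]
    ring
  have he1 := Basis_self_pos e1 h10
  have he2 := Basis_self_pos e2 h20
  have hD2 : 0 < D ^ 2 := by positivity
  have hU2 : 4 * U' ^ 2 ≤ D ^ 2 := by
    have := pow_le_pow_left₀ (by positivity) hu 2
    rw [mul_pow, sq_abs, sq_abs] at this
    linarith
  have hV2 : 4 * V' ^ 2 ≤ D ^ 2 := by
    have := pow_le_pow_left₀ (by positivity) hv 2
    rw [mul_pow, sq_abs, sq_abs] at this
    linarith
  have hUV : 4 * |U' * V'| ≤ D ^ 2 := by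
    rw [abs_mul]
    have := mul_le_mul hu hv (by positivity) (abs_nonneg _)
    rw [← abs_mul, ← pow_two, abs_of_nonneg hD2.le] at this
    linarith
  by_cases hV0 : V' = 0
  · have h1 := hmin1 y hy0 hay hby
    rw [hV0] at hDyy
    have h2 : D ^ 2 * (y ⬝ᵥ y) = U' ^ 2 * (e1 ⬝ᵥ e1) := by rw [hDyy]; ring
    nlinarith [mul_le_mul_of_nonneg_left h1 hD2.le, mul_le_mul_of_nonneg_right hU2 he1.le,
      mul_pos hD2 he1]
  · have hiy : Indep2 e1 y := by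
      intro s t hst
      have h1 : (s * D + t * U') • e1 + (t * V') • e2 = 0 := by
        have h2 : D • (s • e1 + t • y) = 0 := by rw [hst, smul_zero]
        rw [smul_add, smul_smul, smul_comm, hDy, smul_add, smul_smul, smul_smul] at h2
        rw [← h2, add_smul, mul_comm s D]
        abel
      obtain ⟨h3, h4⟩ := hi _ _ h1
      have h5 : t = 0 := by
        rcases mul_eq_zero.1 h4 with h6 | h6
        · exact h6
        · exact absurd h6 hV0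
      rw [h5, zero_mul, add_zero] at h3
      rcases mul_eq_zero.1 h3 with h6 | h6
      · exact ⟨h6, h5⟩
      · exact absurd h6 hD
    have h1 := hmin2 y hiy hay hby
    have h2 : 2 * (U' * V') * (e1 ⬝ᵥ e2) ≤ 2 * |U' * V'| * |e1 ⬝ᵥ e2| := by
      have h3 : (U' * V') * (e1 ⬝ᵥ e2) ≤ |U' * V'| * |e1 ⬝ᵥ e2| := by
        rw [← abs_mul]; exact le_abs_self _
      linarith
    have h3 : 2 * |U' * V'| * |e1 ⬝ᵥ e2| * 4 ≤ D ^ 2 * (e1 ⬝ᵥ e1) := by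
      have := mul_le_mul hUV hred (by positivity) hD2.le
      linarith
    nlinarith [mul_le_mul_of_nonneg_left h1 hD2.le, mul_le_mul_of_nonneg_right hU2 he1.le,
      mul_le_mul_of_nonneg_right hV2 he2.le, mul_le_mul_of_nonneg_left hle hD2.le,
      mul_pos hD2 he2]

/-- the six minors of two vectors -/
def mnr (x y : Fin 4 → ℤ) : Fin 6 → ℤ :=
  ![x 0 * y 1 - x 1 * y 0, x 0 * y 2 - x 2 * y 0, x 0 * y 3 - x 3 * y 0,
    x 1 * y 2 - x 2 * y 1, x 1 * y 3 - x 3 * y 1, x 2 * y 3 - x 3 * y 2]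

/-- the six minors in the dual order -/
def mnrD (x y : Fin 4 → ℤ) : Fin 6 → ℤ :=
  ![x 2 * y 3 - x 3 * y 2, -(x 1 * y 3 - x 3 * y 1), x 1 * y 2 - x 2 * y 1,
    x 0 * y 3 - x 3 * y 0, -(x 0 * y 2 - x 2 * y 0), x 0 * y 1 - x 1 * y 0]

lemma sum_mnr_sq (x y : Fin 4 → ℤ) :
    ∑ s, mnr x y s ^ 2 = (x ⬝ᵥ x) * (y ⬝ᵥ y) - (x ⬝ᵥ y) ^ 2 := by
  rw [Fin.sum_univ_six]
  simp only [dotProduct, Fin.sum_univ_four]
  change (x 0 * y 1 - x 1 * y 0) ^ 2 + (x 0 * y 2 - x 2 * y 0) ^ 2 +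
    (x 0 * y 3 - x 3 * y 0) ^ 2 + (x 1 * y 2 - x 2 * y 1) ^ 2 + (x 1 * y 3 - x 3 * y 1) ^ 2 +
    (x 2 * y 3 - x 3 * y 2) ^ 2 = _
  ring

lemma sum_mnrD_sq (x y : Fin 4 → ℤ) :
    ∑ s, mnrD x y s ^ 2 = (x ⬝ᵥ x) * (y ⬝ᵥ y) - (x ⬝ᵥ y) ^ 2 := by
  rw [Fin.sum_univ_six]
  simp only [dotProduct, Fin.sum_univ_four]
  change (x 2 * y 3 - x 3 * y 2) ^ 2 + (-(x 1 * y 3 - x 3 * y 1)) ^ 2 +
    (x 1 * y 2 - x 2 * y 1) ^ 2 + (x 0 * y 3 - x 3 * y 0) ^ 2 +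
    (-(x 0 * y 2 - x 2 * y 0)) ^ 2 + (x 0 * y 1 - x 1 * y 0) ^ 2 = _
  ring

private lemma Basis_prop (a b x y : Fin 4 → ℤ) (ax : a ⬝ᵥ x = 0) (bx : b ⬝ᵥ x = 0)
    (ay : a ⬝ᵥ y = 0) (by' : b ⬝ᵥ y = 0) (s t : Fin 6) :
    mnrD a b s * mnr x y t = mnrD a b t * mnr x y s := by
  simp only [dotProduct, Fin.sum_univ_four] at ax bx ay by'
  fin_cases s <;> fin_cases t <;> simp [mnr, mnrD] <;> grind

lemma mnr_eq_zero (x y : Fin 4 → ℤ) (h : ∀ s, mnr x y s = 0) (i : Fin 4) :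
    (x i) • y + (-(y i)) • x = 0 := by
  have h0 : x 0 * y 1 - x 1 * y 0 = 0 := h 0
  have h1 : x 0 * y 2 - x 2 * y 0 = 0 := h 1
  have h2 : x 0 * y 3 - x 3 * y 0 = 0 := h 2
  have h3 : x 1 * y 2 - x 2 * y 1 = 0 := h 3
  have h4 : x 1 * y 3 - x 3 * y 1 = 0 := h 4
  have h5 : x 2 * y 3 - x 3 * y 2 = 0 := h 5
  funext j
  simp only [Pi.add_apply, Pi.smul_apply, smul_eq_mul, Pi.zero_apply]
  fin_cases i <;> fin_cases j <;> simp <;> linarith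

lemma mnr_dvd (x y : Fin 4 → ℤ) (g : ℤ) (h : ∀ s, g ∣ mnr x y s) (i j : Fin 4) :
    g ∣ x i * y j - y i * x j := by
  have h0 : g ∣ x 0 * y 1 - x 1 * y 0 := h 0
  have h1 : g ∣ x 0 * y 2 - x 2 * y 0 := h 1
  have h2 : g ∣ x 0 * y 3 - x 3 * y 0 := h 2
  have h3 : g ∣ x 1 * y 2 - x 2 * y 1 := h 3
  have h4 : g ∣ x 1 * y 3 - x 3 * y 1 := h 4
  have h5 : g ∣ x 2 * y 3 - x 3 * y 2 := h 5
  have h6 : ∀ u : ℤ, g ∣ u → ∀ w : ℤ, (w = u ∨ w = -u) → g ∣ w := by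
    intro u hu w hw
    rcases hw with rfl | rfl
    · exact hu
    · exact (dvd_neg).2 hu
  fin_cases i <;> fin_cases j <;> simp only [Fin.zero_eta, Fin.mk_one, Fin.reduceFinMk]
  · exact ⟨0, by ring⟩
  · exact h6 _ h0 _ (Or.inl (by ring))
  · exact h6 _ h1 _ (Or.inl (by ring))
  · exact h6 _ h2 _ (Or.inl (by ring))
  · exact h6 _ h0 _ (Or.inr (by ring))
  · exact ⟨0, by ring⟩
  · exact h6 _ h3 _ (Or.inl (by ring))
  · exact h6 _ h4 _ (Or.inl (by ring))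
  · exact h6 _ h1 _ (Or.inr (by ring))
  · exact h6 _ h3 _ (Or.inr (by ring))
  · exact ⟨0, by ring⟩
  · exact h6 _ h5 _ (Or.inl (by ring))
  · exact h6 _ h2 _ (Or.inr (by ring))
  · exact h6 _ h4 _ (Or.inr (by ring))
  · exact h6 _ h5 _ (Or.inr (by ring))
  · exact ⟨0, by ring⟩

namespace RBasis

variable {a b e1 e2 : Fin 4 → ℤ}

theorem ne1 (h : RBasis a b e1 e2) : e1 ≠ 0 := by
  intro h0
  have := (h.ind 1 0 (by rw [h0]; simp)).1
  exact one_ne_zero this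

theorem ne2 (h : RBasis a b e1 e2) : e2 ≠ 0 := by
  intro h0
  have := (h.ind 0 1 (by rw [h0]; simp)).2
  exact one_ne_zero this

/-- the lattice is saturated -/
theorem sat (h : RBasis a b e1 e2) (m u v : ℤ) (hm : m ≠ 0) (x : Fin 4 → ℤ)
    (hx : m • x = u • e1 + v • e2) : m ∣ u ∧ m ∣ v ∧ ∃ u' v' : ℤ, x = u' • e1 + v' • e2 := by
  have h1 : a ⬝ᵥ x = 0 := by
    have : m * (a ⬝ᵥ x) = 0 := by
      have h2 : a ⬝ᵥ (m • x) = m * (a ⬝ᵥ x) := by rw [dotProduct_smul, smul_eq_mul]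
      rw [← h2, hx, dotProduct_add, dotProduct_smul, dotProduct_smul, h.a1, h.a2]
      simp
    exact (mul_eq_zero.1 this).resolve_left hm
  have h1' : b ⬝ᵥ x = 0 := by
    have : m * (b ⬝ᵥ x) = 0 := by
      have h2 : b ⬝ᵥ (m • x) = m * (b ⬝ᵥ x) := by rw [dotProduct_smul, smul_eq_mul]
      rw [← h2, hx, dotProduct_add, dotProduct_smul, dotProduct_smul, h.b1, h.b2]
      simp
    exact (mul_eq_zero.1 this).resolve_left hm
  obtain ⟨u', v', hx'⟩ := h.span x h1 h1'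
  have h2 : (m * u' - u) • e1 + (m * v' - v) • e2 = 0 := by
    have h3 : m • x - (u • e1 + v • e2) = 0 := sub_eq_zero.2 hx
    rw [hx', smul_add, smul_smul, smul_smul] at h3
    rw [← h3, sub_smul, sub_smul]
    abel
  obtain ⟨h4, h5⟩ := h.ind _ _ h2
  exact ⟨⟨u', by linarith⟩, ⟨v', by linarith⟩, u', v', hx'⟩

/-- the minors of the basis have no common factor -/
theorem prim (h : RBasis a b e1 e2) : ∃ c : Fin 6 → ℤ, ∑ s, c s * mnr e1 e2 s = 1 := by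
  classical
  set I : Ideal ℤ := Ideal.span (Set.range (mnr e1 e2)) with hI
  obtain ⟨g, hg⟩ := (IsPrincipalIdealRing.principal I).principal
  have hgd : ∀ s, g ∣ mnr e1 e2 s := by
    intro s
    have : mnr e1 e2 s ∈ I := Ideal.subset_span ⟨s, rfl⟩
    rw [hg] at this
    exact Ideal.mem_span_singleton.1 this
  have hunit : IsUnit g := by
    by_contra hu
    by_cases hg0 : g = 0
    · have h1 : ∀ s, mnr e1 e2 s = 0 := by
        intro s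
        have := hgd s
        rw [hg0] at this
        exact zero_dvd_iff.1 this
      apply h.ne1
      funext i
      have h2 := mnr_eq_zero e1 e2 h1 i
      have h3 := h.ind (-(e2 i)) (e1 i) (by rw [← h2]; abel)
      exact h3.2
    · -- some coordinate of `e1` is not divisible by `g`
      have h1 : ∃ i, ¬ g ∣ e1 i := by
        by_contra hcon
        push Not at hcon
        choose y hy using hcon
        have h2 : g • y = (1 : ℤ) • e1 + (0 : ℤ) • e2 := by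
          funext i
          simp only [Pi.smul_apply, smul_eq_mul, Pi.add_apply, one_mul, zero_mul, add_zero]
          exact (hy i).symm
        have h3 := (h.sat g 1 0 hg0 y h2).1
        exact hu (isUnit_of_dvd_one h3)
      obtain ⟨i, hi⟩ := h1
      have h2 : ∀ j, g ∣ e1 i * e2 j - e2 i * e1 j := fun j => mnr_dvd e1 e2 g hgd i j
      choose y hy using h2
      have h3 : g • y = (-(e2 i)) • e1 + (e1 i) • e2 := by
        funext j
        simp only [Pi.smul_apply, smul_eq_mul, Pi.add_apply]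
        have := hy j
        linarith
      exact hi (h.sat g _ _ hg0 y h3).2.1
  have htop : I = ⊤ := by
    rw [hg]
    exact Ideal.span_singleton_eq_top.2 hunit
  have h1 : (1 : ℤ) ∈ I := by rw [htop]; trivial
  rw [hI, Ideal.mem_span_range_iff_exists_fun] at h1
  exact h1

/-- the minors of `(a, b)` are a multiple of the minors of the basis -/
theorem dual (h : RBasis a b e1 e2) (hab : Indep2 a b) :
    ∃ g : ℤ, g ≠ 0 ∧ ∀ s, mnrD a b s = g * mnr e1 e2 s := by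
  obtain ⟨c, hc⟩ := h.prim
  have h1 : ∀ s, mnrD a b s = (∑ t, c t * mnrD a b t) * mnr e1 e2 s := by
    intro s
    have h2 : mnrD a b s = mnrD a b s * ∑ t, c t * mnr e1 e2 t := by rw [hc, mul_one]
    rw [h2, Finset.mul_sum, Finset.sum_mul]
    refine Finset.sum_congr rfl (fun t _ => ?_)
    have h3 := Basis_prop a b e1 e2 h.a1 h.b1 h.a2 h.b2 s t
    linear_combination (c t) * h3
  refine ⟨_, ?_, h1⟩
  intro h0
  have h2 : ∀ s, mnrD a b s = 0 := fun s => by rw [h1 s, h0, zero_mul]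
  have h3 : ∑ s, mnr a b s ^ 2 = 0 := by
    rw [sum_mnr_sq, ← sum_mnrD_sq]
    exact Finset.sum_eq_zero (fun s _ => by rw [h2 s]; ring)
  have h4 : ∀ s, mnr a b s = 0 := by
    intro s
    rw [Finset.sum_eq_zero_iff_of_nonneg (fun i _ => sq_nonneg _)] at h3
    exact pow_eq_zero_iff (two_ne_zero) |>.1 (h3 s (Finset.mem_univ s))
  have h5 : a = 0 := by
    funext i
    have h6 := mnr_eq_zero a b h4 i
    exact (hab (-(b i)) (a i) (by rw [← h6]; abel)).2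
  have := (hab 1 0 (by rw [h5]; simp)).1
  exact one_ne_zero this

/-- the product of the squared lengths of the basis -/
theorem mul_le (h : RBasis a b e1 e2) (hab : Indep2 a b) :
    3 * ((e1 ⬝ᵥ e1) * (e2 ⬝ᵥ e2)) ≤ 4 * ((a ⬝ᵥ a) * (b ⬝ᵥ b)) := by
  obtain ⟨g, hg0, hg⟩ := h.dual hab
  have h1 : ∑ s, mnr e1 e2 s ^ 2 ≤ ∑ s, mnrD a b s ^ 2 := by
    refine Finset.sum_le_sum (fun s _ => ?_)
    rw [hg s, mul_pow]
    have : 1 ≤ g ^ 2 := by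
      have h9 : 0 < g ^ 2 := by positivity
      exact Int.add_one_le_iff.2 h9
    nlinarith [sq_nonneg (mnr e1 e2 s)]
  rw [sum_mnr_sq, sum_mnrD_sq] at h1
  have h2 := h.red
  have h3 := h.le
  have h4 : 4 * (e1 ⬝ᵥ e2) ^ 2 ≤ (e1 ⬝ᵥ e1) * (e2 ⬝ᵥ e2) := by
    have h5 := pow_le_pow_left₀ (by positivity) h2 2
    rw [mul_pow, sq_abs] at h5
    have h6 := Basis_self_nonneg e1
    nlinarith
  have h7 := sq_nonneg (a ⬝ᵥ b)
  linarith

/-- the size of the first coordinate -/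
theorem coord1 (h : RBasis a b e1 e2) (u v : ℤ) :
    u ^ 2 * (e1 ⬝ᵥ e1) ≤ 2 * ((u • e1 + v • e2) ⬝ᵥ (u • e1 + v • e2)) := by
  simp only [dotProduct_add, add_dotProduct, smul_dotProduct, dotProduct_smul, smul_eq_mul]
  rw [dotProduct_comm e2 e1]
  have h1 := Basis_self_nonneg e1
  have h2 : -(|u| * |v| * (e1 ⬝ᵥ e1)) ≤ 2 * (u * v * (e1 ⬝ᵥ e2)) := by
    have h3 : |2 * (u * v * (e1 ⬝ᵥ e2))| ≤ |u| * |v| * (e1 ⬝ᵥ e1) := by
      rw [abs_mul, abs_mul, abs_mul, abs_two]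
      have := mul_le_mul_of_nonneg_left h.red (mul_nonneg (abs_nonneg u) (abs_nonneg v))
      linarith
    exact (abs_le.1 h3).1
  have h4 : 0 ≤ (|u| - |v|) ^ 2 * (e1 ⬝ᵥ e1) := by positivity
  have h5 : 0 ≤ v ^ 2 * (e1 ⬝ᵥ e1) := by positivity
  have h6 := mul_le_mul_of_nonneg_left h.le (sq_nonneg v)
  have h7 : (|u| - |v|) ^ 2 = u ^ 2 + v ^ 2 - 2 * (|u| * |v|) := by
    rw [sub_sq, sq_abs, sq_abs]; ring
  rw [h7] at h4
  nlinarith

/-- the size of the second coordinate -/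
theorem coord2 (h : RBasis a b e1 e2) (u v : ℤ) :
    v ^ 2 * (e2 ⬝ᵥ e2) ≤ 2 * ((u • e1 + v • e2) ⬝ᵥ (u • e1 + v • e2)) := by
  simp only [dotProduct_add, add_dotProduct, smul_dotProduct, dotProduct_smul, smul_eq_mul]
  rw [dotProduct_comm e2 e1]
  have h1 := Basis_self_nonneg e1
  have h2 : -(|u| * |v| * (e1 ⬝ᵥ e1)) ≤ 2 * (u * v * (e1 ⬝ᵥ e2)) := by
    have h3 : |2 * (u * v * (e1 ⬝ᵥ e2))| ≤ |u| * |v| * (e1 ⬝ᵥ e1) := by
      rw [abs_mul, abs_mul, abs_mul, abs_two]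
      have := mul_le_mul_of_nonneg_left h.red (mul_nonneg (abs_nonneg u) (abs_nonneg v))
      linarith
    exact (abs_le.1 h3).1
  have h4 : 0 ≤ (|u| - |v|) ^ 2 * (e1 ⬝ᵥ e1) := by positivity
  have h5 : 0 ≤ u ^ 2 * (e1 ⬝ᵥ e1) := by positivity
  have h6 := mul_le_mul_of_nonneg_left h.le (sq_nonneg v)
  have h7 : (|u| - |v|) ^ 2 = u ^ 2 + v ^ 2 - 2 * (|u| * |v|) := by
    rw [sub_sq, sq_abs, sq_abs]; ring
  rw [h7] at h4
  nlinarith

end RBasis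

lemma sn_sq_le (x : Fin 4 → ℤ) : (sn x : ℤ) ^ 2 ≤ x ⬝ᵥ x := by
  obtain ⟨i, hi⟩ := exists_eq_sn x
  have h1 : (sn x : ℤ) ^ 2 = x i * x i := by
    rw [← hi, Int.natCast_natAbs, sq_abs]; ring
  rw [h1]
  unfold dotProduct
  exact Finset.single_le_sum (f := fun i => x i * x i) (fun i _ => mul_self_nonneg _)
    (Finset.mem_univ i)

lemma dot_self_le (x : Fin 4 → ℤ) : x ⬝ᵥ x ≤ 4 * (sn x : ℤ) ^ 2 := by
  unfold dotProduct
  have h1 : ∀ i ∈ (Finset.univ : Finset (Fin 4)), x i * x i ≤ (sn x : ℤ) ^ 2 := by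
    intro i _
    have h2 := le_sn x i
    have h3 : |x i| ≤ (sn x : ℤ) := by
      rw [← Int.natCast_natAbs]; exact_mod_cast h2
    have h4 := pow_le_pow_left₀ (abs_nonneg _) h3 2
    rw [sq_abs] at h4
    linarith
  have h2 := Finset.sum_le_sum h1
  rw [Finset.sum_const, Finset.card_univ, Fintype.card_fin, nsmul_eq_mul] at h2
  push_cast at h2
  exact h2

namespace RBasis

variable {a b e1 e2 : Fin 4 → ℤ}

theorem sn_le (h : RBasis a b e1 e2) : sn e1 ≤ 2 * sn e2 := by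
  have h1 := sn_sq_le e1
  have h2 := dot_self_le e2
  have h3 := h.le
  have h4 : (sn e1 : ℤ) ^ 2 ≤ (2 * sn e2 : ℤ) ^ 2 := by nlinarith
  have h5 := abs_le_of_sq_le_sq h4 (by positivity)
  have h6 : (sn e1 : ℤ) ≤ 2 * sn e2 := (le_abs_self _).trans h5
  exact_mod_cast h6

theorem sn_mul_le (h : RBasis a b e1 e2) (hab : Indep2 a b) :
    sn e1 * sn e2 ≤ 5 * (sn a * sn b) := by
  have h1 := h.mul_le hab
  have h2 := sn_sq_le e1
  have h3 := sn_sq_le e2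
  have h4 := dot_self_le a
  have h5 := dot_self_le b
  have h6 : (sn e1 : ℤ) ^ 2 * (sn e2 : ℤ) ^ 2 ≤ (e1 ⬝ᵥ e1) * (e2 ⬝ᵥ e2) :=
    mul_le_mul h2 h3 (by positivity) (Basis_self_nonneg e1)
  have h7 : (a ⬝ᵥ a) * (b ⬝ᵥ b) ≤ (4 * (sn a : ℤ) ^ 2) * (4 * (sn b : ℤ) ^ 2) :=
    mul_le_mul h4 h5 (Basis_self_nonneg b) (by positivity)
  have h8 : ((sn e1 : ℤ) * sn e2) ^ 2 ≤ (5 * ((sn a : ℤ) * sn b)) ^ 2 := by
    have h9 : 0 ≤ ((sn a : ℤ) * sn b) ^ 2 := by positivity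
    have h10 : 3 * ((sn e1 : ℤ) * sn e2) ^ 2 ≤ 64 * ((sn a : ℤ) * sn b) ^ 2 := by
      calc 3 * ((sn e1 : ℤ) * sn e2) ^ 2 = 3 * ((sn e1 : ℤ) ^ 2 * (sn e2 : ℤ) ^ 2) := by ring
        _ ≤ 3 * ((e1 ⬝ᵥ e1) * (e2 ⬝ᵥ e2)) := by linarith
        _ ≤ 4 * ((a ⬝ᵥ a) * (b ⬝ᵥ b)) := h1
        _ ≤ 4 * ((4 * (sn a : ℤ) ^ 2) * (4 * (sn b : ℤ) ^ 2)) := by linarith
        _ = 64 * ((sn a : ℤ) * sn b) ^ 2 := by ring
    have h11 : (5 * ((sn a : ℤ) * sn b)) ^ 2 = 25 * ((sn a : ℤ) * sn b) ^ 2 := by ring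
    rw [h11]
    linarith
  have h9 : (sn e1 : ℤ) * sn e2 ≤ 5 * ((sn a : ℤ) * sn b) :=
    le_of_sq_le_sq h8 (by positivity)
  exact_mod_cast h9

theorem size1 (h : RBasis a b e1 e2) (u v : ℤ) :
    u.natAbs * sn e1 ≤ 3 * sn (u • e1 + v • e2) := by
  have h1 := h.coord1 u v
  have h2 := sn_sq_le e1
  have h3 := dot_self_le (u • e1 + v • e2)
  have h4 : ((u.natAbs : ℤ) * sn e1) ^ 2 ≤ (3 * (sn (u • e1 + v • e2) : ℤ)) ^ 2 := by
    have h5 : (u.natAbs : ℤ) ^ 2 = u ^ 2 := by rw [Int.natCast_natAbs, sq_abs]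
    have h6 := mul_le_mul_of_nonneg_left h2 (sq_nonneg u)
    have h7 : ((u.natAbs : ℤ) * sn e1) ^ 2 = u ^ 2 * (sn e1 : ℤ) ^ 2 := by rw [mul_pow, h5]
    rw [h7, mul_pow]
    nlinarith [sq_nonneg (sn (u • e1 + v • e2) : ℤ)]
  have h9 : (u.natAbs : ℤ) * sn e1 ≤ 3 * (sn (u • e1 + v • e2) : ℤ) :=
    le_of_sq_le_sq h4 (by positivity)
  exact_mod_cast h9

theorem size2 (h : RBasis a b e1 e2) (u v : ℤ) :
    v.natAbs * sn e2 ≤ 3 * sn (u • e1 + v • e2) := by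
  have h1 := h.coord2 u v
  have h2 := sn_sq_le e2
  have h3 := dot_self_le (u • e1 + v • e2)
  have h4 : ((v.natAbs : ℤ) * sn e2) ^ 2 ≤ (3 * (sn (u • e1 + v • e2) : ℤ)) ^ 2 := by
    have h5 : (v.natAbs : ℤ) ^ 2 = v ^ 2 := by rw [Int.natCast_natAbs, sq_abs]
    have h6 := mul_le_mul_of_nonneg_left h2 (sq_nonneg v)
    have h7 : ((v.natAbs : ℤ) * sn e2) ^ 2 = v ^ 2 * (sn e2 : ℤ) ^ 2 := by rw [mul_pow, h5]
    rw [h7, mul_pow]
    nlinarith [sq_nonneg (sn (u • e1 + v • e2) : ℤ)]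
  have h9 : (v.natAbs : ℤ) * sn e2 ≤ 3 * (sn (u • e1 + v • e2) : ℤ) :=
    le_of_sq_le_sq h4 (by positivity)
  exact_mod_cast h9

end RBasis

/-- EVERY `α` LIES IN A SLICE WITH A SHORT REDUCED BASIS. -/
theorem exists_basis_slice (A : ℕ) (hA : 1 ≤ A) (α : Fin 4 → ℤ) (hα : sn α ≤ A) :
    ∃ a b e1 e2 : Fin 4 → ℤ, Indep2 a b ∧ RBasis a b e1 e2 ∧ a ⬝ᵥ α = 0 ∧ b ⬝ᵥ α = 0 ∧
      sn a ^ 3 ≤ 4 * A ∧ sn a * sn b ^ 2 ≤ 4 * A ∧
      (sn e1 * sn e2) ^ 3 ≤ 2000 * A ^ 2 ∧ sn e1 ≤ 2 * sn e2 ∧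
      ∃ u v : ℤ, α = u • e1 + v • e2 ∧ u.natAbs * sn e1 ≤ 3 * sn α ∧
        v.natAbs * sn e2 ≤ 3 * sn α := by
  obtain ⟨a, b, h1, h2, h3, h4, h5, h6, h7⟩ := exists_slice A hA α ((sn_le_iff α A).1 hα)
  obtain ⟨e1, e2, hb⟩ := exists_rbasis a b h5
  obtain ⟨u, v, huv⟩ := hb.span α h1 h2
  refine ⟨a, b, e1, e2, h5, hb, h1, h2, h6, h7, ?_, hb.sn_le, u, v, huv, ?_, ?_⟩
  · have h8 := hb.sn_mul_le h5
    have h9 : (sn a * sn b) ^ 3 ≤ 16 * A ^ 2 := by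
      have hm : (sn a * sn b) ^ 6 ≤ (16 * A ^ 2) ^ 2 := by
        calc (sn a * sn b) ^ 6 = sn a ^ 3 * (sn a * sn b ^ 2) ^ 3 := by ring
          _ ≤ (4 * A) * (4 * A) ^ 3 := Nat.mul_le_mul h6 (Nat.pow_le_pow_left h7 3)
          _ = (16 * A ^ 2) ^ 2 := by ring
      have hm2 : ((sn a * sn b) ^ 3) ^ 2 ≤ (16 * A ^ 2) ^ 2 := by
        rw [← pow_mul]; exact hm
      exact (Nat.pow_le_pow_iff_left (by norm_num)).1 hm2
    calc (sn e1 * sn e2) ^ 3 ≤ (5 * (sn a * sn b)) ^ 3 := Nat.pow_le_pow_left h8 3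
      _ = 125 * (sn a * sn b) ^ 3 := by ring
      _ ≤ 125 * (16 * A ^ 2) := Nat.mul_le_mul_left _ h9
      _ = 2000 * A ^ 2 := by ring
  · rw [huv]; exact hb.size1 u v
  · rw [huv]; exact hb.size2 u v

end Pool.Agent.SQF4
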