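import Pool.Agent.Lib.SQF4.QMinor

/-!
# Real bound for determinants whose entries have weighted expansions

`det_abs_le`: if the entry `(i, j)` is `∑ m ∈ I, a j m * φ m i` with `|a j m| ≤ C j` and
`|φ m i| ≤ w m`, and every product of `N` distinct weights is at most `W`, then
`|det| ≤ N! * |I| ^ N * ∏ C j * W`.
-/

set_option autoImplicit false

open Matrix Finset

namespace Pool.Agent.SQF4

lemma det_abs_le_prod {N : ℕ} (M : Matrix (Fin N) (Fin N) ℝ) (b : Fin N → ℝ)
    (h : ∀ i j, |M i j| ≤ b j) : |M.det| ≤ (N.factorial : ℝ) * ∏ j, b j := by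
  rw [Matrix.det_apply]
  refine (Finset.abs_sum_le_sum_abs _ _).trans ?_
  have h1 : ∀ σ : Equiv.Perm (Fin N), |(Equiv.Perm.sign σ : ℤˣ) • ∏ i, M (σ i) i| ≤ ∏ j, b j := by
    intro σ
    have h2 : |(Equiv.Perm.sign σ : ℤˣ) • ∏ i, M (σ i) i| = |∏ i, M (σ i) i| := by
      rcases Int.units_eq_one_or (Equiv.Perm.sign σ) with h3 | h3
      · rw [h3, one_smul]
      · rw [h3, Units.neg_smul, one_smul, abs_neg]
    rw [h2, Finset.abs_prod]
    exact Finset.prod_le_prod (fun _ _ => abs_nonneg _) (fun j _ => h _ _)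
  refine (Finset.sum_le_sum (fun σ _ => h1 σ)).trans ?_
  rw [Finset.sum_const, Finset.card_univ, Fintype.card_perm, Fintype.card_fin, nsmul_eq_mul]

/-- **Weighted determinant bound.** -/
theorem det_abs_le {N : ℕ} {ι : Type*} [DecidableEq ι] (I : Finset ι) (a : Fin N → ι → ℝ)
    (φ : ι → Fin N → ℝ) (C : Fin N → ℝ) (w : ι → ℝ) (W : ℝ)
    (ha : ∀ j, ∀ m ∈ I, |a j m| ≤ C j) (hφ : ∀ m ∈ I, ∀ i, |φ m i| ≤ w m)
    (hW : ∀ T ⊆ I, T.card = N → ∏ m ∈ T, w m ≤ W) (hW0 : 0 ≤ W) :
    |Matrix.det (Matrix.of fun i j => ∑ m ∈ I, a j m * φ m i)| ≤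
      (N.factorial : ℝ) * (I.card : ℝ) ^ N * (∏ j, C j) * W := by
  classical
  rw [det_expand_inj]
  refine (Finset.abs_sum_le_sum_abs _ _).trans ?_
  have h1 : ∀ σ ∈ (Fintype.piFinset (fun _ : Fin N => I)).filter (fun σ => Function.Injective σ),
      |(∏ j, a j (σ j)) * Matrix.det (Matrix.of fun i j => φ (σ j) i)| ≤
        (N.factorial : ℝ) * (∏ j, C j) * W := by
    intro σ hσ
    obtain ⟨h2, hinj⟩ := Finset.mem_filter.1 hσ
    have h3 : ∀ j, σ j ∈ I := fun j => Fintype.mem_piFinset.1 h2 j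
    rw [abs_mul, Finset.abs_prod]
    have h4 : ∏ j, |a j (σ j)| ≤ ∏ j, C j :=
      Finset.prod_le_prod (fun _ _ => abs_nonneg _) (fun j _ => ha j _ (h3 j))
    have h5 : |Matrix.det (Matrix.of fun i j => φ (σ j) i)| ≤
        (N.factorial : ℝ) * ∏ j, w (σ j) :=
      det_abs_le_prod _ _ (fun i j => hφ _ (h3 j) i)
    have h6 : ∏ j, w (σ j) ≤ W := by
      have h7 := hW (Finset.univ.image σ) (by
        intro m hm
        obtain ⟨j, _, rfl⟩ := Finset.mem_image.1 hm
        exact h3 j) (by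
        rw [Finset.card_image_of_injective _ hinj, Finset.card_univ, Fintype.card_fin])
      rwa [Finset.prod_image (fun _ _ _ _ h => hinj h)] at h7
    have h8 : 0 ≤ ∏ j, C j :=
      Finset.prod_nonneg (fun j _ => (abs_nonneg _).trans (ha j _ (h3 j)))
    have h9 : |Matrix.det (Matrix.of fun i j => φ (σ j) i)| ≤ (N.factorial : ℝ) * W :=
      h5.trans (mul_le_mul_of_nonneg_left h6 (Nat.cast_nonneg _))
    calc (∏ j, |a j (σ j)|) * |Matrix.det (Matrix.of fun i j => φ (σ j) i)| ≤
        (∏ j, C j) * ((N.factorial : ℝ) * W) :=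
          mul_le_mul h4 h9 (abs_nonneg _) h8
      _ = (N.factorial : ℝ) * (∏ j, C j) * W := by ring
  by_cases hne : ((Fintype.piFinset (fun _ : Fin N => I)).filter
      (fun σ => Function.Injective σ)).Nonempty
  · have h10 : 0 ≤ (N.factorial : ℝ) * (∏ j, C j) * W := by
      obtain ⟨σ, hσ⟩ := hne
      exact (abs_nonneg _).trans (h1 σ hσ)
    refine (Finset.sum_le_sum h1).trans ?_
    rw [Finset.sum_const, nsmul_eq_mul]
    have h11 : (((Fintype.piFinset (fun _ : Fin N => I)).filter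
        (fun σ => Function.Injective σ)).card : ℝ) ≤ (I.card : ℝ) ^ N := by
      have h12 := Finset.card_filter_le (Fintype.piFinset (fun _ : Fin N => I))
        (fun σ => Function.Injective σ)
      rw [Fintype.card_piFinset_const] at h12
      exact_mod_cast h12
    calc (((Fintype.piFinset (fun _ : Fin N => I)).filter
        (fun σ => Function.Injective σ)).card : ℝ) * ((N.factorial : ℝ) * (∏ j, C j) * W) ≤
        (I.card : ℝ) ^ N * ((N.factorial : ℝ) * (∏ j, C j) * W) :=
          mul_le_mul_of_nonneg_right h11 h10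
      _ = (N.factorial : ℝ) * (I.card : ℝ) ^ N * (∏ j, C j) * W := by ring
  · rw [Finset.not_nonempty_iff_eq_empty.1 hne, Finset.sum_empty]
    by_cases hI : I.card = 0
    · rcases Nat.eq_zero_or_pos N with hN | hN
      · subst hN
        simpa using hW0
      · rw [hI]
        simp [hN.ne']
    · have hC : 0 ≤ ∏ j, C j := by
        obtain ⟨m, hm⟩ := Finset.card_pos.1 (Nat.pos_of_ne_zero hI)
        exact Finset.prod_nonneg (fun j _ => (abs_nonneg _).trans (ha j m hm))
      positivity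

end Pool.Agent.SQF4
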