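import Pool.Agent.Lib.SQF4.Red

/-!
# Squarefree values: the tail of a product

The tail of a product of coprime polynomials is at most the sum of the tails; tails of polynomials
of degree at most two are `o(N)`.
-/

set_option autoImplicit false

open Polynomial Filter Topology

namespace Pool.Agent.SQF4

/-- the tail bound -/
def TailSmall (f : ℤ[X]) : Prop := Tendsto (fun N : ℕ => (tailCount f N : ℝ) / N) atTop (𝓝 0)

lemma tailCount_mul_le (g h a b : ℤ[X]) (R : ℤ) (hR : R ≠ 0) (hab : a * g + b * h = C R) (N : ℕ)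
    (hN : R.natAbs ≤ N) : tailCount (g * h) N ≤ tailCount g N + tailCount h N := by
  classical
  have c : ∀ f : ℤ[X], tailCount f N = ((Finset.Ioc 0 N).filter (fun n : ℕ =>
      ∃ p : ℕ, p.Prime ∧ N < p ∧ (p : ℤ) ^ 2 ∣ f.eval (n : ℤ))).card := by
    intro f
    refine Nat.subtype_card _ ?_
    intro n
    simp only [Finset.mem_filter, Finset.mem_Ioc]
    constructor
    · rintro ⟨⟨h3, h4⟩, h5⟩; exact ⟨h3, h4, h5⟩
    · rintro ⟨h3, h4, h5⟩; exact ⟨⟨h3, h4⟩, h5⟩
  rw [c, c, c]
  refine (Finset.card_le_card ?_).trans (Finset.card_union_le _ _)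
  intro n hn
  obtain ⟨hn1, p, hp, hNp, hd⟩ := Finset.mem_filter.1 hn
  rw [eval_mul] at hd
  have hpp : Prime (p : ℤ) := Nat.prime_iff_prime_int.1 hp
  have hnot : ¬ ((p : ℤ) ∣ g.eval (n : ℤ) ∧ (p : ℤ) ∣ h.eval (n : ℤ)) := by
    rintro ⟨h1, h2⟩
    have h3 : R = a.eval (n : ℤ) * g.eval (n : ℤ) + b.eval (n : ℤ) * h.eval (n : ℤ) := by
      have := congrArg (fun q => Polynomial.eval (n : ℤ) q) hab
      simpa using this.symm
    have h4 : (p : ℤ) ∣ R := by
      rw [h3]; exact dvd_add (Dvd.dvd.mul_left h1 _) (Dvd.dvd.mul_left h2 _)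
    have h5 : p ∣ R.natAbs := Int.natCast_dvd.1 h4
    have h6 := Nat.le_of_dvd (Int.natAbs_pos.2 hR) h5
    omega
  rw [Finset.mem_union, Finset.mem_filter, Finset.mem_filter]
  by_cases h1 : (p : ℤ) ∣ g.eval (n : ℤ)
  · left
    refine ⟨hn1, p, hp, hNp, ?_⟩
    have h2 : ¬ (p : ℤ) ∣ h.eval (n : ℤ) := fun h2 => hnot ⟨h1, h2⟩
    exact hpp.pow_dvd_of_dvd_mul_right 2 h2 hd
  · right
    refine ⟨hn1, p, hp, hNp, ?_⟩
    exact hpp.pow_dvd_of_dvd_mul_left 2 h1 hd

lemma TailSmall.mul {g h : ℤ[X]} (hg : TailSmall g) (hh : TailSmall h) {a b : ℤ[X]} {R : ℤ}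
    (hR : R ≠ 0) (hab : a * g + b * h = C R) : TailSmall (g * h) := by
  have h0 : Tendsto (fun N : ℕ => (tailCount g N : ℝ) / N + (tailCount h N : ℝ) / N) atTop (𝓝 0) := by
    simpa using hg.add hh
  refine squeeze_zero' (Eventually.of_forall (fun N => by positivity)) ?_ h0
  filter_upwards [eventually_ge_atTop R.natAbs] with N hN
  rw [← add_div]
  refine div_le_div_of_nonneg_right ?_ (by positivity)
  exact_mod_cast tailCount_mul_le g h a b R hR hab N hN

/-- two polynomials whose images in `ℚ[X]` are coprime satisfy a Bezout relation over `ℤ` -/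
lemma bezout_of_isCoprime (g h : ℤ[X])
    (hc : IsCoprime (g.map (Int.castRingHom ℚ)) (h.map (Int.castRingHom ℚ))) :
    ∃ (a b : ℤ[X]) (R : ℤ), R ≠ 0 ∧ a * g + b * h = C R := by
  obtain ⟨a, b, hab⟩ := hc
  obtain ⟨Da, hDa0, hDa⟩ := IsLocalization.integerNormalization_spec (nonZeroDivisors ℤ) a
  obtain ⟨Db, hDb0, hDb⟩ := IsLocalization.integerNormalization_spec (nonZeroDivisors ℤ) b
  set a' := IsLocalization.integerNormalization (nonZeroDivisors ℤ) a
  set b' := IsLocalization.integerNormalization (nonZeroDivisors ℤ) b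
  refine ⟨C (Db : ℤ) * a', C (Da : ℤ) * b', (Da : ℤ) * (Db : ℤ), ?_, ?_⟩
  · exact mul_ne_zero (nonZeroDivisors.ne_zero hDa0) (nonZeroDivisors.ne_zero hDb0)
  · apply Polynomial.map_injective (Int.castRingHom ℚ) (RingHom.injective_int _)
    have e1 : a'.map (Int.castRingHom ℚ) = C ((Da : ℤ) : ℚ) * a := by
      have : a'.map (algebraMap ℤ ℚ) = ((Da : ℤ)) • a := by
        rw [hDa]
      rw [show Int.castRingHom ℚ = algebraMap ℤ ℚ from rfl, this]
      ext n; simp
    have e2 : b'.map (Int.castRingHom ℚ) = C ((Db : ℤ) : ℚ) * b := by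
      have : b'.map (algebraMap ℤ ℚ) = ((Db : ℤ)) • b := by
        rw [hDb]
      rw [show Int.castRingHom ℚ = algebraMap ℤ ℚ from rfl, this]
      ext n; simp
    simp only [Polynomial.map_add, Polynomial.map_mul, Polynomial.map_C, e1, e2]
    have : C ((Int.castRingHom ℚ) (Db : ℤ)) * (C ((Da : ℤ) : ℚ) * a) * (g.map (Int.castRingHom ℚ)) +
        C ((Int.castRingHom ℚ) (Da : ℤ)) * (C ((Db : ℤ) : ℚ) * b) *
          (h.map (Int.castRingHom ℚ)) =
        C ((Da : ℤ) : ℚ) * C ((Db : ℤ) : ℚ) * (a * (g.map (Int.castRingHom ℚ)) +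
          b * (h.map (Int.castRingHom ℚ))) := by
      simp only [eq_intCast]
      ring
    rw [this, hab, mul_one, ← C_mul]
    simp

lemma tailSmall_of_isUnit (f : ℤ[X]) (hf : IsUnit f) : TailSmall f := by
  have h0 : ∀ N : ℕ, tailCount f N = 0 := by
    intro N
    unfold tailCount
    rw [Nat.card_eq_zero]
    left
    constructor
    rintro ⟨n, h1, h2, p, hp, hNp, hd⟩
    have h3 : IsUnit (f.eval (n : ℤ)) := by
      have := hf.map (Polynomial.evalRingHom (n : ℤ))
      simpa using this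
    have h4 : IsUnit ((p : ℤ) ^ 2) := isUnit_of_dvd_unit hd h3
    have h5 : IsUnit (p : ℤ) := by
      rw [sq] at h4
      exact isUnit_of_mul_isUnit_left h4
    rw [Int.isUnit_iff_natAbs_eq, Int.natAbs_natCast] at h5
    exact hp.one_lt.ne' h5
  unfold TailSmall
  simp only [h0]
  simp

lemma isUnit_of_prim (f : ℤ[X]) (hprim : f.IsPrimitive) (h : f.natDegree = 0) : IsUnit f := by
  rw [eq_C_of_natDegree_eq_zero h]
  refine (hprim (f.coeff 0) ?_).map C
  rw [← eq_C_of_natDegree_eq_zero h]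

lemma separable_of_unit (f : ℤ[X]) (hu : IsUnit f) : (f.map (Int.castRingHom ℚ)).Separable := by
  obtain ⟨u, hu'⟩ := hu.map (mapRingHom (Int.castRingHom ℚ))
  refine ⟨((u⁻¹ : ℚ[X]ˣ) : ℚ[X]), 0, ?_⟩
  have : f.map (Int.castRingHom ℚ) = (u : ℚ[X]) := by rw [hu']; rfl
  rw [this]
  simp

/-- **Products.** If `f` is primitive and squarefree and each irreducible factor has a small tail,
so has `f`, and `f` is separable over `ℚ`. -/
theorem tailSmall_of_factors (f : ℤ[X]) (hprim : f.IsPrimitive) (hsq : Squarefree f)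
    (hfac : ∀ g : ℤ[X], Irreducible g → g ∣ f → TailSmall g) :
    TailSmall f ∧ (f.map (Int.castRingHom ℚ)).Separable := by
  obtain ⟨n, hn⟩ : ∃ n, f.natDegree ≤ n := ⟨_, le_rfl⟩
  induction n generalizing f with
  | zero =>
    have h1 : f.natDegree = 0 := by omega
    have hu : IsUnit f := isUnit_of_prim f hprim h1
    exact ⟨tailSmall_of_isUnit f hu, separable_of_unit f hu⟩
  | succ n ih =>
    by_cases hu : IsUnit f
    · exact ⟨tailSmall_of_isUnit f hu, separable_of_unit f hu⟩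
    · have hf0 : f ≠ 0 := hprim.ne_zero
      obtain ⟨g, hg, h, rfl⟩ := WfDvdMonoid.exists_irreducible_factor hu hf0
      have hgprim : g.IsPrimitive := isPrimitive_of_dvd hprim (Dvd.intro _ rfl)
      have hhprim : h.IsPrimitive := isPrimitive_of_dvd hprim (Dvd.intro_left _ rfl)
      have hgd : g.natDegree ≠ 0 := by
        intro h0
        exact hg.not_isUnit (isUnit_of_prim g hgprim h0)
      have hdeg : (g * h).natDegree = g.natDegree + h.natDegree :=
        natDegree_mul hg.ne_zero hhprim.ne_zero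
      have hhsq : Squarefree h := hsq.squarefree_of_dvd (Dvd.intro_left _ rfl)
      obtain ⟨t1, s1⟩ := ih h hhprim hhsq (fun q hq hd => hfac q hq (hd.trans (Dvd.intro_left _ rfl)))
        (by omega)
      have t2 := hfac g hg (Dvd.intro _ rfl)
      have s2 := separable_of_irreducible g hg hgd
      have girr : Irreducible (g.map (Int.castRingHom ℚ)) :=
        (hgprim.irreducible_iff_irreducible_map_fraction_map (K := ℚ)).1 hg
      have hco : IsCoprime (g.map (Int.castRingHom ℚ)) (h.map (Int.castRingHom ℚ)) := by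
        rcases EuclideanDomain.dvd_or_coprime _ (h.map (Int.castRingHom ℚ)) girr with hd | hc
        swap
        · exact hc
        · exfalso
          have hgh : g ∣ h := (IsPrimitive.Int.dvd_iff_map_cast_dvd_map_cast g h hgprim).2 hd
          exact hg.not_isUnit (hsq g (mul_dvd_mul_left g hgh))
      obtain ⟨a, b, R, hR, hab⟩ := bezout_of_isCoprime g h hco
      refine ⟨t2.mul t1 hR hab, ?_⟩
      rw [Polynomial.map_mul]
      exact s2.mul s1 hco

/-- the values are bounded by `C * N ^ deg` -/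
lemma exists_bound (f : ℤ[X]) : ∃ B : ℕ, 1 ≤ B ∧ ∀ n N : ℕ, 1 ≤ N → n ≤ N →
    (f.eval (n : ℤ)).natAbs ≤ B * N ^ f.natDegree := by
  refine ⟨(∑ i ∈ Finset.range (f.natDegree + 1), (f.coeff i).natAbs) + 1, by omega, ?_⟩
  intro n N hN hn
  rw [eval_eq_sum_range]
  calc (∑ i ∈ Finset.range (f.natDegree + 1), f.coeff i * (n : ℤ) ^ i).natAbs
      ≤ ∑ i ∈ Finset.range (f.natDegree + 1), (f.coeff i * (n : ℤ) ^ i).natAbs := by
        exact Int.natAbs_sum_le _ _
    _ ≤ ∑ i ∈ Finset.range (f.natDegree + 1), (f.coeff i).natAbs * N ^ f.natDegree := by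
        refine Finset.sum_le_sum ?_
        intro i hi
        rw [Int.natAbs_mul, Int.natAbs_pow, Int.natAbs_natCast]
        refine Nat.mul_le_mul_left _ ?_
        exact (Nat.pow_le_pow_left hn i).trans
          (Nat.pow_le_pow_right hN (by have := Finset.mem_range.1 hi; omega))
    _ = (∑ i ∈ Finset.range (f.natDegree + 1), (f.coeff i).natAbs) * N ^ f.natDegree := by
        rw [Finset.sum_mul]
    _ ≤ _ := Nat.mul_le_mul_right _ (by omega)

/-- the number of roots in `[1, N]` is at most the degree -/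
lemma card_roots_le (f : ℤ[X]) (hf : f ≠ 0) (N : ℕ) :
    ((Finset.Ioc 0 N).filter (fun n : ℕ => f.eval (n : ℤ) = 0)).card ≤ f.natDegree := by
  classical
  calc ((Finset.Ioc 0 N).filter (fun n : ℕ => f.eval (n : ℤ) = 0)).card
      = (((Finset.Ioc 0 N).filter (fun n : ℕ => f.eval (n : ℤ) = 0)).image (fun n : ℕ => (n : ℤ))).card := by
        rw [Finset.card_image_of_injective _ (fun a b h => by exact_mod_cast h)]
    _ ≤ f.roots.toFinset.card := by
        refine Finset.card_le_card ?_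
        intro x hx
        obtain ⟨n, hn, rfl⟩ := Finset.mem_image.1 hx
        rw [Multiset.mem_toFinset, mem_roots hf]
        exact (Finset.mem_filter.1 hn).2
    _ ≤ Multiset.card f.roots := Multiset.toFinset_card_le _
    _ ≤ f.natDegree := card_roots' f

/-- degree at most two: the tail is small -/
lemma tailSmall_of_natDegree_le_two (f : ℤ[X]) (hsep : (f.map (Int.castRingHom ℚ)).Separable)
    (hd : f.natDegree ≤ 2) : TailSmall f := by
  classical
  have hf0 : f ≠ 0 := by
    rintro rfl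
    rw [Polynomial.map_zero] at hsep
    exact not_separable_zero hsep
  obtain ⟨a, b, R, hR0, hab⟩ := exists_bezout f hsep
  obtain ⟨B, hB1, hB⟩ := exists_bound f
  set k := f.natDegree with hk
  -- main bound
  have main : ∀ N : ℕ, 1 ≤ N → R.natAbs ≤ N →
      (tailCount f N : ℝ) ≤ k + 2 * k * Nat.primeCounting (B * N) := by
    intro N hN hRN
    have c : tailCount f N = ((Finset.Ioc 0 N).filter (fun n : ℕ =>
        ∃ p : ℕ, p.Prime ∧ N < p ∧ (p : ℤ) ^ 2 ∣ f.eval (n : ℤ))).card := by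
      refine Nat.subtype_card _ ?_
      intro n
      simp only [Finset.mem_filter, Finset.mem_Ioc]
      constructor
      · rintro ⟨⟨h3, h4⟩, h5⟩; exact ⟨h3, h4, h5⟩
      · rintro ⟨h3, h4, h5⟩; exact ⟨⟨h3, h4⟩, h5⟩
    set P := (Finset.Ioc N (B * N)).filter Nat.Prime with hP
    have hsub : (Finset.Ioc 0 N).filter (fun n : ℕ =>
        ∃ p : ℕ, p.Prime ∧ N < p ∧ (p : ℤ) ^ 2 ∣ f.eval (n : ℤ)) ⊆
        ((Finset.Ioc 0 N).filter (fun n : ℕ => f.eval (n : ℤ) = 0)) ∪
          P.biUnion (fun p => (Finset.Ioc 0 N).filter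
            (fun n : ℕ => ((p ^ 2 : ℕ) : ℤ) ∣ f.eval (n : ℤ))) := by
      intro n hn
      obtain ⟨hn1, p, hp, hNp, hdv⟩ := Finset.mem_filter.1 hn
      by_cases h0 : f.eval (n : ℤ) = 0
      · exact Finset.mem_union_left _ (Finset.mem_filter.2 ⟨hn1, h0⟩)
      · refine Finset.mem_union_right _ (Finset.mem_biUnion.2 ⟨p, ?_, ?_⟩)
        · refine Finset.mem_filter.2 ⟨Finset.mem_Ioc.2 ⟨hNp, ?_⟩, hp⟩
          have h1 : p ^ 2 ≤ (f.eval (n : ℤ)).natAbs := by
            refine Nat.le_of_dvd (Int.natAbs_pos.2 h0) ?_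
            have := Int.natAbs_dvd_natAbs.2 hdv
            rwa [Int.natAbs_pow, Int.natAbs_natCast] at this
          have h2 := hB n N hN (Finset.mem_Ioc.1 hn1).2
          have h3 : N ^ k ≤ N ^ 2 := Nat.pow_le_pow_right hN hd
          have h4 : p ^ 2 ≤ (B * N) ^ 2 := by
            calc p ^ 2 ≤ B * N ^ k := h1.trans h2
              _ ≤ B * N ^ 2 := Nat.mul_le_mul_left _ h3
              _ ≤ B ^ 2 * N ^ 2 := Nat.mul_le_mul_right _ (by nlinarith)
              _ = (B * N) ^ 2 := by ring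
          exact (Nat.pow_le_pow_iff_left (by norm_num)).1 h4
        · refine Finset.mem_filter.2 ⟨hn1, ?_⟩
          push_cast; exact hdv
    have h1 : tailCount f N ≤ k + ∑ p ∈ P, ((Finset.Ioc 0 N).filter
        (fun n : ℕ => ((p ^ 2 : ℕ) : ℤ) ∣ f.eval (n : ℤ))).card := by
      rw [c]
      refine (Finset.card_le_card hsub).trans ?_
      refine (Finset.card_union_le _ _).trans ?_
      exact add_le_add (card_roots_le f hf0 N) Finset.card_biUnion_le
    have h2 : ∀ p ∈ P, (((Finset.Ioc 0 N).filter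
        (fun n : ℕ => ((p ^ 2 : ℕ) : ℤ) ∣ f.eval (n : ℤ))).card : ℝ) ≤ 2 * k := by
      intro p hp
      have hp' := Finset.mem_filter.1 hp
      have hp2 := Finset.mem_Ioc.1 hp'.1
      have h3 := count_le f (p ^ 2) (pow_pos hp'.2.pos 2) N
      have h4 : Nat.card {n : ℕ // 1 ≤ n ∧ n ≤ N ∧ ((p ^ 2 : ℕ) : ℤ) ∣ f.eval (n : ℤ)} =
          ((Finset.Ioc 0 N).filter (fun n : ℕ => ((p ^ 2 : ℕ) : ℤ) ∣ f.eval (n : ℤ))).card := by
        refine Nat.subtype_card _ ?_
        intro n
        simp only [Finset.mem_filter, Finset.mem_Ioc]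
        constructor
        · rintro ⟨⟨h3, h4⟩, h5⟩; exact ⟨h3, h4, h5⟩
        · rintro ⟨h3, h4, h5⟩; exact ⟨⟨h3, h4⟩, h5⟩
      rw [h4] at h3
      refine h3.trans ?_
      have h5 : (rho f (p ^ 2) : ℝ) ≤ k := by
        have := rho_sq_le f a b R hab p hp'.2 (by
          intro hdv
          have h1 : p ∣ R.natAbs := Int.natCast_dvd.1 hdv
          have h2 := Nat.le_of_dvd (Int.natAbs_pos.2 hR0) h1
          omega)
        exact_mod_cast this
      have h6 : (N : ℝ) / ((p ^ 2 : ℕ) : ℝ) ≤ 1 := by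
        have hpos : (0 : ℝ) < ((p ^ 2 : ℕ) : ℝ) := by exact_mod_cast pow_pos hp'.2.pos 2
        rw [div_le_one hpos]
        have : N ≤ p ^ 2 := by nlinarith [hp2.1, hp'.2.one_lt]
        exact_mod_cast this
      have h7 : (0 : ℝ) ≤ (N : ℝ) / ((p ^ 2 : ℕ) : ℝ) + 1 := by positivity
      calc (rho f (p ^ 2) : ℝ) * ((N : ℝ) / ((p ^ 2 : ℕ) : ℝ) + 1)
          ≤ k * ((N : ℝ) / ((p ^ 2 : ℕ) : ℝ) + 1) := mul_le_mul_of_nonneg_right h5 h7
        _ ≤ k * (1 + 1) := by
            refine mul_le_mul_of_nonneg_left ?_ (by positivity)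
            linarith
        _ = 2 * k := by ring
    have h3 := Finset.sum_le_card_nsmul P _ _ h2
    rw [nsmul_eq_mul] at h3
    have h8 : P.card ≤ Nat.primeCounting (B * N) := by
      rw [Nat.primeCounting, Nat.primeCounting', Nat.count_eq_card_filter_range]
      refine Finset.card_le_card ?_
      intro p hp
      have hp' := Finset.mem_filter.1 hp
      have hp2 := Finset.mem_Ioc.1 hp'.1
      exact Finset.mem_filter.2 ⟨Finset.mem_range.2 (by omega), hp'.2⟩
    have h8' : (P.card : ℝ) ≤ Nat.primeCounting (B * N) := by exact_mod_cast h8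
    have h1' : (tailCount f N : ℝ) ≤ k + ∑ p ∈ P, (((Finset.Ioc 0 N).filter
        (fun n : ℕ => ((p ^ 2 : ℕ) : ℤ) ∣ f.eval (n : ℤ))).card : ℝ) := by exact_mod_cast h1
    calc (tailCount f N : ℝ) ≤ k + ∑ p ∈ P, (((Finset.Ioc 0 N).filter
        (fun n : ℕ => ((p ^ 2 : ℕ) : ℤ) ∣ f.eval (n : ℤ))).card : ℝ) := h1'
      _ ≤ k + P.card * (2 * k) := by linarith
      _ ≤ k + Nat.primeCounting (B * N) * (2 * k) := by
          have : (0 : ℝ) ≤ 2 * k := by positivity
          nlinarith
      _ = _ := by ring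
  have hlim : Tendsto (fun N : ℕ => (k : ℝ) / N +
      2 * k * B * ((Nat.primeCounting (B * N) : ℝ) / ((B * N : ℕ) : ℝ))) atTop (𝓝 0) := by
    have h1 : Tendsto (fun N : ℕ => (k : ℝ) / (N : ℝ)) atTop (𝓝 0) :=
      tendsto_const_div_atTop_nhds_zero_nat (k : ℝ)
    have h2 : Tendsto (fun N : ℕ => B * N) atTop atTop :=
      tendsto_id.const_mul_atTop' (by omega)
    have h3 := (pi_div_tendsto.comp h2).const_mul (2 * (k : ℝ) * B)
    simpa using h1.add h3
  refine squeeze_zero' (Eventually.of_forall (fun N => by positivity)) ?_ hlim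
  filter_upwards [eventually_ge_atTop (max 1 R.natAbs)] with N hN
  have hN1 : 1 ≤ N := (le_max_left _ _).trans hN
  have hN0 : (0 : ℝ) < N := by exact_mod_cast hN1
  have hB0 : (0 : ℝ) < B := by exact_mod_cast hB1
  have h1 := main N hN1 ((le_max_right _ _).trans hN)
  have h2 := div_le_div_of_nonneg_right h1 hN0.le
  refine h2.trans (le_of_eq ?_)
  push_cast
  field_simp

/-- **Density.** For a primitive squarefree `f` all of whose irreducible factors of degree at least
three have a small tail, the density of `n` with `f n / d` squarefree is the Euler product. -/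
theorem density_of_factors (f : ℤ[X]) (hprim : f.IsPrimitive) (hsq : Squarefree f)
    (hfac : ∀ g : ℤ[X], Irreducible g → g ∣ f → 3 ≤ g.natDegree → TailSmall g) (δ : ℕ)
    (hδ : ∀ n : ℤ, (∀ v : ℤ, n ∣ f.eval v) ↔ n ∣ (δ : ℤ)) :
    Tendsto (fun N : ℕ => (goodCount f δ N : ℝ) / N) atTop
      (𝓝 (∏' p : Nat.Primes, loc f δ p)) := by
  obtain ⟨h1, h2⟩ := tailSmall_of_factors f hprim hsq (by
    intro g hg hd
    by_cases h : 3 ≤ g.natDegree
    · exact hfac g hg hd h
    · have hgprim : g.IsPrimitive := isPrimitive_of_dvd hprim hd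
      have hgd : g.natDegree ≠ 0 := by
        intro h0
        exact hg.not_isUnit (isUnit_of_prim g hgprim h0)
      exact tailSmall_of_natDegree_le_two g (separable_of_irreducible g hg hgd) (by omega))
  exact density_of_tail f h2 δ hδ h1

end Pool.Agent.SQF4
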