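import Mathlib

/-!
# Slices: every integer vector of size `A` in `ℤ⁴` is orthogonal to one of `≪ A^(8/3)` pairs

`exists_slice`: for `α ≠ 0` in `ℤ⁴` with entries at most `A` there are linearly independent
`a, b` orthogonal to `α` with `|a|³ ≤ 4 A`, `|a| |b|² ≤ 4 A` (sup norms).
`slices`: a finite set of at most `C A^(8/3)` such pairs.
-/

set_option autoImplicit false

open Finset Matrix

namespace Pool.Agent.SQF4

/-- sup norm of an integer vector -/
def sn (a : Fin 4 → ℤ) : ℕ := Finset.univ.sup fun i => (a i).natAbs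

lemma le_sn (a : Fin 4 → ℤ) (i : Fin 4) : (a i).natAbs ≤ sn a :=
  Finset.le_sup (f := fun i => (a i).natAbs) (Finset.mem_univ i)

lemma sn_le_iff (a : Fin 4 → ℤ) (m : ℕ) : sn a ≤ m ↔ ∀ i, (a i).natAbs ≤ m := by
  unfold sn
  rw [Finset.sup_le_iff]
  simp

lemma exists_eq_sn (a : Fin 4 → ℤ) : ∃ i, (a i).natAbs = sn a := by
  obtain ⟨i, _, hi⟩ := Finset.exists_mem_eq_sup Finset.univ ⟨0, Finset.mem_univ _⟩
    (fun i => (a i).natAbs)
  exact ⟨i, hi.symm⟩

lemma sn_pos (a : Fin 4 → ℤ) (h : a ≠ 0) : 0 < sn a := by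
  by_contra h0
  apply h
  funext i
  have := le_sn a i
  simp only [Pi.zero_apply]
  omega

/-- a pigeonhole: a box with more points than values contains a coincidence -/
lemma coincidence (α : Fin 4 → ℤ) (A : ℕ) (hα : ∀ i, (α i).natAbs ≤ A) (l : Fin 4 → ℕ) (T : ℕ)
    (hl : ∀ i, 1 ≤ l i ∧ l i ≤ T) (hcard : 4 * A * T < ∏ i, l i) (hT : 1 ≤ A) :
    ∃ x : Fin 4 → ℤ, x ≠ 0 ∧ x ⬝ᵥ α = 0 ∧ ∀ i, (x i).natAbs < l i := by
  classical
  set B : Finset (Fin 4 → ℤ) := Fintype.piFinset (fun i => Finset.Ico (0 : ℤ) (l i)) with hB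
  have hBc : B.card = ∏ i, l i := by
    rw [hB, Fintype.card_piFinset]
    refine Finset.prod_congr rfl ?_
    intro i _
    simp
  set lo : ℤ := ∑ i, min 0 (α i) * (l i - 1 : ℤ) with hlo
  set hi' : ℤ := ∑ i, max 0 (α i) * (l i - 1 : ℤ) with hhi
  set V : Finset ℤ := Finset.Icc lo hi' with hV
  have hmap : ∀ x ∈ B, x ⬝ᵥ α ∈ V := by
    intro x hx
    have hx' : ∀ i, 0 ≤ x i ∧ x i ≤ (l i : ℤ) - 1 := by
      intro i
      have := Fintype.mem_piFinset.1 hx i
      rw [Finset.mem_Ico] at this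
      omega
    rw [hV, Finset.mem_Icc, hlo, hhi, dotProduct]
    constructor
    · refine Finset.sum_le_sum ?_
      intro i _
      obtain ⟨h1, h2⟩ := hx' i
      rcases le_total 0 (α i) with h3 | h3
      · rw [min_eq_left h3, zero_mul]; positivity
      · rw [min_eq_right h3]; nlinarith
    · refine Finset.sum_le_sum ?_
      intro i _
      obtain ⟨h1, h2⟩ := hx' i
      rcases le_total 0 (α i) with h3 | h3
      · rw [max_eq_right h3]; nlinarith
      · rw [max_eq_left h3, zero_mul]; nlinarith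
  have hVc : (V.card : ℤ) ≤ 4 * A * T := by
    rw [hV, Int.card_Icc]
    have h1 : hi' - lo = ∑ i, |α i| * ((l i : ℤ) - 1) := by
      rw [hlo, hhi, ← Finset.sum_sub_distrib]
      refine Finset.sum_congr rfl ?_
      intro i _
      rcases le_total 0 (α i) with h3 | h3
      · rw [max_eq_right h3, min_eq_left h3, abs_of_nonneg h3]; ring
      · rw [max_eq_left h3, min_eq_right h3, abs_of_nonpos h3]; ring
    have h2 : ∑ i, |α i| * ((l i : ℤ) - 1) ≤ ∑ _i : Fin 4, (A : ℤ) * (T - 1) := by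
      refine Finset.sum_le_sum ?_
      intro i _
      have h3 := hα i
      have h4 : |α i| ≤ A := by rw [Int.abs_eq_natAbs]; exact_mod_cast h3
      have h5 := (hl i).1
      have h6 : (l i : ℤ) ≤ T := by exact_mod_cast (hl i).2
      have h7 : (0 : ℤ) ≤ (l i : ℤ) - 1 := by have : (1 : ℤ) ≤ l i := by exact_mod_cast h5
                                              omega
      exact mul_le_mul h4 (by omega) h7 (by positivity)
    rw [Finset.sum_const, Finset.card_univ, Fintype.card_fin] at h2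
    have hA : (1 : ℤ) ≤ A := by exact_mod_cast hT
    have h8 : (0 : ℤ) ≤ ∑ i, |α i| * ((l i : ℤ) - 1) := by
      refine Finset.sum_nonneg ?_
      intro i _
      have h5 : (1 : ℤ) ≤ l i := by exact_mod_cast (hl i).1
      have : (0 : ℤ) ≤ (l i : ℤ) - 1 := by omega
      positivity
    rw [Int.toNat_of_nonneg (by omega)]
    have h9 : hi' + 1 - lo = (hi' - lo) + 1 := by ring
    rw [h9, h1]
    have : (4 : ℕ) • ((A : ℤ) * (T - 1)) = 4 * A * T - 4 * A := by
      rw [nsmul_eq_mul]; push_cast; ring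
    rw [this] at h2
    omega
  have hlt : V.card < B.card := by
    rw [hBc]
    have : V.card ≤ 4 * A * T := by exact_mod_cast hVc
    omega
  obtain ⟨x, hx, y, hy, hxy, hval⟩ := Finset.exists_ne_map_eq_of_card_lt_of_maps_to hlt hmap
  refine ⟨x - y, sub_ne_zero.2 hxy, ?_, ?_⟩
  · rw [sub_dotProduct, hval, sub_self]
  · intro i
    have h1 := Finset.mem_Ico.1 (Fintype.mem_piFinset.1 hx i)
    have h2 := Finset.mem_Ico.1 (Fintype.mem_piFinset.1 hy i)
    have : (x - y) i = x i - y i := rfl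
    rw [this]
    omega

/-- **The slice of a vector.** -/
theorem exists_slice (A : ℕ) (hA : 1 ≤ A) (α : Fin 4 → ℤ)
    (hα : ∀ i, (α i).natAbs ≤ A) :
    ∃ a b : Fin 4 → ℤ, a ⬝ᵥ α = 0 ∧ b ⬝ᵥ α = 0 ∧ a ≠ 0 ∧ b ≠ 0 ∧
      (∀ u v : ℤ, u • a + v • b = 0 → u = 0 ∧ v = 0) ∧
      sn a ^ 3 ≤ 4 * A ∧ sn a * sn b ^ 2 ≤ 4 * A := by
  classical
  -- minimal vector
  have hex : ∃ s, ∃ x : Fin 4 → ℤ, x ≠ 0 ∧ x ⬝ᵥ α = 0 ∧ sn x = s := by
    obtain ⟨x, h1, h2, _⟩ := coincidence α A hα (fun _ => 4 * A + 1) (4 * A + 1)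
      (fun _ => ⟨by omega, le_refl _⟩) (by
        rw [Finset.prod_const, Finset.card_univ, Fintype.card_fin]
        have : 1 ≤ (4 * A + 1) ^ 2 := Nat.one_le_pow _ _ (by omega)
        nlinarith [Nat.one_le_pow 2 (4 * A + 1) (by omega)]) hA
    exact ⟨_, x, h1, h2, rfl⟩
  set S := Nat.find hex with hS
  obtain ⟨a, ha0, haα, haS⟩ := Nat.find_spec hex
  rw [← hS] at haS
  have hmin : ∀ x : Fin 4 → ℤ, x ≠ 0 → x ⬝ᵥ α = 0 → S ≤ sn x :=
    fun x h1 h2 => Nat.find_min' hex ⟨x, h1, h2, rfl⟩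
  have hS1 : 1 ≤ S := by rw [← haS]; exact sn_pos a ha0
  have hS3 : S ^ 3 ≤ 4 * A := by
    by_contra hcon
    push Not at hcon
    obtain ⟨x, h1, h2, h3⟩ := coincidence α A hα (fun _ => S) S (fun _ => ⟨hS1, le_refl _⟩) (by
      rw [Finset.prod_const, Finset.card_univ, Fintype.card_fin]
      have : S ^ 4 = S ^ 3 * S := by ring
      rw [this]
      exact Nat.mul_lt_mul_of_pos_right hcon hS1) hA
    have h4 := hmin x h1 h2
    obtain ⟨i, hi⟩ := exists_eq_sn x
    have := h3 i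
    omega
  -- the second vector
  obtain ⟨i0, hi0⟩ := exists_eq_sn a
  set T := Nat.sqrt (4 * A / S) with hT
  have hT1 : S * T ^ 2 ≤ 4 * A := by
    have h1 : T * T ≤ 4 * A / S := Nat.sqrt_le _
    have h2 : S * (4 * A / S) ≤ 4 * A := Nat.mul_div_le _ _
    calc S * T ^ 2 = S * (T * T) := by ring
      _ ≤ S * (4 * A / S) := Nat.mul_le_mul_left _ h1
      _ ≤ 4 * A := h2
  have hT2 : 4 * A < S * (T + 1) ^ 2 := by
    have h1 : 4 * A / S < (T + 1) * (T + 1) := Nat.lt_succ_sqrt _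
    have h2 := (Nat.div_lt_iff_lt_mul (by omega : 0 < S)).1 h1
    calc 4 * A < (T + 1) * (T + 1) * S := h2
      _ = S * (T + 1) ^ 2 := by ring
  have hST : S ≤ T := by
    rw [hT, Nat.le_sqrt, Nat.le_div_iff_mul_le (by omega)]
    calc S * S * S = S ^ 3 := by ring
      _ ≤ 4 * A := hS3
  obtain ⟨b, hb0, hbα, hbl⟩ := coincidence α A hα (fun i => if i = i0 then S else T + 1) (T + 1)
    (by
      intro i
      by_cases h : i = i0
      · rw [if_pos h]; exact ⟨hS1, by omega⟩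
      · rw [if_neg h]; exact ⟨by omega, le_refl _⟩)
    (by
      have h1 : ∏ i, (if i = i0 then S else T + 1) = S * (T + 1) ^ 3 := by
        rw [Finset.prod_ite, Finset.prod_const, Finset.prod_const]
        have h2 : (Finset.univ.filter (fun i : Fin 4 => i = i0)).card = 1 := by
          rw [Finset.filter_eq' Finset.univ i0, if_pos (Finset.mem_univ _), Finset.card_singleton]
        have h3 : (Finset.univ.filter (fun i : Fin 4 => ¬ i = i0)).card = 3 := by
          have h4 := Finset.card_filter_add_card_filter_not (s := (Finset.univ : Finset (Fin 4)))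
            (fun i => i = i0)
          rw [h2, Finset.card_univ, Fintype.card_fin] at h4
          omega
        rw [h2, h3, pow_one]
      rw [h1]
      have : S * (T + 1) ^ 3 = S * (T + 1) ^ 2 * (T + 1) := by ring
      rw [this]
      exact Nat.mul_lt_mul_of_pos_right hT2 (by omega)) hA
  have hb_i0 : (b i0).natAbs < S := by
    have := hbl i0
    rwa [if_pos rfl] at this
  have hbT : sn b ≤ T := by
    rw [sn_le_iff]
    intro i
    have h1 := hbl i
    by_cases h : i = i0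
    · rw [if_pos h] at h1; omega
    · rw [if_neg h] at h1; omega
  refine ⟨a, b, haα, hbα, ha0, hb0, ?_, by rw [haS]; exact hS3, ?_⟩
  · intro u v huv
    -- no nontrivial relation
    by_cases hv : v = 0
    · subst hv
      rw [zero_smul, add_zero] at huv
      rcases smul_eq_zero.1 huv with h | h
      · exact ⟨h, rfl⟩
      · exact absurd h ha0
    · exfalso
      -- `v b = - u a`, so `b` is the multiple `-u/v` of `a`; subtract the nearest multiple
      have hu : u ≠ 0 := by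
        rintro rfl
        rw [zero_smul, zero_add] at huv
        rcases smul_eq_zero.1 huv with h | h
        · exact hv h
        · exact hb0 h
      have hrel : ∀ i, u * a i + v * b i = 0 := fun i => congrFun huv i
      have hlt : |u| < |v| := by
        have h1 : |u| * (S : ℤ) = |v| * ((b i0).natAbs : ℤ) := by
          have h2 := hrel i0
          have h3 : |u * a i0| = |v * b i0| := by
            have : u * a i0 = -(v * b i0) := by omega
            rw [this, abs_neg]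
          rw [abs_mul, abs_mul, Int.abs_eq_natAbs (a i0), Int.abs_eq_natAbs (b i0), hi0, haS] at h3
          exact h3
        have h4 : ((b i0).natAbs : ℤ) < S := by exact_mod_cast hb_i0
        have h5 : 0 < |v| := abs_pos.2 hv
        have hS0 : (0 : ℤ) < S := by exact_mod_cast hS1
        by_contra hcon
        push Not at hcon
        have h6 : |v| * (S : ℤ) ≤ |u| * S := mul_le_mul_of_nonneg_right hcon hS0.le
        have h7 : |v| * ((b i0).natAbs : ℤ) < |v| * S := mul_lt_mul_of_pos_left h4 h5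
        omega
      -- then `sn b < sn a`
      have hsb : sn b < S := by
        obtain ⟨i, hi⟩ := exists_eq_sn b
        rw [← hi]
        have h1 : |u| * ((a i).natAbs : ℤ) = |v| * ((b i).natAbs : ℤ) := by
          have h2 := hrel i
          have h3 : |u * a i| = |v * b i| := by
            have : u * a i = -(v * b i) := by omega
            rw [this, abs_neg]
          rwa [abs_mul, abs_mul, Int.abs_eq_natAbs (a i), Int.abs_eq_natAbs (b i)] at h3
        have h4 : ((a i).natAbs : ℤ) ≤ S := by rw [← haS]; exact_mod_cast le_sn a i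
        have h5 : 0 < |v| := abs_pos.2 hv
        have hS0 : (0 : ℤ) < S := by exact_mod_cast hS1
        by_contra hcon
        push Not at hcon
        have h6 : (S : ℤ) ≤ (b i).natAbs := by exact_mod_cast hcon
        have h7 : |v| * (S : ℤ) ≤ |v| * ((b i).natAbs : ℤ) := mul_le_mul_of_nonneg_left h6 h5.le
        have h8 : |u| * ((a i).natAbs : ℤ) ≤ |u| * S :=
          mul_le_mul_of_nonneg_left h4 (abs_nonneg u)
        have h9 : |u| * (S : ℤ) < |v| * S := mul_lt_mul_of_pos_right hlt hS0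
        omega
      have := hmin b hb0 hbα
      omega
  · rw [haS]
    exact (Nat.mul_le_mul_left _ (Nat.pow_le_pow_left hbT 2)).trans hT1

/-- the box of vectors of sup norm at most `m` -/
noncomputable def box (m : ℕ) : Finset (Fin 4 → ℤ) := Fintype.piFinset (fun _ => Finset.Icc (-(m : ℤ)) m)

lemma mem_box (m : ℕ) (x : Fin 4 → ℤ) : x ∈ box m ↔ sn x ≤ m := by
  unfold box
  rw [Fintype.mem_piFinset, sn_le_iff]
  refine forall_congr' ?_
  intro i
  rw [Finset.mem_Icc]
  omega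

lemma card_box (m : ℕ) : (box m).card = (2 * m + 1) ^ 4 := by
  unfold box
  rw [Fintype.card_piFinset, Finset.prod_const, Finset.card_univ, Fintype.card_fin, Int.card_Icc]
  congr 1
  omega

lemma card_sphere (s : ℕ) (hs : 1 ≤ s) :
    ((box s).filter (fun x => sn x = s)).card ≤ 80 * s ^ 3 := by
  classical
  have h1 : (box s).filter (fun x => sn x = s) = box s \ box (s - 1) := by
    ext x
    rw [Finset.mem_filter, Finset.mem_sdiff, mem_box, mem_box]
    omega
  have h2 : box (s - 1) ⊆ box s := by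
    intro x hx
    rw [mem_box] at hx ⊢
    omega
  rw [h1, Finset.card_sdiff_of_subset h2, card_box, card_box]
  obtain ⟨k, rfl⟩ : ∃ k, s = k + 1 := ⟨s - 1, by omega⟩
  simp only [Nat.add_sub_cancel]
  rw [Nat.sub_le_iff_le_add]
  nlinarith [Nat.zero_le k, sq_nonneg (k : ℤ)]

open Classical in
/-- the set of all pairs which can occur as slices -/
noncomputable def slicePairs (A : ℕ) : Finset ((Fin 4 → ℤ) × (Fin 4 → ℤ)) :=
  ((box (4 * A)) ×ˢ (box (4 * A))).filter (fun p =>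
    p.1 ≠ 0 ∧ p.2 ≠ 0 ∧ (∀ u v : ℤ, u • p.1 + v • p.2 = 0 → u = 0 ∧ v = 0) ∧
      sn p.1 ^ 3 ≤ 4 * A ∧ sn p.1 * sn p.2 ^ 2 ≤ 4 * A)

theorem card_slicePairs (A : ℕ) (hA : 1 ≤ A) :
    (slicePairs A).card ^ 3 ≤ 103680 ^ 3 * 16 * A ^ 8 := by
  classical
  obtain ⟨S0, hS0, hS0'⟩ : ∃ S0 : ℕ, S0 ^ 3 ≤ 4 * A ∧ ∀ s, s ^ 3 ≤ 4 * A → s ≤ S0 := by
    have hex : ∃ m : ℕ, m ^ 3 ≤ 4 * A := ⟨0, by simp⟩
    have hb : ∀ m : ℕ, m ^ 3 ≤ 4 * A → m ≤ 4 * A := by
      intro m hm
      rcases Nat.eq_zero_or_pos m with h | h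
      · omega
      · have : m ≤ m ^ 3 := Nat.le_self_pow (by norm_num) m
        omega
    refine ⟨Nat.findGreatest (fun m => m ^ 3 ≤ 4 * A) (4 * A), ?_, ?_⟩
    · exact Nat.findGreatest_spec (P := fun m => m ^ 3 ≤ 4 * A) (Nat.zero_le _) (by simp)
    · intro s hs
      exact Nat.le_findGreatest (hb s hs) hs
  have hsub : slicePairs A ⊆ (Finset.Icc 1 S0).biUnion (fun s =>
      ((box s).filter (fun x => sn x = s)) ×ˢ (box (Nat.sqrt (4 * A / s)))) := by
    intro p hp
    unfold slicePairs at hp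
    obtain ⟨_, h1, _, _, h4, h5⟩ := Finset.mem_filter.1 hp
    rw [Finset.mem_biUnion]
    have hpos := sn_pos p.1 h1
    refine ⟨sn p.1, Finset.mem_Icc.2 ⟨hpos, hS0' _ h4⟩, ?_⟩
    rw [Finset.mem_product]
    refine ⟨Finset.mem_filter.2 ⟨(mem_box _ _).2 (le_refl _), rfl⟩, ?_⟩
    rw [mem_box, Nat.le_sqrt, Nat.le_div_iff_mul_le hpos]
    calc sn p.2 * sn p.2 * sn p.1 = sn p.1 * sn p.2 ^ 2 := by ring
      _ ≤ 4 * A := h5
  have h1 : (slicePairs A).card ≤ ∑ s ∈ Finset.Icc 1 S0, 103680 * A ^ 2 * s := by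
    refine (Finset.card_le_card hsub).trans (Finset.card_biUnion_le.trans ?_)
    refine Finset.sum_le_sum ?_
    intro s hs
    obtain ⟨hs1, hs2⟩ := Finset.mem_Icc.1 hs
    rw [Finset.card_product, card_box]
    have h2 := card_sphere s hs1
    set T := Nat.sqrt (4 * A / s) with hT
    have h3 : s * T ^ 2 ≤ 4 * A := by
      have h1 : T * T ≤ 4 * A / s := Nat.sqrt_le _
      have h2 : s * (4 * A / s) ≤ 4 * A := Nat.mul_div_le _ _
      calc s * T ^ 2 = s * (T * T) := by ring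
        _ ≤ s * (4 * A / s) := Nat.mul_le_mul_left _ h1
        _ ≤ 4 * A := h2
    have h4 : 1 ≤ T := by
      rw [hT, Nat.le_sqrt, Nat.le_div_iff_mul_le (by omega)]
      have : s ≤ s ^ 3 := Nat.le_self_pow (by norm_num) s
      have h5 : s ^ 3 ≤ S0 ^ 3 := Nat.pow_le_pow_left hs2 3
      omega
    have h5 : (2 * T + 1) ^ 4 ≤ 81 * T ^ 4 := by
      have : 2 * T + 1 ≤ 3 * T := by omega
      calc (2 * T + 1) ^ 4 ≤ (3 * T) ^ 4 := Nat.pow_le_pow_left this 4
        _ = 81 * T ^ 4 := by ring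
    have h6 : s ^ 2 * T ^ 4 ≤ 16 * A ^ 2 := by
      calc s ^ 2 * T ^ 4 = (s * T ^ 2) ^ 2 := by ring
        _ ≤ (4 * A) ^ 2 := Nat.pow_le_pow_left h3 2
        _ = 16 * A ^ 2 := by ring
    calc ((box s).filter (fun x => sn x = s)).card * (2 * T + 1) ^ 4 ≤
        (80 * s ^ 3) * (81 * T ^ 4) := Nat.mul_le_mul h2 h5
      _ = 6480 * s * (s ^ 2 * T ^ 4) := by ring
      _ ≤ 6480 * s * (16 * A ^ 2) := Nat.mul_le_mul_left _ h6
      _ = 103680 * A ^ 2 * s := by ring
  have h2 : ∑ s ∈ Finset.Icc 1 S0, 103680 * A ^ 2 * s ≤ 103680 * A ^ 2 * S0 ^ 2 := by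
    rw [← Finset.mul_sum]
    refine Nat.mul_le_mul_left _ ?_
    calc ∑ s ∈ Finset.Icc 1 S0, s ≤ ∑ _s ∈ Finset.Icc 1 S0, S0 :=
          Finset.sum_le_sum (fun s hs => (Finset.mem_Icc.1 hs).2)
      _ = S0 ^ 2 := by rw [Finset.sum_const, Nat.card_Icc, smul_eq_mul]; simp [pow_two]
  calc (slicePairs A).card ^ 3 ≤ (103680 * A ^ 2 * S0 ^ 2) ^ 3 :=
        Nat.pow_le_pow_left (h1.trans h2) 3
    _ = 103680 ^ 3 * A ^ 6 * (S0 ^ 3) ^ 2 := by ring
    _ ≤ 103680 ^ 3 * A ^ 6 * (4 * A) ^ 2 :=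
        Nat.mul_le_mul_left _ (Nat.pow_le_pow_left hS0 2)
    _ = 103680 ^ 3 * 16 * A ^ 8 := by ring

/-- every nonzero vector with entries at most `A` lies in a slice -/
theorem mem_slicePairs (A : ℕ) (hA : 1 ≤ A) (α : Fin 4 → ℤ) (hα : ∀ i, (α i).natAbs ≤ A) :
    ∃ p ∈ slicePairs A, p.1 ⬝ᵥ α = 0 ∧ p.2 ⬝ᵥ α = 0 := by
  classical
  obtain ⟨a, b, h1, h2, h3, h4, h5, h6, h7⟩ := exists_slice A hA α hα
  refine ⟨(a, b), ?_, h1, h2⟩
  unfold slicePairs
  rw [Finset.mem_filter, Finset.mem_product, mem_box, mem_box]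
  have ha := sn_pos a h3
  have hb := sn_pos b h4
  refine ⟨⟨?_, ?_⟩, h3, h4, h5, h6, h7⟩
  · have : sn a ≤ sn a ^ 3 := Nat.le_self_pow (by norm_num) _
    simp only
    omega
  · have h8 : sn b ≤ sn b ^ 2 := Nat.le_self_pow (by norm_num) _
    have h9 : sn b ^ 2 ≤ sn a * sn b ^ 2 := Nat.le_mul_of_pos_left _ ha
    simp only
    omega

/-- real form of the count -/
theorem card_slicePairs_real (A : ℕ) (hA : 1 ≤ A) :
    ((slicePairs A).card : ℝ) ≤ 103680 * 3 * (A : ℝ) ^ ((8 : ℝ) / 3) := by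
  have h := card_slicePairs A hA
  have hA0 : (0 : ℝ) ≤ A := Nat.cast_nonneg _
  have h1 : ((slicePairs A).card : ℝ) ^ 3 ≤ (103680 * 3 * (A : ℝ) ^ ((8 : ℝ) / 3)) ^ 3 := by
    have h2 : ((A : ℝ) ^ ((8 : ℝ) / 3)) ^ 3 = (A : ℝ) ^ 8 := by
      rw [← Real.rpow_natCast, ← Real.rpow_mul hA0, ← Real.rpow_natCast]
      norm_num
    rw [mul_pow, h2]
    have h3 : (((slicePairs A).card : ℝ)) ^ 3 ≤ 103680 ^ 3 * 16 * (A : ℝ) ^ 8 := by
      exact_mod_cast h
    have h4 : (0 : ℝ) ≤ (A : ℝ) ^ 8 := by positivity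
    nlinarith
  exact le_of_pow_le_pow_left₀ (by norm_num) (by positivity) h1

end Pool.Agent.SQF4
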