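import Pool.Agent.Lib.SQF4.Thue

/-!
# Sections: `A(u,v) ∣ B(u,v)` for coprime binary forms
-/

set_option autoImplicit false

open Polynomial

namespace Pool.Agent.SQF4

lemma hf_add (P Q : ℤ[X]) (k : ℕ) (u v : ℤ) : hf (P + Q) k u v = hf P k u v + hf Q k u v := by
  unfold hf
  rw [← Finset.sum_add_distrib]
  refine Finset.sum_congr rfl ?_
  intro i _
  rw [coeff_add]; ring

lemma hf_C (r : ℤ) (k : ℕ) (u v : ℤ) : hf (C r) k u v = r * v ^ k := by
  unfold hf
  rw [Finset.sum_eq_single 0]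
  · simp
  · intro i _ hi
    rw [coeff_C, if_neg hi]; simp
  · intro h; exact absurd (Finset.mem_range.2 (Nat.succ_pos k)) h

lemma hf_reflect (P : ℤ[X]) (k : ℕ) (u v : ℤ) : hf (P.reflect k) k u v = hf P k v u := by
  unfold hf
  rw [← Finset.sum_range_reflect]
  refine Finset.sum_congr rfl ?_
  intro i hi
  have hi' := Finset.mem_range.1 hi
  rw [coeff_reflect, show k + 1 - 1 - i = k - i by omega, revAt_le (by omega),
    show k - (k - i) = i by omega]
  ring

/-- the Bezout relation in homogeneous form -/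
lemma hf_bezout (A B p q : ℤ[X]) (r : ℤ) (h : A * p + B * q = C r) (e : ℕ) (hA : A.natDegree ≤ e)
    (hB : B.natDegree ≤ e) (hp : p.natDegree ≤ e) (hq : q.natDegree ≤ e) (u v : ℤ) :
    hf A e u v * hf p e u v + hf B e u v * hf q e u v = r * v ^ (e + e) := by
  rw [← hf_mul A p e e hA hp, ← hf_mul B q e e hB hq, ← hf_add, h, hf_C]

lemma det_bound (n : ℕ) (M : Matrix (Fin n) (Fin n) ℤ) (T : ℝ)
    (hM : ∀ i j, |(M i j : ℝ)| ≤ T) : |(M.det : ℝ)| ≤ (n.factorial : ℝ) * T ^ n := by
  rw [Matrix.det_apply]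
  push_cast
  refine (Finset.abs_sum_le_sum_abs _ _).trans ?_
  refine (Finset.sum_le_card_nsmul _ _ (T ^ n) ?_).trans ?_
  · intro σ _
    have h1 : |((Equiv.Perm.sign σ • ∏ i, M (σ i) i : ℤ) : ℝ)| = ∏ i, |(M (σ i) i : ℝ)| := by
      rw [Units.smul_def, smul_eq_mul]
      push_cast
      rw [abs_mul, Finset.abs_prod]
      have : |(((Equiv.Perm.sign σ : ℤˣ) : ℤ) : ℝ)| = 1 := by
        rcases Int.units_eq_one_or (Equiv.Perm.sign σ) with h | h <;> rw [h] <;> simp
      rw [this, one_mul]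
    have h1' := h1
    push_cast at h1'
    rw [h1']
    calc ∏ i, |(M (σ i) i : ℝ)| ≤ ∏ _i : Fin n, T :=
          Finset.prod_le_prod (fun _ _ => abs_nonneg _) (fun i _ => hM _ _)
      _ = T ^ n := by simp
  · rw [nsmul_eq_mul, Finset.card_univ, Fintype.card_perm, Fintype.card_fin]

/-- integral Bezout relation with a bounded constant -/
lemma bezout_bound (e : ℕ) (A B : ℤ[X]) (T : ℝ) (hT : 1 ≤ T) (hA : A.natDegree ≤ e)
    (hB : B.natDegree ≤ e) (hco : IsCoprime (A.map (Int.castRingHom ℚ)) (B.map (Int.castRingHom ℚ)))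
    (hcA : ∀ i, |(A.coeff i : ℝ)| ≤ T) (hcB : ∀ i, |(B.coeff i : ℝ)| ≤ T)
    (hpos : 0 < A.natDegree + B.natDegree) :
    ∃ (p q : ℤ[X]) (r : ℤ), r ≠ 0 ∧ p.natDegree ≤ e ∧ q.natDegree ≤ e ∧ A * p + B * q = C r ∧
      |(r : ℝ)| ≤ ((2 * e).factorial : ℝ) * T ^ (2 * e) := by
  classical
  have hinj : Function.Injective (Int.castRingHom ℚ) := RingHom.injective_int _
  set m := A.natDegree with hm
  set n := B.natDegree with hn
  have hr0 : A.resultant B m n ≠ 0 := by
    intro h0
    have h1 := resultant_ne_zero (A.map (Int.castRingHom ℚ)) (B.map (Int.castRingHom ℚ)) hco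
    apply h1
    rw [natDegree_map_eq_of_injective hinj, natDegree_map_eq_of_injective hinj, resultant_map_map,
      ← hm, ← hn, h0, map_zero]
  have hbound : |((A.resultant B m n : ℤ) : ℝ)| ≤ ((2 * e).factorial : ℝ) * T ^ (2 * e) := by
    have h2 := det_bound (m + n) (sylvester A B m n) T (by
      intro i j
      unfold sylvester
      rw [Matrix.of_apply]
      induction j using Fin.addCases with
      | left j =>
        rw [Fin.addCases_left]
        split_ifs
        · exact hcB _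
        · simp; linarith
      | right j =>
        rw [Fin.addCases_right]
        split_ifs
        · exact hcA _
        · simp; linarith)
    unfold resultant
    refine h2.trans ?_
    have h3 : m + n ≤ 2 * e := by omega
    have h4 : ((m + n).factorial : ℝ) ≤ ((2 * e).factorial : ℝ) := by
      exact_mod_cast Nat.factorial_le h3
    have h5 : T ^ (m + n) ≤ T ^ (2 * e) := pow_le_pow_right₀ hT h3
    exact mul_le_mul h4 h5 (by positivity) (by positivity)
  obtain ⟨p, q, hp, hq, hpq⟩ := exists_mul_add_mul_eq_C_resultant (m := m) (n := n) A B le_rfl le_rfl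
      (by omega)
  refine ⟨p, q, _, hr0, ?_, ?_, hpq, hbound⟩
  · exact natDegree_le_of_degree_le (hp.le.trans (by exact_mod_cast hB))
  · exact natDegree_le_of_degree_le (hq.le.trans (by exact_mod_cast hA))

lemma coprime_reflect (e : ℕ) (A B : ℚ[X]) (hA : A.natDegree ≤ e) (hB : B.natDegree ≤ e)
    (hco : IsCoprime A B) (htop : A.coeff e ≠ 0 ∨ B.coeff e ≠ 0) :
    IsCoprime (A.reflect e) (B.reflect e) := by
  wlog h : A.coeff e ≠ 0 generalizing A B
  · exact (this B A hB hA hco.symm htop.symm (htop.resolve_left h)).symm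
  obtain ⟨p, q, hpq⟩ := hco
  set N := max p.natDegree q.natDegree with hN
  have h1 : A.reflect e * p.reflect N + B.reflect e * q.reflect N = X ^ (e + N) := by
    rw [← reflect_mul A p hA (le_max_left _ _), ← reflect_mul B q hB (le_max_right _ _),
      ← reflect_add]
    have : A * p + B * q = 1 := by rw [← hpq]; ring
    rw [this]
    ext i
    rw [coeff_reflect, coeff_X_pow, coeff_one]
    by_cases hi : i = e + N
    · subst hi; rw [revAt_le le_rfl]; simp
    · rw [if_neg hi, if_neg]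
      intro h0
      apply hi
      have h2 := congrArg (revAt (e + N)) h0
      rw [revAt_invol, revAt_le (Nat.zero_le _)] at h2
      simpa using h2
  have h2 : IsCoprime (A.reflect e) (X ^ (e + N) : ℚ[X]) := by
    apply IsCoprime.pow_right
    have h3 : (A.reflect e).coeff 0 ≠ 0 := by
      rw [coeff_reflect, revAt_le (Nat.zero_le _), Nat.sub_zero]; exact h
    refine ⟨C ((A.reflect e).coeff 0)⁻¹, -(C ((A.reflect e).coeff 0)⁻¹ * (A.reflect e).divX), ?_⟩
    have h4 := (A.reflect e).divX_mul_X_add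
    have h5 : C ((A.reflect e).coeff 0)⁻¹ * C ((A.reflect e).coeff 0) = 1 := by
      rw [← C_mul, inv_mul_cancel₀ h3, C_1]
    calc C ((A.reflect e).coeff 0)⁻¹ * A.reflect e +
          -(C ((A.reflect e).coeff 0)⁻¹ * (A.reflect e).divX) * X
        = C ((A.reflect e).coeff 0)⁻¹ * (A.reflect e - (A.reflect e).divX * X) := by ring
      _ = C ((A.reflect e).coeff 0)⁻¹ * C ((A.reflect e).coeff 0) := by
          congr 1
          nth_rewrite 1 [← h4]; ring
      _ = 1 := h5
  obtain ⟨s, t, hst⟩ := h2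
  refine ⟨s + t * p.reflect N, t * q.reflect N, ?_⟩
  rw [← hst, ← h1]; ring

/-- **Sections.** -/
theorem section_count (e : ℕ) (he : 1 ≤ e) (ε : ℝ) (hε : 0 < ε) : ∃ D : ℝ, 1 ≤ D ∧
    ∀ (A B : ℤ[X]) (T : ℝ), 1 ≤ T → A.natDegree ≤ e → B.natDegree ≤ e →
      (A.coeff e ≠ 0 ∨ B.coeff e ≠ 0) →
      IsCoprime (A.map (Int.castRingHom ℚ)) (B.map (Int.castRingHom ℚ)) →
      (∀ i, |(A.coeff i : ℝ)| ≤ T) → (∀ i, |(B.coeff i : ℝ)| ≤ T) →
      (¬ ∃ c a b : ℤ, ∀ u v : ℤ, hf A e u v = c * (a * u + b * v) ^ e) →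
      ∀ S : Finset (ℤ × ℤ), (∀ s ∈ S, IsCoprime s.1 s.2 ∧ |(s.1 : ℝ)| ≤ T ∧ |(s.2 : ℝ)| ≤ T ∧
        hf A e s.1 s.2 ∣ hf B e s.1 s.2) → (S.card : ℝ) ≤ D * T ^ ε := by
  classical
  set F : ℝ := ((2 * e).factorial : ℝ) with hF
  have hF1 : 1 ≤ F := by
    rw [hF]; exact_mod_cast Nat.succ_le_of_lt (Nat.factorial_pos _)
  set m : ℕ := 4 * e + 1 with hm
  have hm0 : (0 : ℝ) < m := by rw [hm]; positivity
  obtain ⟨D, hD1, hD⟩ := thue_count e (ε / m) (div_pos hε hm0)
  refine ⟨D * (F ^ 2) ^ (ε / m), ?_, ?_⟩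
  · have : (1 : ℝ) ≤ (F ^ 2) ^ (ε / m) :=
      Real.one_le_rpow (one_le_pow₀ hF1) (div_pos hε hm0).le
    nlinarith
  intro A B T hT hA hB htop hco hcA hcB hnot S hS
  have hT0 : 0 < T := by linarith
  have hinj : Function.Injective (Int.castRingHom ℚ) := RingHom.injective_int _
  -- first Bezout relation
  have hpos1 : 0 < A.natDegree + B.natDegree := by
    rcases htop with h | h
    · have := le_natDegree_of_ne_zero h; omega
    · have := le_natDegree_of_ne_zero h; omega
  obtain ⟨p, q, r, hr, hp, hq, hpq, hrT⟩ := bezout_bound e A B T hT hA hB hco hcA hcB hpos1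
  -- second
  have hAr : (A.reflect e).natDegree ≤ e := by
    rw [natDegree_le_iff_coeff_eq_zero]
    intro i hi
    rw [coeff_reflect, revAt_eq_self_of_lt hi]
    exact coeff_eq_zero_of_natDegree_lt (by omega)
  have hBr : (B.reflect e).natDegree ≤ e := by
    rw [natDegree_le_iff_coeff_eq_zero]
    intro i hi
    rw [coeff_reflect, revAt_eq_self_of_lt hi]
    exact coeff_eq_zero_of_natDegree_lt (by omega)
  have hmapr : ∀ P : ℤ[X], (P.reflect e).map (Int.castRingHom ℚ) =
      (P.map (Int.castRingHom ℚ)).reflect e := by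
    intro P; ext i; rw [coeff_map, coeff_reflect, coeff_reflect, coeff_map]
  have hco' : IsCoprime ((A.reflect e).map (Int.castRingHom ℚ)) ((B.reflect e).map (Int.castRingHom ℚ)) := by
    rw [hmapr, hmapr]
    refine coprime_reflect e _ _ (natDegree_map_le.trans hA) (natDegree_map_le.trans hB) hco ?_
    rw [coeff_map, coeff_map]
    rcases htop with h | h
    · left; simpa using h
    · right; simpa using h
  have hpos2 : 0 < (A.reflect e).natDegree + (B.reflect e).natDegree := by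
    by_contra hcon
    have h1 : (A.reflect e).natDegree = 0 := by omega
    have h2 : (B.reflect e).natDegree = 0 := by omega
    have h3 : ∀ P : ℤ[X], (P.reflect e).natDegree = 0 → P.coeff 0 = 0 := by
      intro P hP
      have : (P.reflect e).coeff e = 0 := coeff_eq_zero_of_natDegree_lt (by omega)
      rw [coeff_reflect, revAt_le le_rfl, Nat.sub_self] at this
      exact this
    have h4 : (X : ℚ[X]) ∣ A.map (Int.castRingHom ℚ) := by
      rw [X_dvd_iff, coeff_map, h3 A h1, map_zero]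
    have h5 : (X : ℚ[X]) ∣ B.map (Int.castRingHom ℚ) := by
      rw [X_dvd_iff, coeff_map, h3 B h2, map_zero]
    exact not_isUnit_X (hco.isUnit_of_dvd' h4 h5)
  obtain ⟨p', q', r', hr', hp', hq', hpq', hrT'⟩ := bezout_bound e (A.reflect e) (B.reflect e) T hT
    hAr hBr hco' (fun i => by rw [coeff_reflect]; exact hcA _) (fun i => by
      rw [coeff_reflect]; exact hcB _) hpos2
  -- the divisibility
  have hdiv : ∀ s ∈ S, hf A e s.1 s.2 ∣ r * r' := by
    intro s hs
    obtain ⟨hc, _, _, hd⟩ := hS s hs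
    have h1 := hf_bezout A B p q r hpq e hA hB hp hq s.1 s.2
    have h2 := hf_bezout (A.reflect e) (B.reflect e) p' q' r' hpq' e hAr hBr hp' hq' s.2 s.1
    rw [hf_reflect, hf_reflect] at h2
    have h3 : hf A e s.1 s.2 ∣ r * s.2 ^ (e + e) := by
      rw [← h1]; exact dvd_add (Dvd.intro _ rfl) (Dvd.dvd.mul_right hd _)
    have h4 : hf A e s.1 s.2 ∣ r' * s.1 ^ (e + e) := by
      rw [← h2]; exact dvd_add (Dvd.intro _ rfl) (Dvd.dvd.mul_right hd _)
    have h5 : IsCoprime (s.1 ^ (e + e)) (s.2 ^ (e + e)) := hc.pow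
    obtain ⟨x, y, hxy⟩ := h5
    have h6 : r * r' = r * x * (r' * s.1 ^ (e + e)) + r' * y * (r * s.2 ^ (e + e)) := by
      linear_combination (- r * r') * hxy
    rw [h6]
    exact dvd_add (Dvd.dvd.mul_left h4 _) (Dvd.dvd.mul_left h3 _)
  set T' : ℝ := F ^ 2 * T ^ m with hT'
  have hTm : T ≤ T ^ m := le_self_pow₀ hT (by omega)
  have hT'T : T ≤ T' := by
    have : (1 : ℝ) ≤ F ^ 2 := one_le_pow₀ hF1
    have h0 : (0 : ℝ) < T ^ m := by positivity
    nlinarith
  have hT'1 : 1 ≤ T' := hT.trans hT'T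
  have hrr : |((r * r' : ℤ) : ℝ)| ≤ T' := by
    push_cast
    rw [abs_mul]
    calc |(r : ℝ)| * |(r' : ℝ)| ≤ (F * T ^ (2 * e)) * (F * T ^ (2 * e)) :=
          mul_le_mul hrT hrT' (abs_nonneg _) (by positivity)
      _ = F ^ 2 * T ^ (4 * e) := by ring
      _ ≤ F ^ 2 * T ^ m := by
          refine mul_le_mul_of_nonneg_left ?_ (by positivity)
          exact pow_le_pow_right₀ hT (by omega)
  have h := hD A T' hT'1 hA (fun i => (hcA i).trans hT'T) hnot (r * r') (mul_ne_zero hr hr') hrr S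
    (fun s hs => ⟨(hS s hs).2.1.trans hT'T, (hS s hs).2.2.1.trans hT'T, hdiv s hs⟩)
  refine h.trans (le_of_eq ?_)
  rw [hT', Real.mul_rpow (by positivity) (by positivity), ← Real.rpow_natCast T m,
    ← Real.rpow_mul hT0.le]
  have : (m : ℝ) * (ε / m) = ε := by field_simp
  rw [this]; ring

end Pool.Agent.SQF4
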