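import Pool.Agent.Lib.SQF4.EltCount

/-!
# Uniform Thue / divisor lemma for binary forms
-/

set_option autoImplicit false

open NumberField Module Polynomial

namespace Pool.Agent.SQF4

/-- the binary form of degree `k` with coefficients those of `P` -/
def hf (P : ℤ[X]) (k : ℕ) (u v : ℤ) : ℤ := ∑ i ∈ Finset.range (k + 1), P.coeff i * u ^ i * v ^ (k - i)

lemma hf_zero_right (P : ℤ[X]) (k : ℕ) (u : ℤ) : hf P k u 0 = P.coeff k * u ^ k := by
  unfold hf
  rw [Finset.sum_range_succ, Finset.sum_eq_zero, zero_add, Nat.sub_self, pow_zero, mul_one]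
  intro i hi
  have := Finset.mem_range.1 hi
  rw [zero_pow (by omega), mul_zero]

lemma hf_eq_rat (P : ℤ[X]) (k : ℕ) (hk : P.natDegree ≤ k) (u v : ℤ) (hv : v ≠ 0) :
    (hf P k u v : ℚ) = (v : ℚ) ^ k * (P.map (Int.castRingHom ℚ)).eval ((u : ℚ) / v) := by
  have hv' : (v : ℚ) ≠ 0 := by exact_mod_cast hv
  unfold hf
  rw [eval_eq_sum_range' (n := k + 1) (by
    have : (P.map (Int.castRingHom ℚ)).natDegree ≤ P.natDegree := natDegree_map_le
    omega), Finset.mul_sum]
  push_cast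
  refine Finset.sum_congr rfl ?_
  intro i hi
  have hi' := Finset.mem_range.1 hi
  rw [coeff_map, eq_intCast]
  have : (v : ℚ) ^ k = (v : ℚ) ^ (k - i) * (v : ℚ) ^ i := by rw [← pow_add]; congr 1; omega
  rw [this, div_pow]
  field_simp

lemma hf_mul (P Q : ℤ[X]) (d e : ℕ) (hd : P.natDegree ≤ d) (he : Q.natDegree ≤ e) (u v : ℤ) :
    hf (P * Q) (d + e) u v = hf P d u v * hf Q e u v := by
  rcases eq_or_ne v 0 with rfl | hv
  · rw [hf_zero_right, hf_zero_right, hf_zero_right, coeff_mul_add_eq_of_natDegree_le hd he]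
    ring
  · have h1 : (P * Q).natDegree ≤ d + e := natDegree_mul_le.trans (by omega)
    have h2 : ((hf (P * Q) (d + e) u v : ℤ) : ℚ) = ((hf P d u v * hf Q e u v : ℤ) : ℚ) := by
      push_cast
      rw [hf_eq_rat _ _ h1 u v hv, hf_eq_rat _ _ hd u v hv, hf_eq_rat _ _ he u v hv,
        Polynomial.map_mul, eval_mul]
      ring
    exact_mod_cast h2

lemma hf_one (P : ℤ[X]) (u v : ℤ) : hf P 1 u v = P.coeff 1 * u + P.coeff 0 * v := by
  unfold hf
  simp [Finset.sum_range_succ]
  ring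

lemma hf_zero (P : ℤ[X]) (u v : ℤ) : hf P 0 u v = P.coeff 0 := by
  unfold hf
  simp

lemma hf_pow (P : ℤ[X]) (h : P.natDegree ≤ 1) (m : ℕ) (u v : ℤ) :
    hf (P ^ m) m u v = (hf P 1 u v) ^ m := by
  induction m with
  | zero => rw [pow_zero, hf_zero]; simp
  | succ m ih =>
    rw [pow_succ, hf_mul (P ^ m) P m 1 ((natDegree_pow_le).trans (by nlinarith)) h, ih, pow_succ]

/-- the cofactor identity -/
lemma dvd_aux {R : Type*} [CommRing R] (d : ℕ) (hd : 1 ≤ d) (a : ℕ → R) (c η u v : R)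
    (hc : a d = c) (h : η ^ d + ∑ i ∈ Finset.range d, a i * c ^ (d - 1 - i) * η ^ i = 0) :
    (c * u - η * v) ∣ c ^ (d - 1) * ∑ i ∈ Finset.range (d + 1), a i * u ^ i * v ^ (d - i) := by
  have key : c ^ (d - 1) * ∑ i ∈ Finset.range (d + 1), a i * u ^ i * v ^ (d - i) =
      ((c * u) ^ d - (η * v) ^ d) + ∑ i ∈ Finset.range d,
        a i * c ^ (d - 1 - i) * v ^ (d - i) * ((c * u) ^ i - (η * v) ^ i) := by
    have e1 : c ^ (d - 1) * ∑ i ∈ Finset.range (d + 1), a i * u ^ i * v ^ (d - i) =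
        (c * u) ^ d + ∑ i ∈ Finset.range d, a i * c ^ (d - 1 - i) * v ^ (d - i) * (c * u) ^ i := by
      rw [Finset.sum_range_succ, mul_add, add_comm, hc, Nat.sub_self, pow_zero, mul_one,
        Finset.mul_sum]
      congr 1
      · rw [mul_pow]
        have : c ^ d = c ^ (d - 1) * c := by rw [← pow_succ]; congr 1; omega
        rw [this]; ring
      · refine Finset.sum_congr rfl ?_
        intro i hi
        have hi' := Finset.mem_range.1 hi
        have : c ^ (d - 1) = c ^ (d - 1 - i) * c ^ i := by rw [← pow_add]; congr 1; omega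
        rw [this, mul_pow]; ring
    have e2 : (η * v) ^ d + ∑ i ∈ Finset.range d, a i * c ^ (d - 1 - i) * v ^ (d - i) * (η * v) ^ i = 0 := by
      have : (η * v) ^ d + ∑ i ∈ Finset.range d, a i * c ^ (d - 1 - i) * v ^ (d - i) * (η * v) ^ i =
          v ^ d * (η ^ d + ∑ i ∈ Finset.range d, a i * c ^ (d - 1 - i) * η ^ i) := by
        rw [mul_add, Finset.mul_sum]
        congr 1
        · rw [mul_pow]; ring
        · refine Finset.sum_congr rfl ?_
          intro i hi
          have hi' := Finset.mem_range.1 hi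
          have : v ^ d = v ^ (d - i) * v ^ i := by rw [← pow_add]; congr 1; omega
          rw [this, mul_pow]; ring
      rw [this, h, mul_zero]
    rw [e1]
    have e3 : ∑ i ∈ Finset.range d, a i * c ^ (d - 1 - i) * v ^ (d - i) * ((c * u) ^ i - (η * v) ^ i) =
        ∑ i ∈ Finset.range d, a i * c ^ (d - 1 - i) * v ^ (d - i) * (c * u) ^ i -
        ∑ i ∈ Finset.range d, a i * c ^ (d - 1 - i) * v ^ (d - i) * (η * v) ^ i := by
      rw [← Finset.sum_sub_distrib]
      refine Finset.sum_congr rfl ?_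
      intro i _; ring
    rw [e3]
    linear_combination e2
  rw [key]
  refine dvd_add (sub_dvd_pow_sub_pow _ _ d) (Finset.dvd_sum ?_)
  intro i _
  exact Dvd.dvd.mul_left (sub_dvd_pow_sub_pow _ _ i) _

/-- complex roots are bounded by the coefficients -/
lemma root_bound (P : ℤ[X]) (hP : P ≠ 0) (T : ℝ) (hT : 1 ≤ T) (hc : ∀ i, |(P.coeff i : ℝ)| ≤ T)
    (z : ℂ) (hz : aeval z P = 0) : ‖z‖ ≤ T + 1 := by
  set Q : ℂ[X] := P.map (Int.castRingHom ℂ) with hQ
  have hinj : Function.Injective (Int.castRingHom ℂ) := RingHom.injective_int _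
  have hQ0 : Q ≠ 0 := (Polynomial.map_ne_zero_iff hinj).2 hP
  have hroot : Q.IsRoot z := by
    rw [IsRoot, hQ, eval_map]
    exact hz
  have h1 := IsRoot.norm_lt_cauchyBound hQ0 hroot
  have h2 : ((‖z‖₊ : NNReal) : ℝ) ≤ ((cauchyBound Q : NNReal) : ℝ) := by exact_mod_cast h1.le
  refine (by simpa using h2 : ‖z‖ ≤ ((cauchyBound Q : NNReal) : ℝ)).trans ?_
  unfold cauchyBound
  have hlc : (1 : NNReal) ≤ ‖Q.leadingCoeff‖₊ := by
    have h3 : Q.leadingCoeff = ((P.leadingCoeff : ℤ) : ℂ) := by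
      rw [hQ, leadingCoeff_map_of_injective hinj]; rfl
    rw [h3]
    have h4 : (1 : ℝ) ≤ ‖((P.leadingCoeff : ℤ) : ℂ)‖ := by
      rw [Complex.norm_intCast]
      have h5 := Int.one_le_abs (leadingCoeff_ne_zero.2 hP)
      exact_mod_cast h5
    rw [← NNReal.coe_le_coe, NNReal.coe_one, coe_nnnorm]
    exact h4
  have hsup : (Finset.sup (Finset.range Q.natDegree) (fun i => ‖Q.coeff i‖₊)) ≤ ⟨T, by linarith⟩ := by
    refine Finset.sup_le ?_
    intro i _
    have h5 : Q.coeff i = ((P.coeff i : ℤ) : ℂ) := by rw [hQ, coeff_map]; rfl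
    rw [h5]
    have h6 : ‖((P.coeff i : ℤ) : ℂ)‖ ≤ T := by rw [Complex.norm_intCast]; exact hc i
    exact h6
  have h7 : (Finset.sup (Finset.range Q.natDegree) (fun i => ‖Q.coeff i‖₊)) / ‖Q.leadingCoeff‖₊ ≤
      ⟨T, by linarith⟩ := (div_le_self (zero_le) hlc).trans hsup
  have h8 : (((Finset.sup (Finset.range Q.natDegree) (fun i => ‖Q.coeff i‖₊)) / ‖Q.leadingCoeff‖₊ : NNReal) : ℝ) ≤ T := by
    exact_mod_cast h7
  rw [NNReal.coe_add, NNReal.coe_one]
  linarith

lemma exists_field (k : ℕ) (P : ℤ[X]) (hirr : Irreducible P) (hdeg : P.natDegree = k) (hk2 : 2 ≤ k) :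
    ∃ (K : Type) (_ : Field K) (_ : NumberField K), finrank ℚ K = k ∧ ∃ θ : K, aeval θ P = 0 ∧
      ∀ q : ℚ, θ ≠ (q : K) := by
  have hprim : P.IsPrimitive := hirr.isPrimitive (by omega)
  obtain ⟨f, hf'⟩ : ∃ f : ℚ[X], f = P.map (Int.castRingHom ℚ) := ⟨_, rfl⟩
  have hfirr : Irreducible f := by
    rw [hf']
    exact (hprim.irreducible_iff_irreducible_map_fraction_map (K := ℚ)).1 hirr
  have hinj : Function.Injective (Int.castRingHom ℚ) := RingHom.injective_int _
  have hfdeg : f.natDegree = k := by rw [hf', natDegree_map_eq_of_injective hinj, hdeg]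
  have : Fact (Irreducible f) := ⟨hfirr⟩
  let pb : PowerBasis ℚ (AdjoinRoot f) := AdjoinRoot.powerBasis hfirr.ne_zero
  have : FiniteDimensional ℚ (AdjoinRoot f) := pb.finite
  have : CharZero (AdjoinRoot f) :=
    charZero_of_injective_algebraMap (algebraMap ℚ (AdjoinRoot f)).injective
  have hfin : finrank ℚ (AdjoinRoot f) = k := by
    rw [pb.finrank, ← hfdeg]; exact AdjoinRoot.powerBasis_dim hfirr.ne_zero
  refine ⟨AdjoinRoot f, inferInstance, { }, hfin, AdjoinRoot.root f, ?_, ?_⟩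
  · have h2 : eval₂ (algebraMap ℚ (AdjoinRoot f)) (AdjoinRoot.root f) (P.map (Int.castRingHom ℚ)) = 0 := by
      rw [← hf']; exact AdjoinRoot.eval₂_root f
    rw [eval₂_map] at h2
    rw [aeval_def, ← h2]
    congr 1
  · intro q h5
    have h1 : IsRoot f q := by
      have h2 : algebraMap ℚ (AdjoinRoot f) (f.eval q) = 0 := by
        rw [← eval₂_at_apply]
        have h3 : (algebraMap ℚ (AdjoinRoot f)) q = AdjoinRoot.root f := by
          rw [h5]; simp
        rw [h3]
        exact AdjoinRoot.eval₂_root f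
      exact (algebraMap ℚ (AdjoinRoot f)).injective (by rw [h2, map_zero])
    have h6 := degree_eq_one_of_irreducible_of_root hfirr h1
    have h7 : f.natDegree = 1 := natDegree_eq_of_degree_eq_some h6
    omega

/-- irreducible factors of degree at least two -/
lemma irr_count (k : ℕ) (ε : ℝ) (hε : 0 < ε) : ∃ A : ℝ, 1 ≤ A ∧
    ∀ (P : ℤ[X]) (T : ℝ), 1 ≤ T → Irreducible P → P.natDegree = k → 2 ≤ k →
      |(P.leadingCoeff : ℝ)| ≤ T → (∀ z : ℂ, aeval z P = 0 → ‖z‖ ≤ T + 1) →
      ∀ R : ℤ, R ≠ 0 → |(R : ℝ)| ≤ T → ∀ S : Finset (ℤ × ℤ),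
        (∀ s ∈ S, |(s.1 : ℝ)| ≤ T ∧ |(s.2 : ℝ)| ≤ T ∧ hf P k s.1 s.2 ∣ R) →
        (S.card : ℝ) ≤ A * T ^ ε := by
  classical
  have hε' : 0 < ε / (k + 6 : ℝ) := by positivity
  obtain ⟨A, hA1, hA⟩ := elt_count k (ε / (k + 6 : ℝ)) hε'
  refine ⟨A * 3 ^ (ε / (k + 6 : ℝ)), ?_, ?_⟩
  · have : (1 : ℝ) ≤ 3 ^ (ε / (k + 6 : ℝ)) := Real.one_le_rpow (by norm_num) hε'.le
    nlinarith
  intro P T hT hirr hdeg hk2 hlc hroots R hR hRT S hS
  have hT0 : 0 < T := by linarith
  have hP0 : P ≠ 0 := hirr.ne_zero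
  have hprim : P.IsPrimitive := hirr.isPrimitive (by omega)
  obtain ⟨K, _, _, hfin, θ, hθ0, hirrat⟩ := exists_field k P hirr hdeg hk2
  set c : ℤ := P.leadingCoeff with hc
  have hc0 : c ≠ 0 := leadingCoeff_ne_zero.2 hP0
  have hint : IsIntegral ℤ ((c : K) * θ) := by
    have := isIntegral_leadingCoeff_smul P θ hθ0
    rw [zsmul_eq_mul] at this
    exact this
  let η : 𝓞 K := ⟨(c : K) * θ, hint⟩
  have hη : algebraMap (𝓞 K) K η = (c : K) * θ := rfl
  -- the relation
  have hrel : η ^ k + ∑ i ∈ Finset.range k, ((P.coeff i : ℤ) : 𝓞 K) * ((c : ℤ) : 𝓞 K) ^ (k - 1 - i) * η ^ i = 0 := by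
    apply RingOfIntegers.coe_injective
    simp only [map_add, map_pow, map_sum, map_mul, map_intCast, hη]
    have h1 : (c : K) ^ (k - 1) * aeval θ P = 0 := by rw [hθ0, mul_zero]
    rw [aeval_eq_sum_range, hdeg, Finset.sum_range_succ, mul_add, Finset.mul_sum] at h1
    rw [add_comm, map_zero]
    have h2 : (c : K) ^ (k - 1) * (P.coeff k • θ ^ k) = ((c : K) * θ) ^ k := by
      have : P.coeff k = c := by rw [hc, leadingCoeff, hdeg]
      rw [this, zsmul_eq_mul, mul_pow]
      have : (c : K) ^ k = (c : K) ^ (k - 1) * c := by rw [← pow_succ]; congr 1; omega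
      rw [this]; ring
    rw [h2] at h1
    rw [← h1]
    congr 1
    refine Finset.sum_congr rfl ?_
    intro i hi
    have hi' := Finset.mem_range.1 hi
    have : (c : K) ^ (k - 1) = (c : K) ^ (k - 1 - i) * (c : K) ^ i := by
      rw [← pow_add]; congr 1; omega
    rw [this, zsmul_eq_mul, mul_pow]; ring
  -- the map
  let γ : ℤ × ℤ → 𝓞 K := fun s => ((c : ℤ) : 𝓞 K) * ((s.1 : ℤ) : 𝓞 K) - η * ((s.2 : ℤ) : 𝓞 K)
  have hγinj : Function.Injective γ := by
    intro s t hst
    have h1 : (c : K) * (s.1 : K) - (c : K) * θ * (s.2 : K) = (c : K) * (t.1 : K) - (c : K) * θ * (t.2 : K) := by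
      have := congrArg (fun y : 𝓞 K => (y : K)) hst
      simpa [γ, hη] using this
    have hcK : (c : K) ≠ 0 := by exact_mod_cast hc0
    have h2 : (s.1 : K) - θ * (s.2 : K) = (t.1 : K) - θ * (t.2 : K) := by
      have : (c : K) * ((s.1 : K) - θ * (s.2 : K)) = (c : K) * ((t.1 : K) - θ * (t.2 : K)) := by
        linear_combination h1
      exact mul_left_cancel₀ hcK this
    by_cases h3 : s.2 = t.2
    · have h4 : (s.1 : K) = (t.1 : K) := by
        rw [h3] at h2; linear_combination h2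
      have h5 : s.1 = t.1 := by exact_mod_cast h4
      exact Prod.ext h5 h3
    · exfalso
      have h4 : ((s.2 - t.2 : ℤ) : K) ≠ 0 := by
        have : s.2 - t.2 ≠ 0 := sub_ne_zero.2 h3
        exact_mod_cast this
      have h5 : θ = ((((s.1 - t.1 : ℤ) : ℚ) / ((s.2 - t.2 : ℤ) : ℚ) : ℚ) : K) := by
        push_cast
        push_cast at h4
        rw [eq_div_iff h4]
        linear_combination -h2
      exact hirrat _ h5
  -- the integer
  set M : ℕ := (c ^ (k - 1) * R).natAbs with hM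
  have hM0 : M ≠ 0 := by
    rw [hM, Int.natAbs_ne_zero]
    exact mul_ne_zero (pow_ne_zero _ hc0) hR
  have hMT : (M : ℝ) ≤ T ^ k := by
    have h1 : (M : ℝ) = |((c ^ (k - 1) * R : ℤ) : ℝ)| := by
      rw [hM, Nat.cast_natAbs]; push_cast; rfl
    rw [h1]
    push_cast
    rw [abs_mul, abs_pow]
    have h2 : |(c : ℝ)| ^ (k - 1) ≤ T ^ (k - 1) := pow_le_pow_left₀ (abs_nonneg _) hlc _
    calc |(c : ℝ)| ^ (k - 1) * |(R : ℝ)| ≤ T ^ (k - 1) * T :=
          mul_le_mul h2 hRT (abs_nonneg _) (by positivity)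
      _ = T ^ k := by rw [← pow_succ]; congr 1; omega
  have hY : (1 : ℝ) ≤ 3 * T ^ 3 := by
    have : (1 : ℝ) ≤ T ^ 3 := one_le_pow₀ hT
    linarith
  have hbound := hA K hfin M hM0 (3 * T ^ 3) hY (S.image γ) (by
    intro x hx
    obtain ⟨s, hs, rfl⟩ := Finset.mem_image.1 hx
    obtain ⟨h1, h2, h3⟩ := hS s hs
    constructor
    · -- divisibility
      have h4 := dvd_aux k (by omega) (fun i => ((P.coeff i : ℤ) : 𝓞 K)) ((c : ℤ) : 𝓞 K) η
        ((s.1 : ℤ) : 𝓞 K) ((s.2 : ℤ) : 𝓞 K) (by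
          show ((P.coeff k : ℤ) : 𝓞 K) = ((c : ℤ) : 𝓞 K)
          rw [hc, leadingCoeff, hdeg]) hrel
      have h5 : ((c : ℤ) : 𝓞 K) ^ (k - 1) * ∑ i ∈ Finset.range (k + 1),
          ((P.coeff i : ℤ) : 𝓞 K) * ((s.1 : ℤ) : 𝓞 K) ^ i * ((s.2 : ℤ) : 𝓞 K) ^ (k - i) =
          ((c ^ (k - 1) * hf P k s.1 s.2 : ℤ) : 𝓞 K) := by
        unfold hf
        push_cast
        rfl
      rw [h5] at h4
      have h6 : ((c ^ (k - 1) * hf P k s.1 s.2 : ℤ) : 𝓞 K) ∣ ((c ^ (k - 1) * R : ℤ) : 𝓞 K) := by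
        have := map_dvd (Int.castRingHom (𝓞 K)) (mul_dvd_mul_left (c ^ (k - 1)) h3)
        simpa using this
      have h7 : ((c ^ (k - 1) * R : ℤ) : 𝓞 K) ∣ ((M : ℕ) : 𝓞 K) := by
        have h8 : (c ^ (k - 1) * R : ℤ) ∣ ((M : ℕ) : ℤ) := by
          rw [hM]; exact Int.dvd_natAbs.2 dvd_rfl
        have := map_dvd (Int.castRingHom (𝓞 K)) h8
        simpa using this
      exact (h4.trans h6).trans h7
    · intro φ
      have h4 : φ ((γ s : 𝓞 K) : K) = (c : ℂ) * (s.1 : ℂ) - (c : ℂ) * φ θ * (s.2 : ℂ) := by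
        have : ((γ s : 𝓞 K) : K) = (c : K) * (s.1 : K) - (c : K) * θ * (s.2 : K) := by
          simp [γ, hη]
        rw [this]
        simp
      have h5 : ‖φ θ‖ ≤ T + 1 := by
        apply hroots
        have h6 := congrArg φ hθ0
        rw [map_zero] at h6
        rw [← h6, aeval_def, aeval_def, hom_eval₂]
        congr 1
        exact RingHom.ext_int _ _
      rw [h4]
      have hcn : ‖(c : ℂ)‖ ≤ T := by rw [Complex.norm_intCast]; exact hlc
      have h1n : ‖(s.1 : ℂ)‖ ≤ T := by rw [Complex.norm_intCast]; exact h1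
      have h2n : ‖(s.2 : ℂ)‖ ≤ T := by rw [Complex.norm_intCast]; exact h2
      calc ‖(c : ℂ) * (s.1 : ℂ) - (c : ℂ) * φ θ * (s.2 : ℂ)‖
          ≤ ‖(c : ℂ) * (s.1 : ℂ)‖ + ‖(c : ℂ) * φ θ * (s.2 : ℂ)‖ := norm_sub_le _ _
        _ = ‖(c : ℂ)‖ * ‖(s.1 : ℂ)‖ + ‖(c : ℂ)‖ * ‖φ θ‖ * ‖(s.2 : ℂ)‖ := by
            rw [norm_mul, norm_mul, norm_mul]
        _ ≤ T * T + T * (T + 1) * T := by
            refine add_le_add ?_ ?_
            · exact mul_le_mul hcn h1n (norm_nonneg _) hT0.le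
            · refine mul_le_mul ?_ h2n (norm_nonneg _) (by positivity)
              exact mul_le_mul hcn h5 (norm_nonneg _) hT0.le
        _ ≤ 3 * T ^ 3 := by nlinarith [mul_pos hT0 hT0, sq_nonneg (T - 1), mul_nonneg (mul_pos hT0 hT0).le (sub_nonneg.2 hT)])
  rw [Finset.card_image_of_injective _ hγinj] at hbound
  have hM0' : (0 : ℝ) < M := by exact_mod_cast Nat.pos_of_ne_zero hM0
  set e : ℝ := ε / (k + 6 : ℝ) with he
  have e1 : (M : ℝ) ^ e ≤ T ^ (k * e) := by
    calc (M : ℝ) ^ e ≤ (T ^ k) ^ e := Real.rpow_le_rpow hM0'.le hMT hε'.le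
      _ = T ^ (k * e) := by rw [← Real.rpow_natCast, ← Real.rpow_mul hT0.le]
  have e2 : (3 * T ^ 3) ^ e = 3 ^ e * T ^ (3 * e) := by
    rw [Real.mul_rpow (by norm_num) (by positivity)]
    congr 1
    rw [← Real.rpow_natCast T 3, ← Real.rpow_mul hT0.le]
    norm_num
  calc (S.card : ℝ) ≤ A * (M : ℝ) ^ e * (3 * T ^ 3) ^ e := hbound
    _ ≤ A * T ^ (k * e) * (3 ^ e * T ^ (3 * e)) := by
        rw [e2]
        refine mul_le_mul_of_nonneg_right ?_ (by positivity)
        exact mul_le_mul_of_nonneg_left e1 (by linarith)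
    _ = A * 3 ^ e * T ^ (k * e + 3 * e) := by rw [Real.rpow_add hT0]; ring
    _ ≤ A * 3 ^ e * T ^ ε := by
        refine mul_le_mul_of_nonneg_left ?_ (by positivity)
        refine Real.rpow_le_rpow_of_exponent_le hT ?_
        have h9 : ((k : ℝ) + 6) * e = ε := by rw [he]; field_simp
        nlinarith [hε']

/-- two independent linear forms dividing `R` -/
lemma two_forms (a b a' b' : ℤ) (hdet : a * b' - a' * b ≠ 0) (R : ℤ) (hR : R ≠ 0)
    (S : Finset (ℤ × ℤ)) (hS : ∀ s ∈ S, (a * s.1 + b * s.2) ∣ R ∧ (a' * s.1 + b' * s.2) ∣ R) :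
    S.card ≤ (2 * R.natAbs.divisors.card) ^ 2 := by
  classical
  let D : Finset ℤ := (R.natAbs.divisors.image (fun n : ℕ => (n : ℤ))) ∪
    (R.natAbs.divisors.image (fun n : ℕ => -(n : ℤ)))
  have hDcard : D.card ≤ 2 * R.natAbs.divisors.card := by
    refine (Finset.card_union_le _ _).trans ?_
    have h1 := Finset.card_image_le (s := R.natAbs.divisors) (f := fun n : ℕ => (n : ℤ))
    have h2 := Finset.card_image_le (s := R.natAbs.divisors) (f := fun n : ℕ => -(n : ℤ))
    omega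
  have hmem : ∀ d : ℤ, d ∣ R → d ∈ D := by
    intro d hd
    have h1 : d.natAbs ∈ R.natAbs.divisors :=
      Nat.mem_divisors.2 ⟨Int.natAbs_dvd_natAbs.2 hd, Int.natAbs_ne_zero.2 hR⟩
    rcases Int.natAbs_eq d with h | h
    · exact Finset.mem_union_left _ (Finset.mem_image.2 ⟨d.natAbs, h1, h.symm⟩)
    · exact Finset.mem_union_right _ (Finset.mem_image.2 ⟨d.natAbs, h1, h.symm⟩)
  let F : ℤ × ℤ → ℤ × ℤ := fun s => (a * s.1 + b * s.2, a' * s.1 + b' * s.2)
  have hF : Function.Injective F := by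
    intro s t h
    have h1 : a * s.1 + b * s.2 = a * t.1 + b * t.2 := congrArg Prod.fst h
    have h2 : a' * s.1 + b' * s.2 = a' * t.1 + b' * t.2 := congrArg Prod.snd h
    have h3 : (a * b' - a' * b) * (s.1 - t.1) = 0 := by linear_combination b' * h1 - b * h2
    have h4 : (a * b' - a' * b) * (s.2 - t.2) = 0 := by linear_combination a * h2 - a' * h1
    have h5 := (mul_eq_zero.1 h3).resolve_left hdet
    have h6 := (mul_eq_zero.1 h4).resolve_left hdet
    exact Prod.ext (by linarith) (by linarith)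
  have h : (S.image F).card ≤ (D ×ˢ D).card := by
    refine Finset.card_le_card ?_
    intro x hx
    obtain ⟨s, hs, rfl⟩ := Finset.mem_image.1 hx
    exact Finset.mem_product.2 ⟨hmem _ (hS s hs).1, hmem _ (hS s hs).2⟩
  rw [Finset.card_image_of_injective _ hF, Finset.card_product] at h
  calc S.card ≤ D.card * D.card := h
    _ ≤ (2 * R.natAbs.divisors.card) * (2 * R.natAbs.divisors.card) := Nat.mul_le_mul hDcard hDcard
    _ = _ := by ring

/-- the degree of an integer constant multiple of a linear form -/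
lemma linear_dichotomy (k : ℕ) (P : ℤ[X]) (hP : P ≠ 0) (hk : P.natDegree ≤ k)
    (hlin : ∀ Q : ℤ[X], Irreducible Q → Q ∣ P → Q.natDegree ≤ 1) :
    (∃ c a b : ℤ, ∀ u v : ℤ, hf P k u v = c * (a * u + b * v) ^ k) ∨
    (∃ a b a' b' : ℤ, a * b' - a' * b ≠ 0 ∧ ∀ u v : ℤ, (a * u + b * v) ∣ hf P k u v ∧
      (a' * u + b' * v) ∣ hf P k u v) := by
  rcases Nat.eq_zero_or_pos P.natDegree with h0 | hpos
  · left
    refine ⟨P.coeff 0, 0, 1, ?_⟩
    intro u v
    unfold hf
    rw [Finset.sum_eq_single 0]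
    · simp
    · intro i _ hi
      rw [coeff_eq_zero_of_natDegree_lt (by omega)]; simp
    · intro h; exact absurd (Finset.mem_range.2 (Nat.succ_pos k)) h
  · -- a linear factor
    have hex : ∀ Q : ℤ[X], Q ∣ P → 0 < Q.natDegree → ∃ L : ℤ[X], Irreducible L ∧ L ∣ Q ∧ L.natDegree = 1 := by
      intro Q hQ hQd
      -- some irreducible factor has positive degree
      by_contra hcon
      push Not at hcon
      have hQ0 : Q ≠ 0 := by rintro rfl; simp at hQd
      have hall : ∀ L : ℤ[X], Irreducible L → L ∣ Q → L.natDegree = 0 := by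
        intro L hL hLQ
        have h1 := hlin L hL (hLQ.trans hQ)
        have h2 := hcon L hL hLQ
        omega
      have : Q.natDegree = 0 := by
        obtain ⟨s, hs, hs2⟩ := WfDvdMonoid.exists_factors Q hQ0
        obtain ⟨w, hw⟩ := hs2
        have h3 : (s.prod).natDegree = 0 := by
          have h4 : s.prod.natDegree ≤ (s.map natDegree).sum := natDegree_multiset_prod_le s
          have h5 : (s.map natDegree).sum = 0 := by
            rw [Multiset.sum_eq_zero_iff]
            intro x hx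
            obtain ⟨L, hL, rfl⟩ := Multiset.mem_map.1 hx
            refine hall L (hs L hL) ?_
            rw [← hw]
            exact Dvd.dvd.mul_right (Multiset.dvd_prod hL) _
          omega
        rw [← hw]
        refine Nat.le_zero.1 (natDegree_mul_le.trans ?_)
        rw [h3, natDegree_eq_zero_of_isUnit w.isUnit]
      omega
    obtain ⟨L, hL, hLP, hL1⟩ := hex P dvd_rfl hpos
    have hLc : L.coeff 1 ≠ 0 := by
      have : L.leadingCoeff ≠ 0 := leadingCoeff_ne_zero.2 hL.ne_zero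
      rwa [leadingCoeff, hL1] at this
    by_cases hlt : P.natDegree < k
    · right
      refine ⟨L.coeff 1, L.coeff 0, 0, 1, by simpa using hLc, ?_⟩
      intro u v
      constructor
      · obtain ⟨Q, rfl⟩ := hLP
        have hQ0 : Q ≠ 0 := right_ne_zero_of_mul hP
        have hQd : Q.natDegree ≤ k - 1 := by
          rw [natDegree_mul hL.ne_zero hQ0, hL1] at hk; omega
        have : k = 1 + (k - 1) := by omega
        rw [this, hf_mul L Q 1 (k - 1) hL1.le hQd, hf_one]
        exact Dvd.intro _ rfl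
      · rw [zero_mul, one_mul, zero_add]
        unfold hf
        refine Finset.dvd_sum ?_
        intro i hi
        by_cases hi2 : i ≤ P.natDegree
        · exact Dvd.dvd.mul_left (dvd_pow_self _ (by omega)) _
        · rw [coeff_eq_zero_of_natDegree_lt (by omega)]; simp
    · have hkeq : P.natDegree = k := by omega
      obtain ⟨m, Q, hLQ, hPQ⟩ := WfDvdMonoid.max_power_factor hP hL
      have hQ0 : Q ≠ 0 := by rintro rfl; exact hLQ (dvd_zero _)
      have hm : m ≠ 0 := by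
        rintro rfl
        rw [pow_zero, one_mul] at hPQ
        exact hLQ (hPQ ▸ hLP)
      have hdeg : k = m + Q.natDegree := by
        rw [← hkeq, hPQ, natDegree_mul (pow_ne_zero _ hL.ne_zero) hQ0, natDegree_pow, hL1, mul_one]
      rcases Nat.eq_zero_or_pos Q.natDegree with hQd | hQd
      · left
        refine ⟨Q.coeff 0, L.coeff 1, L.coeff 0, ?_⟩
        intro u v
        have hkm : k = m + 0 := by omega
        rw [hPQ, hkm, hf_mul (L ^ m) Q m 0 (natDegree_pow_le.trans (by rw [hL1, mul_one])) hQd.le,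
          hf_pow L hL1.le, hf_zero, hf_one]
        ring
      · right
        obtain ⟨L', hL', hL'Q, hL'1⟩ := hex Q (by rw [hPQ]; exact Dvd.intro_left _ rfl) hQd
        have hL'P : L' ∣ P := hL'Q.trans (by rw [hPQ]; exact Dvd.intro_left _ rfl)
        have hdvd : ∀ N : ℤ[X], N ∣ P → N.natDegree = 1 → ∀ u v : ℤ,
            (N.coeff 1 * u + N.coeff 0 * v) ∣ hf P k u v := by
          intro N hN hN1 u v
          obtain ⟨Q', rfl⟩ := hN
          have hN0 : N ≠ 0 := left_ne_zero_of_mul hP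
          have hQ'0 : Q' ≠ 0 := right_ne_zero_of_mul hP
          have hQd : Q'.natDegree ≤ k - 1 := by
            rw [natDegree_mul hN0 hQ'0, hN1] at hk; omega
          have : k = 1 + (k - 1) := by omega
          rw [this, hf_mul N Q' 1 (k - 1) hN1.le hQd, hf_one]
          exact Dvd.intro _ rfl
        refine ⟨L.coeff 1, L.coeff 0, L'.coeff 1, L'.coeff 0, ?_, fun u v =>
          ⟨hdvd L hLP hL1 u v, hdvd L' hL'P hL'1 u v⟩⟩
        intro hdet
        -- proportional, hence associated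
        have hrep : ∀ N : ℤ[X], N.natDegree = 1 → N = C (N.coeff 1) * X + C (N.coeff 0) := by
          intro N hN
          exact eq_X_add_C_of_natDegree_le_one hN.le
        have hprop : C (L'.coeff 1) * L = C (L.coeff 1) * L' := by
          rw [hrep L hL1, hrep L' hL'1]
          simp only [coeff_add, coeff_C_mul, coeff_X_one, mul_one, coeff_C_succ, add_zero,
            coeff_X_zero, mul_zero, coeff_C_zero, zero_add]
          have : C (L'.coeff 1) * C (L.coeff 0) = C (L.coeff 1) * C (L'.coeff 0) := by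
            rw [← C_mul, ← C_mul]
            congr 1
            linear_combination -hdet
          linear_combination this
        have hLprime : Prime L := hL.prime
        have h1 : L ∣ C (L.coeff 1) * L' := by rw [← hprop]; exact Dvd.intro_left _ rfl
        rcases hLprime.dvd_or_dvd h1 with h2 | h2
        · have h3 := natDegree_le_of_dvd h2 (by rw [Ne, C_eq_zero]; exact hLc)
          rw [natDegree_C, hL1] at h3
          omega
        · exact hLQ (h2.trans hL'Q)

/-- **Uniform Thue / divisor lemma.** -/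
theorem thue_count (k : ℕ) (ε : ℝ) (hε : 0 < ε) : ∃ A : ℝ, 1 ≤ A ∧
    ∀ (P : ℤ[X]) (T : ℝ), 1 ≤ T → P.natDegree ≤ k → (∀ i, |(P.coeff i : ℝ)| ≤ T) →
      (¬ ∃ c a b : ℤ, ∀ u v : ℤ, hf P k u v = c * (a * u + b * v) ^ k) →
      ∀ R : ℤ, R ≠ 0 → |(R : ℝ)| ≤ T → ∀ S : Finset (ℤ × ℤ),
        (∀ s ∈ S, |(s.1 : ℝ)| ≤ T ∧ |(s.2 : ℝ)| ≤ T ∧ hf P k s.1 s.2 ∣ R) →
        (S.card : ℝ) ≤ A * T ^ ε := by
  classical
  choose A hA1 hA using fun d : ℕ => irr_count d ε hε
  obtain ⟨D, hD0, hD⟩ := Pool.Agent.Lib.MP0b15c0.divisor_bound (ε := ε / 2) (by linarith)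
  have hsum : ∀ d ∈ Finset.range (k + 1), A d ≤ ∑ d ∈ Finset.range (k + 1), A d := by
    intro d hd
    exact Finset.single_le_sum (f := A) (fun i _ => (zero_le_one.trans (hA1 i))) hd
  refine ⟨(∑ d ∈ Finset.range (k + 1), A d) + (2 * D) ^ 2 + 1, ?_, ?_⟩
  · have h1 : (0 : ℝ) ≤ ∑ d ∈ Finset.range (k + 1), A d :=
      Finset.sum_nonneg (fun i _ => (zero_le_one.trans (hA1 i)))
    have h2 : (0 : ℝ) ≤ (2 * D) ^ 2 := by positivity
    linarith
  intro P T hT hk hcoef hnot R hR hRT S hS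
  have hT0 : 0 < T := by linarith
  have hTe : 0 ≤ T ^ ε := by positivity
  have hsum0 : (0 : ℝ) ≤ ∑ d ∈ Finset.range (k + 1), A d :=
    Finset.sum_nonneg (fun i _ => (zero_le_one.trans (hA1 i)))
  have hP : P ≠ 0 := by
    rintro rfl
    exact hnot ⟨0, 0, 0, fun u v => by unfold hf; simp⟩
  by_cases hex : ∃ Q : ℤ[X], Irreducible Q ∧ Q ∣ P ∧ 2 ≤ Q.natDegree
  · obtain ⟨Q, hQ, hQP, hQ2⟩ := hex
    have hQk : Q.natDegree ≤ k := (natDegree_le_of_dvd hQP hP).trans hk
    have h1 := hA Q.natDegree Q T hT hQ rfl hQ2 (by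
        obtain ⟨Q', rfl⟩ := hQP
        have h2 : (Q * Q').leadingCoeff = Q.leadingCoeff * Q'.leadingCoeff := leadingCoeff_mul _ _
        have h3 : |((Q * Q').leadingCoeff : ℝ)| ≤ T := hcoef _
        rw [h2] at h3
        push_cast at h3
        rw [abs_mul] at h3
        have h4 : (1 : ℝ) ≤ |(Q'.leadingCoeff : ℝ)| := by
          have := Int.one_le_abs (leadingCoeff_ne_zero.2 (right_ne_zero_of_mul hP))
          exact_mod_cast this
        have h5 : 0 ≤ |(Q.leadingCoeff : ℝ)| := abs_nonneg _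
        nlinarith) (by
        intro z hz
        refine root_bound P hP T hT hcoef z ?_
        obtain ⟨Q', rfl⟩ := hQP
        rw [map_mul, hz, zero_mul]) R hR hRT S (by
        intro s hs
        obtain ⟨h2, h3, h4⟩ := hS s hs
        refine ⟨h2, h3, dvd_trans ?_ h4⟩
        obtain ⟨Q', rfl⟩ := hQP
        have hQ'0 : Q' ≠ 0 := right_ne_zero_of_mul hP
        have hd : Q'.natDegree ≤ k - Q.natDegree := by
          rw [natDegree_mul hQ.ne_zero hQ'0] at hk; omega
        have : k = Q.natDegree + (k - Q.natDegree) := by omega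
        rw [this, hf_mul Q Q' Q.natDegree (k - Q.natDegree) le_rfl hd]
        exact Dvd.intro _ rfl)
    refine h1.trans (mul_le_mul_of_nonneg_right ?_ hTe)
    have h2 := hsum Q.natDegree (Finset.mem_range.2 (by omega))
    have h3 : (0 : ℝ) ≤ (2 * D) ^ 2 := by positivity
    linarith
  · push Not at hex
    rcases linear_dichotomy k P hP hk (fun Q hQ hQP => by
      have := hex Q hQ hQP; omega) with h | ⟨a, b, a', b', hdet, hdv⟩
    · exact absurd h hnot
    · have h1 := two_forms a b a' b' hdet R hR S (fun s hs =>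
        ⟨(hdv s.1 s.2).1.trans (hS s hs).2.2, (hdv s.1 s.2).2.trans (hS s hs).2.2⟩)
      have h2 : ((R.natAbs.divisors.card : ℕ) : ℝ) ≤ D * T ^ (ε / 2) := by
        refine (hD R.natAbs (Int.natAbs_ne_zero.2 hR)).trans ?_
        refine mul_le_mul_of_nonneg_left ?_ hD0.le
        refine Real.rpow_le_rpow (by positivity) ?_ (by linarith)
        rw [Nat.cast_natAbs]; push_cast; exact hRT
      have h3 : (S.card : ℝ) ≤ (2 * ((R.natAbs.divisors.card : ℕ) : ℝ)) ^ 2 := by exact_mod_cast h1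
      have h4 : (T ^ (ε / 2)) ^ 2 = T ^ ε := by
        rw [← Real.rpow_natCast, ← Real.rpow_mul hT0.le]; norm_num
      calc (S.card : ℝ) ≤ (2 * ((R.natAbs.divisors.card : ℕ) : ℝ)) ^ 2 := h3
        _ ≤ (2 * (D * T ^ (ε / 2))) ^ 2 := by
            refine pow_le_pow_left₀ (by positivity) ?_ 2
            linarith
        _ = (2 * D) ^ 2 * T ^ ε := by rw [← h4]; ring
        _ ≤ _ := by
            refine mul_le_mul_of_nonneg_right ?_ hTe
            linarith

end Pool.Agent.SQF4
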