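import Mathlib

/-!
# Squarefree values: reduction of the density to a tail bound

For `f` in `ℤ[X]` whose image in `ℚ[X]` is separable, if the number of `n ≤ N` such that `p ^ 2`
divides `f n` for some prime `p > N` is `o(N)`, then the density of `n` with `f n / d` squarefree
is the Euler product.
-/

set_option autoImplicit false

open Polynomial Filter Topology

namespace Pool.Agent.SQF4

/-- number of residue classes `v` modulo `m` with `m ∣ f v` -/
noncomputable def rho (f : ℤ[X]) (m : ℕ) : ℕ :=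
  Nat.card {v : Fin m // (m : ℤ) ∣ f.eval ((v : ℕ) : ℤ)}

/-- number of `n` in `[1, N]` such that `p ^ 2 ∣ f n` for some prime `p > N` -/
noncomputable def tailCount (f : ℤ[X]) (N : ℕ) : ℕ :=
  Nat.card {n : ℕ // 1 ≤ n ∧ n ≤ N ∧ ∃ p : ℕ, p.Prime ∧ N < p ∧ (p : ℤ) ^ 2 ∣ f.eval (n : ℤ)}

lemma dvd_iff (f : ℤ[X]) (m : ℕ) (n : ℤ) :
    (m : ℤ) ∣ f.eval n ↔ (f.map (Int.castRingHom (ZMod m))).eval (n : ZMod m) = 0 := by
  rw [Polynomial.eval_intCast_map]
  simp [← ZMod.intCast_zmod_eq_zero_iff_dvd]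

/-- the bad residues -/
def Bd (f : ℤ[X]) (m : ℕ) : Set (ZMod m) := {x | (f.map (Int.castRingHom (ZMod m))).eval x = 0}

lemma card_Bd (f : ℤ[X]) (m : ℕ) [NeZero m] : Nat.card (Bd f m) = rho f m := by
  obtain ⟨k, rfl⟩ : ∃ k, m = k + 1 := ⟨m - 1, by have := NeZero.pos m; omega⟩
  unfold rho
  refine Nat.card_congr (Equiv.subtypeEquiv (show ZMod (k + 1) ≃ Fin (k + 1) from Equiv.refl _) ?_)
  intro v
  have h : (((ZMod.val v : ℕ) : ℤ) : ZMod (k + 1)) = v := by
    rw [Int.cast_natCast, ZMod.natCast_zmod_val]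
  have := dvd_iff f (k + 1) ((ZMod.val v : ℕ) : ℤ)
  rw [h] at this
  exact this.symm

lemma card_res (M : ℕ) [NeZero M] (x : ZMod M) (N : ℕ) :
    |((((Finset.Ioc 0 N).filter (fun n : ℕ => (n : ZMod M) = x)).card : ℝ)) - (N : ℝ) / M| ≤ 1 := by
  have hM : 0 < M := NeZero.pos M
  have h1 : (Finset.Ioc 0 N).filter (fun n : ℕ => (n : ZMod M) = x) =
      (Finset.Ioc 0 N).filter (fun n : ℕ => n ≡ x.val [MOD M]) := by
    apply Finset.filter_congr
    intro n _
    rw [← ZMod.natCast_eq_natCast_iff, ZMod.natCast_zmod_val]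
  rw [h1]
  have h2 := Nat.Ioc_filter_modEq_card (a := 0) (b := N) hM (v := x.val)
  have h3 : (((((Finset.Ioc 0 N).filter (fun n : ℕ => n ≡ x.val [MOD M])).card : ℤ)) : ℝ) =
      ((max (⌊((N : ℕ) - (x.val : ℕ) : ℚ) / M⌋ - ⌊((0 : ℕ) - (x.val : ℕ) : ℚ) / M⌋) 0 : ℤ) : ℝ) := by
    rw [← h2]
  have h4 : ((((Finset.Ioc 0 N).filter (fun n : ℕ => n ≡ x.val [MOD M])).card : ℝ)) =
      (((((Finset.Ioc 0 N).filter (fun n : ℕ => n ≡ x.val [MOD M])).card : ℤ)) : ℝ) := by
    simp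
  rw [h4, h3]
  set u : ℚ := ((N : ℕ) - (x.val : ℕ) : ℚ) / M with hu
  set w : ℚ := ((0 : ℕ) - (x.val : ℕ) : ℚ) / M with hw
  have huw : u - w = (N : ℚ) / M := by
    rw [hu, hw]; push_cast; ring
  have hMq : (0 : ℚ) < M := by exact_mod_cast hM
  have hle : w ≤ u := by
    have : (0 : ℚ) ≤ (N : ℚ) / M := by positivity
    linarith
  have hfl : ⌊w⌋ ≤ ⌊u⌋ := Int.floor_le_floor hle
  rw [max_eq_left (by omega)]
  have e1 := Int.floor_le u
  have e2 := Int.lt_floor_add_one u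
  have e3 := Int.floor_le w
  have e4 := Int.lt_floor_add_one w
  have key : |(((⌊u⌋ - ⌊w⌋ : ℤ) : ℚ)) - (N : ℚ) / M| ≤ 1 := by
    push_cast
    rw [abs_le]
    constructor <;> linarith
  have := (Rat.cast_le (K := ℝ)).2 key
  push_cast at this ⊢
  exact this

/-- density of a periodic set -/
lemma dens (M : ℕ) [NeZero M] (S : Set (ZMod M)) :
    Tendsto (fun N : ℕ => (Nat.card {n : ℕ // 1 ≤ n ∧ n ≤ N ∧ (n : ZMod M) ∈ S} : ℝ) / N) atTop
      (𝓝 ((Nat.card S : ℝ) / M)) := by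
  classical
  have hM : 0 < M := NeZero.pos M
  have hcard : ∀ N : ℕ, (Nat.card {n : ℕ // 1 ≤ n ∧ n ≤ N ∧ (n : ZMod M) ∈ S} : ℝ) =
      ∑ x ∈ S.toFinset, (((Finset.Ioc 0 N).filter (fun n : ℕ => (n : ZMod M) = x)).card : ℝ) := by
    intro N
    have h1 : Nat.card {n : ℕ // 1 ≤ n ∧ n ≤ N ∧ (n : ZMod M) ∈ S} =
        ((Finset.Ioc 0 N).filter (fun n : ℕ => (n : ZMod M) ∈ S.toFinset)).card := by
      refine Nat.subtype_card _ ?_
      intro n
      simp only [Finset.mem_filter, Finset.mem_Ioc, Set.mem_toFinset]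
      constructor
      · rintro ⟨⟨h1, h2⟩, h3⟩; exact ⟨h1, h2, h3⟩
      · rintro ⟨h1, h2, h3⟩; exact ⟨⟨h1, h2⟩, h3⟩
    rw [h1]
    have h2 := Finset.card_eq_sum_card_fiberwise (s := (Finset.Ioc 0 N).filter
      (fun n : ℕ => (n : ZMod M) ∈ S.toFinset)) (t := S.toFinset) (f := fun n : ℕ => (n : ZMod M))
      (by intro n hn; exact (Finset.mem_filter.1 hn).2)
    rw [h2]
    push_cast
    refine Finset.sum_congr rfl ?_
    intro x hx
    congr 2
    ext n
    simp only [Finset.mem_filter]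
    constructor
    · rintro ⟨⟨h1, h2⟩, h3⟩; exact ⟨h1, h3⟩
    · rintro ⟨h1, h3⟩; exact ⟨⟨h1, by rw [h3]; exact hx⟩, h3⟩
  have hbound : ∀ N : ℕ, |(Nat.card {n : ℕ // 1 ≤ n ∧ n ≤ N ∧ (n : ZMod M) ∈ S} : ℝ) -
      (N : ℝ) / M * Nat.card S| ≤ M := by
    intro N
    rw [hcard N]
    have hS : (Nat.card S : ℝ) = ∑ x ∈ S.toFinset, (1 : ℝ) := by
      rw [Finset.sum_const, nsmul_eq_mul, mul_one, Nat.card_eq_fintype_card, Set.toFinset_card]
    rw [hS, Finset.mul_sum, ← Finset.sum_sub_distrib]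
    refine (Finset.abs_sum_le_sum_abs _ _).trans ?_
    refine (Finset.sum_le_card_nsmul _ _ 1 ?_).trans ?_
    · intro x _
      rw [mul_one]
      exact card_res M x N
    · rw [nsmul_eq_mul, mul_one]
      have : S.toFinset.card ≤ Fintype.card (ZMod M) := Finset.card_le_univ _
      rw [ZMod.card] at this
      exact_mod_cast this
  have h0 : Tendsto (fun N : ℕ => (M : ℝ) / (N : ℝ)) atTop (𝓝 0) :=
    tendsto_const_div_atTop_nhds_zero_nat (M : ℝ)
  rw [tendsto_iff_dist_tendsto_zero]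
  refine squeeze_zero' (Eventually.of_forall (fun _ => dist_nonneg)) ?_ h0
  filter_upwards [eventually_gt_atTop 0] with N hN
  have hN' : (0 : ℝ) < N := by exact_mod_cast hN
  rw [Real.dist_eq]
  have : (Nat.card {n : ℕ // 1 ≤ n ∧ n ≤ N ∧ (n : ZMod M) ∈ S} : ℝ) / N - (Nat.card S : ℝ) / M =
      ((Nat.card {n : ℕ // 1 ≤ n ∧ n ≤ N ∧ (n : ZMod M) ∈ S} : ℝ) - (N : ℝ) / M * Nat.card S) / N := by
    field_simp
  rw [this, abs_div, abs_of_pos hN']
  exact div_le_div_of_nonneg_right (hbound N) hN'.le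

/-- the finite sieve -/
lemma finite_sieve (f : ℤ[X]) (s : Finset ℕ) (m : ℕ → ℕ) (hm : ∀ p ∈ s, 0 < m p)
    (hco : ∀ p ∈ s, ∀ q ∈ s, p ≠ q → (m p).Coprime (m q)) :
    Tendsto (fun N : ℕ => (Nat.card {n : ℕ // 1 ≤ n ∧ n ≤ N ∧
      ∀ p ∈ s, ¬ ((m p : ℕ) : ℤ) ∣ f.eval (n : ℤ)} : ℝ) / N) atTop
      (𝓝 (∏ p ∈ s, (1 - (rho f (m p) : ℝ) / (m p : ℝ)))) := by
  classical
  let a : s → ℕ := fun p => m p
  have ha : Pairwise (Function.onFun Nat.Coprime a) := by
    intro p q hpq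
    exact hco p p.2 q q.2 (fun h => hpq (Subtype.ext h))
  have hpos : ∀ i : s, 0 < a i := fun i => hm i i.2
  have : ∀ i : s, NeZero (a i) := fun i => ⟨(hpos i).ne'⟩
  have hM : NeZero (∏ i, a i) := ⟨(Finset.prod_pos (fun i _ => hpos i)).ne'⟩
  let e := ZMod.prodEquivPi a ha
  let S : Set (ZMod (∏ i, a i)) := {x | ∀ i, e x i ∉ Bd f (a i)}
  have hmem : ∀ n : ℕ, ((n : ZMod (∏ i, a i)) ∈ S ↔ ∀ p ∈ s, ¬ ((m p : ℕ) : ℤ) ∣ f.eval (n : ℤ)) := by
    intro n
    have h1 : ∀ i, e (n : ZMod (∏ i, a i)) i = (n : ZMod (a i)) := by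
      intro i
      rw [map_natCast]; rfl
    constructor
    · intro h p hp
      have := h ⟨p, hp⟩
      rw [h1] at this
      intro hd
      apply this
      have h2 := (dvd_iff f (m p) (n : ℤ)).1 hd
      rw [Int.cast_natCast] at h2
      exact h2
    · intro h i
      rw [h1]
      intro hd
      apply h i i.2
      rw [dvd_iff, Int.cast_natCast]
      exact hd
  have hcardS : (Nat.card S : ℝ) / ((∏ i, a i : ℕ) : ℝ) =
      ∏ p ∈ s, (1 - (rho f (m p) : ℝ) / (m p : ℝ)) := by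
    have h1 : Nat.card S = ∏ i : s, (a i - rho f (a i)) := by
      have h2 : Nat.card S = Nat.card (∀ i : s, {x : ZMod (a i) // x ∉ Bd f (a i)}) := by
        refine Nat.card_congr ?_
        refine (Equiv.subtypeEquiv (e.toEquiv) (q := fun g : (∀ i : s, ZMod (a i)) =>
          ∀ i, g i ∉ Bd f (a i)) ?_).trans ?_
        · intro x; rfl
        · exact Equiv.subtypePiEquivPi (p := fun (i : s) (x : ZMod (a i)) => x ∉ Bd f (a i))
      rw [h2, Nat.card_pi]
      refine Finset.prod_congr rfl ?_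
      intro i _
      have h3 : Nat.card {x : ZMod (a i) // x ∉ Bd f (a i)} + Nat.card (Bd f (a i)) = a i := by
        have h4 := Set.ncard_add_ncard_compl (Bd f (a i))
        rw [Nat.card_zmod] at h4
        have h5 : Nat.card {x : ZMod (a i) // x ∉ Bd f (a i)} = (Bd f (a i))ᶜ.ncard := by
          rw [← Nat.card_coe_set_eq]; rfl
        rw [h5, Nat.card_coe_set_eq]; omega
      rw [card_Bd] at h3
      omega
    have hle : ∀ i : s, rho f (a i) ≤ a i := by
      intro i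
      rw [← card_Bd]
      calc Nat.card (Bd f (a i)) ≤ Nat.card (ZMod (a i)) := Nat.card_le_card_of_injective _ Subtype.val_injective
        _ = a i := Nat.card_zmod _
    rw [h1]
    push_cast
    rw [← Finset.prod_div_distrib]
    rw [← Finset.prod_coe_sort s (fun p => (1 - (rho f (m p) : ℝ) / (m p : ℝ)))]
    refine Finset.prod_congr rfl ?_
    intro i _
    rw [Nat.cast_sub (hle i)]
    have : (0 : ℝ) < (a i : ℝ) := by exact_mod_cast hpos i
    rw [sub_div, div_self this.ne']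
  rw [← hcardS]
  have := dens (∏ i, a i) S
  refine this.congr ?_
  intro N
  congr 2
  refine Nat.card_congr (Equiv.subtypeEquivRight ?_)
  intro n
  rw [hmem n]

/-- Bezout relation over `ℤ` from separability over `ℚ` -/
lemma exists_bezout (f : ℤ[X]) (hsep : (f.map (Int.castRingHom ℚ)).Separable) :
    ∃ (a b : ℤ[X]) (R : ℤ), R ≠ 0 ∧ a * f + b * derivative f = C R := by
  obtain ⟨a, b, hab⟩ := hsep
  obtain ⟨Da, hDa0, hDa⟩ := IsLocalization.integerNormalization_spec (nonZeroDivisors ℤ) a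
  obtain ⟨Db, hDb0, hDb⟩ := IsLocalization.integerNormalization_spec (nonZeroDivisors ℤ) b
  set a' := IsLocalization.integerNormalization (nonZeroDivisors ℤ) a
  set b' := IsLocalization.integerNormalization (nonZeroDivisors ℤ) b
  refine ⟨C (Db : ℤ) * a', C (Da : ℤ) * b', (Da : ℤ) * (Db : ℤ), ?_, ?_⟩
  · exact mul_ne_zero (nonZeroDivisors.ne_zero hDa0) (nonZeroDivisors.ne_zero hDb0)
  · apply Polynomial.map_injective (Int.castRingHom ℚ) (RingHom.injective_int _)
    have e1 : a'.map (Int.castRingHom ℚ) = C ((Da : ℤ) : ℚ) * a := by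
      have : a'.map (algebraMap ℤ ℚ) = ((Da : ℤ)) • a := by
        rw [hDa]; 
      rw [show Int.castRingHom ℚ = algebraMap ℤ ℚ from rfl, this]
      ext n; simp
    have e2 : b'.map (Int.castRingHom ℚ) = C ((Db : ℤ) : ℚ) * b := by
      have : b'.map (algebraMap ℤ ℚ) = ((Db : ℤ)) • b := by
        rw [hDb]; 
      rw [show Int.castRingHom ℚ = algebraMap ℤ ℚ from rfl, this]
      ext n; simp
    simp only [Polynomial.map_add, Polynomial.map_mul, Polynomial.map_C, e1, e2]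
    rw [derivative_map] at hab
    have : C ((Int.castRingHom ℚ) (Db : ℤ)) * (C ((Da : ℤ) : ℚ) * a) * (f.map (Int.castRingHom ℚ)) +
        C ((Int.castRingHom ℚ) (Da : ℤ)) * (C ((Db : ℤ) : ℚ) * b) *
          ((derivative f).map (Int.castRingHom ℚ)) =
        C ((Da : ℤ) : ℚ) * C ((Db : ℤ) : ℚ) * (a * (f.map (Int.castRingHom ℚ)) +
          b * ((derivative f).map (Int.castRingHom ℚ))) := by
      simp only [eq_intCast]
      ring
    rw [this, hab, mul_one, ← C_mul]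
    simp

/-- at most `deg f` residues modulo `p ^ 2` -/
lemma rho_sq_le (f a b : ℤ[X]) (R : ℤ) (h : a * f + b * derivative f = C R) (p : ℕ)
    (hp : p.Prime) (hpR : ¬ (p : ℤ) ∣ R) : rho f (p ^ 2) ≤ f.natDegree := by
  classical
  have : Fact p.Prime := ⟨hp⟩
  set g : (ZMod p)[X] := f.map (Int.castRingHom (ZMod p)) with hg
  have hg0 : g ≠ 0 := by
    intro h0
    apply hpR
    have h1 : (C R : ℤ[X]).map (Int.castRingHom (ZMod p)) = 0 := by
      rw [← h, Polynomial.map_add, Polynomial.map_mul, Polynomial.map_mul, ← hg, h0,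
        ← derivative_map, ← hg, h0]
      simp
    rw [map_C] at h1
    have h2 := C_eq_zero.1 h1
    rw [eq_intCast] at h2
    exact (ZMod.intCast_zmod_eq_zero_iff_dvd R p).1 h2
  have hder : ∀ x : ℤ, (p : ℤ) ∣ f.eval x → ¬ (p : ℤ) ∣ (derivative f).eval x := by
    intro x h1 h2
    apply hpR
    have h3 : R = a.eval x * f.eval x + b.eval x * (derivative f).eval x := by
      have := congrArg (fun q => Polynomial.eval x q) h
      simpa using this.symm
    rw [h3]
    exact dvd_add (Dvd.dvd.mul_left h1 _) (Dvd.dvd.mul_left h2 _)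
  have hle : g.roots.toFinset.card ≤ f.natDegree :=
    (Multiset.toFinset_card_le _).trans ((card_roots' g).trans (natDegree_map_le))
  refine le_trans ?_ hle
  unfold rho
  let F : {v : Fin (p ^ 2) // ((p ^ 2 : ℕ) : ℤ) ∣ f.eval ((v : ℕ) : ℤ)} → g.roots.toFinset :=
    fun v => ⟨(((v.1 : ℕ) : ℤ) : ZMod p), by
      rw [Multiset.mem_toFinset, mem_roots hg0, IsRoot, ← dvd_iff f p]
      exact dvd_trans (by push_cast; exact Dvd.intro_left _ (by ring : (p : ℤ) * p = p ^ 2)) v.2⟩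
  have hF : Function.Injective F := by
    intro v w hvw
    have h1 : ((((v.1 : ℕ) : ℤ)) : ZMod p) = (((w.1 : ℕ) : ℤ) : ZMod p) := by
      have := congrArg (fun z : g.roots.toFinset => (z : ZMod p)) hvw
      exact this
    rw [ZMod.intCast_eq_intCast_iff_dvd_sub] at h1
    obtain ⟨k, hk⟩ := h1
    have hk' : ((w.1 : ℕ) : ℤ) = ((v.1 : ℕ) : ℤ) + (p : ℤ) * k := by linarith
    have hv := v.2
    have hw := w.2
    push_cast at hv hw
    obtain ⟨c, hc⟩ := Polynomial.binomExpansion f ((v.1 : ℕ) : ℤ) ((p : ℤ) * k)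
    rw [hk', hc] at hw
    have h2 : (p : ℤ) ^ 2 ∣ (derivative f).eval ((v.1 : ℕ) : ℤ) * ((p : ℤ) * k) := by
      have h3 : (p : ℤ) ^ 2 ∣ c * ((p : ℤ) * k) ^ 2 := ⟨c * k ^ 2, by ring⟩
      have h4 := dvd_sub (dvd_sub hw h3) hv
      have : (derivative f).eval ((v.1 : ℕ) : ℤ) * ((p : ℤ) * k) =
        f.eval ((v.1 : ℕ) : ℤ) + (derivative f).eval ((v.1 : ℕ) : ℤ) * ((p : ℤ) * k) +
          c * ((p : ℤ) * k) ^ 2 - c * ((p : ℤ) * k) ^ 2 - f.eval ((v.1 : ℕ) : ℤ) := by ring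
      rw [this]; exact h4
    have hp0 : (p : ℤ) ≠ 0 := by exact_mod_cast hp.ne_zero
    have h5 : (p : ℤ) ∣ (derivative f).eval ((v.1 : ℕ) : ℤ) * k := by
      have : (p : ℤ) * p ∣ p * ((derivative f).eval ((v.1 : ℕ) : ℤ) * k) := by
        have e : (p : ℤ) * ((derivative f).eval ((v.1 : ℕ) : ℤ) * k) =
          (derivative f).eval ((v.1 : ℕ) : ℤ) * ((p : ℤ) * k) := by ring
        rw [e, ← sq]; exact h2
      exact Int.dvd_of_mul_dvd_mul_left hp0 this
    have hpp : Prime (p : ℤ) := Nat.prime_iff_prime_int.1 hp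
    have h6 : (p : ℤ) ∣ k := by
      rcases hpp.dvd_or_dvd h5 with h | h
      · exfalso
        exact hder _ (dvd_trans (Dvd.intro_left _ (by ring : (p : ℤ) * p = p ^ 2)) hv) h
      · exact h
    obtain ⟨j, hj⟩ := h6
    have h7 : ((w.1 : ℕ) : ℤ) = ((v.1 : ℕ) : ℤ) + (p : ℤ) ^ 2 * j := by rw [hk', hj]; ring
    have h8 : ((v.1 : ℕ)) < p ^ 2 := v.1.2
    have h9 : ((w.1 : ℕ)) < p ^ 2 := w.1.2
    have h10 : (((w.1 : ℕ) : ℤ)) % (p : ℤ) ^ 2 = (((v.1 : ℕ) : ℤ)) % (p : ℤ) ^ 2 := by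
      rw [h7, Int.add_mul_emod_self_left]
    rw [Int.emod_eq_of_lt (by positivity) (by exact_mod_cast h9),
      Int.emod_eq_of_lt (by positivity) (by exact_mod_cast h8)] at h10
    apply Subtype.ext
    apply Fin.ext
    exact_mod_cast h10.symm
  have := Nat.card_le_card_of_injective F hF
  rw [Nat.card_eq_fintype_card (α := g.roots.toFinset), Fintype.card_coe] at this
  exact this

/-- the number of `n ≤ N` with `m ∣ f n` -/
lemma count_le (f : ℤ[X]) (m : ℕ) (hm : 0 < m) (N : ℕ) :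
    (Nat.card {n : ℕ // 1 ≤ n ∧ n ≤ N ∧ (m : ℤ) ∣ f.eval (n : ℤ)} : ℝ) ≤
      rho f m * ((N : ℝ) / m + 1) := by
  classical
  have : NeZero m := ⟨hm.ne'⟩
  have h1 : Nat.card {n : ℕ // 1 ≤ n ∧ n ≤ N ∧ (m : ℤ) ∣ f.eval (n : ℤ)} =
      ((Finset.Ioc 0 N).filter (fun n : ℕ => (n : ZMod m) ∈ (Bd f m).toFinset)).card := by
    refine Nat.subtype_card _ ?_
    intro n
    simp only [Finset.mem_filter, Finset.mem_Ioc, Set.mem_toFinset]
    have h2 := dvd_iff f m (n : ℤ)
    rw [Int.cast_natCast] at h2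
    constructor
    · rintro ⟨⟨h3, h4⟩, h5⟩; exact ⟨h3, h4, h2.2 h5⟩
    · rintro ⟨h3, h4, h5⟩; exact ⟨⟨h3, h4⟩, h2.1 h5⟩
  rw [h1]
  have h2 := Finset.card_eq_sum_card_fiberwise (s := (Finset.Ioc 0 N).filter
    (fun n : ℕ => (n : ZMod m) ∈ (Bd f m).toFinset)) (t := (Bd f m).toFinset)
    (f := fun n : ℕ => (n : ZMod m)) (by intro n hn; exact (Finset.mem_filter.1 hn).2)
  rw [h2]
  push_cast
  refine (Finset.sum_le_card_nsmul _ _ ((N : ℝ) / m + 1) ?_).trans ?_
  · intro x _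
    refine le_trans ?_ (by
      have := card_res m x N
      rw [abs_le] at this
      linarith [this.2] : ((((Finset.Ioc 0 N).filter (fun n : ℕ => (n : ZMod m) = x)).card : ℝ)) ≤
        (N : ℝ) / m + 1)
    exact_mod_cast Finset.card_le_card (by
      intro n hn
      simp only [Finset.mem_filter] at hn ⊢
      exact ⟨hn.1.1, hn.2⟩)
  · rw [nsmul_eq_mul, ← card_Bd, Nat.card_eq_fintype_card, Set.toFinset_card]

lemma sum_inv_sq_le (z N : ℕ) (hz : 1 ≤ z) :
    ∑ p ∈ Finset.Ioc z N, (1 : ℝ) / (p : ℝ) ^ 2 ≤ 1 / (z : ℝ) := by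
  have := sum_Ioc_inv_sq_le_sub (α := ℝ) (k := z) (n := N) (by omega)
  rcases le_or_gt z N with h | h
  · have h2 := this h
    have h3 : (0 : ℝ) ≤ ((N : ℝ))⁻¹ := by positivity
    calc ∑ p ∈ Finset.Ioc z N, (1 : ℝ) / (p : ℝ) ^ 2 = ∑ p ∈ Finset.Ioc z N, (((p : ℝ) ^ 2)⁻¹) := by
          refine Finset.sum_congr rfl ?_
          intro x _; rw [one_div]
      _ ≤ ((z : ℝ))⁻¹ - ((N : ℝ))⁻¹ := h2
      _ ≤ 1 / (z : ℝ) := by rw [one_div]; linarith
  · rw [Finset.Ioc_eq_empty (by omega), Finset.sum_empty]; positivity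

lemma pi_div_tendsto : Tendsto (fun N : ℕ => (Nat.primeCounting N : ℝ) / N) atTop (𝓝 0) := by
  have h1 : Tendsto (fun x : ℝ => Real.log 4 / Real.log (√x) + 1 / √x) atTop (𝓝 0) := by
    have a1 : Tendsto (fun x : ℝ => Real.log (√x)) atTop atTop :=
      Real.tendsto_log_atTop.comp Real.tendsto_sqrt_atTop
    have a2 : Tendsto (fun x : ℝ => Real.log 4 / Real.log (√x)) atTop (𝓝 0) :=
      a1.const_div_atTop _
    have a3 : Tendsto (fun x : ℝ => 1 / √x) atTop (𝓝 0) :=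
      Real.tendsto_sqrt_atTop.const_div_atTop _
    simpa using a2.add a3
  have h2 := h1.comp (tendsto_natCast_atTop_atTop (R := ℝ))
  refine squeeze_zero' (Eventually.of_forall (fun N => by positivity)) ?_ h2
  filter_upwards [eventually_gt_atTop 1] with N hN
  have hN1 : (1 : ℝ) < N := by exact_mod_cast hN
  have h3 := Chebyshev.pi_le_log4_mul_div hN1
  rw [Nat.floor_natCast] at h3
  simp only [Function.comp]
  have hN0 : (0 : ℝ) < N := by linarith
  calc (Nat.primeCounting N : ℝ) / N ≤ (Real.log 4 * N / Real.log √(N : ℝ) + √(N : ℝ)) / N :=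
        div_le_div_of_nonneg_right h3 hN0.le
    _ = Real.log 4 / Real.log √(N : ℝ) + 1 / √(N : ℝ) := by
        rw [add_div]
        congr 1
        · field_simp
        · have : (N : ℝ) = √(N : ℝ) * √(N : ℝ) := (Real.mul_self_sqrt hN0.le).symm
          have h4 : √(N : ℝ) ≠ 0 := (Real.sqrt_pos.2 hN0).ne'
          nth_rewrite 2 [this]
          field_simp

/-- squarefreeness of `f n / d` in terms of the moduli `p ^ (2 + ν p)` -/
lemma sqf_iff (δ : ℕ) (hδ0 : δ ≠ 0) (y : ℤ) (hy : (δ : ℤ) ∣ y) :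
    Squarefree (y / ((∏ p ∈ δ.primeFactors, p ^ (δ.factorization p - 1) : ℕ) : ℤ)) ↔
      ∀ p : ℕ, p.Prime → ¬ (((p ^ (2 + (δ.factorization p - 1)) : ℕ)) : ℤ) ∣ y := by
  set d : ℕ := ∏ p ∈ δ.primeFactors, p ^ (δ.factorization p - 1) with hd
  have hdδ : d ∣ δ := by
    have h0 : δ = ∏ p ∈ δ.primeFactors, p ^ (δ.factorization p) := by
      conv_lhs => rw [← Nat.prod_factorization_pow_eq_self hδ0]
      rw [Nat.prod_factorization_eq_prod_primeFactors]
    have h1 : d ∣ ∏ p ∈ δ.primeFactors, p ^ (δ.factorization p) :=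
      Finset.prod_dvd_prod_of_dvd _ _ (fun p _ => pow_dvd_pow p (Nat.sub_le _ _))
    rw [← h0] at h1
    exact h1
  have hd0 : d ≠ 0 := fun h => hδ0 (by rw [h] at hdδ; exact zero_dvd_iff.1 hdδ)
  obtain ⟨w, hw⟩ : (d : ℤ) ∣ y := (Int.natCast_dvd_natCast.2 hdδ).trans hy
  have hdz : (d : ℤ) ≠ 0 := by exact_mod_cast hd0
  have hdiv : y / (d : ℤ) = w := by rw [hw]; exact Int.mul_ediv_cancel_left _ hdz
  rw [hdiv, ← Int.squarefree_natAbs, Nat.squarefree_iff_prime_squarefree]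
  refine forall_congr' ?_
  intro q
  refine forall_congr' ?_
  intro hq
  rw [not_iff_not]
  -- `d = q ^ ν * d'`
  obtain ⟨d', hd', hqd'⟩ : ∃ d', d = q ^ (δ.factorization q - 1) * d' ∧ Nat.Coprime q d' := by
    by_cases hmem : q ∈ δ.primeFactors
    · refine ⟨∏ p ∈ δ.primeFactors.erase q, p ^ (δ.factorization p - 1), ?_, ?_⟩
      · exact (Finset.mul_prod_erase _ (fun p => p ^ (δ.factorization p - 1)) hmem).symm
      · apply Nat.Coprime.prod_right
        intro p hp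
        have h1 := Finset.mem_erase.1 hp
        exact Nat.Coprime.pow_right _ ((Nat.coprime_primes hq (Nat.prime_of_mem_primeFactors h1.2)).2
          (fun h => h1.1 h.symm))
    · refine ⟨d, ?_, ?_⟩
      · have : δ.factorization q = 0 := by
          apply Nat.factorization_eq_zero_of_not_dvd
          intro h
          exact hmem (Nat.mem_primeFactors.2 ⟨hq, h, hδ0⟩)
        rw [this]; simp
      · rw [Nat.Prime.coprime_iff_not_dvd hq]
        intro h
        exact hmem (Nat.mem_primeFactors.2 ⟨hq, h.trans hdδ, hδ0⟩)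
  set ν := δ.factorization q - 1
  have hqz : ((q : ℤ)) ^ ν ≠ 0 := pow_ne_zero _ (by exact_mod_cast hq.ne_zero)
  have hcop : IsCoprime ((q : ℤ) * q) (d' : ℤ) := by
    have : IsCoprime (q : ℤ) (d' : ℤ) := Nat.isCoprime_iff_coprime.2 hqd'
    exact this.mul_left this
  constructor
  · intro h
    have h1 : ((q : ℤ) * q) ∣ w := by
      rw [← Int.natAbs_dvd_natAbs]
      rw [Int.natAbs_mul, Int.natAbs_natCast]; exact h
    rw [hw, hd']
    push_cast
    have : (q : ℤ) ^ (2 + ν) = (q : ℤ) ^ ν * (q * q) := by ring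
    rw [this, mul_assoc]
    exact mul_dvd_mul_left _ (Dvd.dvd.mul_left h1 _)
  · intro h
    rw [hw, hd'] at h
    push_cast at h
    have : (q : ℤ) ^ (2 + ν) = (q : ℤ) ^ ν * (q * q) := by ring
    rw [this, mul_assoc] at h
    have h1 := (mul_dvd_mul_iff_left hqz).1 h
    have h2 := hcop.dvd_of_dvd_mul_left h1
    rw [← Int.natAbs_dvd_natAbs] at h2
    rw [Int.natAbs_mul, Int.natAbs_natCast] at h2; exact h2

/-- the exponent `ν p` -/
def nu (δ p : ℕ) : ℕ := δ.factorization p - 1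

/-- the number of `n ≤ N` with `f n / d` squarefree -/
noncomputable def goodCount (f : ℤ[X]) (δ N : ℕ) : ℕ :=
  Nat.card {n : ℕ // 1 ≤ n ∧ n ≤ N ∧
    Squarefree (f.eval (n : ℤ) / ((∏ p ∈ δ.primeFactors, p ^ (δ.factorization p - 1) : ℕ) : ℤ))}

/-- the local factor -/
noncomputable def loc (f : ℤ[X]) (δ p : ℕ) : ℝ :=
  1 - (rho f (p ^ (2 + (δ.factorization p - 1))) : ℝ) / ((p : ℝ) ^ (2 + (δ.factorization p - 1)))

lemma sieve_bounds (f : ℤ[X]) (δ : ℕ) (hδ0 : δ ≠ 0) (hδ : ∀ v : ℤ, (δ : ℤ) ∣ f.eval v)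
    (k z : ℕ) (hz : 1 ≤ z) (hk : ∀ p : ℕ, p.Prime → z < p → rho f (p ^ 2) ≤ k) (N : ℕ) :
    ((goodCount f δ N : ℝ) ≤ (Nat.card {n : ℕ // 1 ≤ n ∧ n ≤ N ∧
      ∀ p ∈ (Finset.range (z + 1)).filter Nat.Prime,
        ¬ ((p ^ (2 + (δ.factorization p - 1)) : ℕ) : ℤ) ∣ f.eval (n : ℤ)} : ℝ)) ∧
    ((Nat.card {n : ℕ // 1 ≤ n ∧ n ≤ N ∧
      ∀ p ∈ (Finset.range (z + 1)).filter Nat.Prime,
        ¬ ((p ^ (2 + (δ.factorization p - 1)) : ℕ) : ℤ) ∣ f.eval (n : ℤ)} : ℝ) ≤
      goodCount f δ N + tailCount f N + k * ((N : ℝ) / z + Nat.primeCounting N)) := by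
  classical
  set G := (Finset.Ioc 0 N).filter (fun n : ℕ =>
    ∀ p : ℕ, p.Prime → ¬ (((p ^ (2 + (δ.factorization p - 1)) : ℕ)) : ℤ) ∣ f.eval (n : ℤ)) with hG
  set A := (Finset.Ioc 0 N).filter (fun n : ℕ => ∀ p ∈ (Finset.range (z + 1)).filter Nat.Prime,
        ¬ ((p ^ (2 + (δ.factorization p - 1)) : ℕ) : ℤ) ∣ f.eval (n : ℤ)) with hA
  set T := (Finset.Ioc 0 N).filter (fun n : ℕ => ∃ p : ℕ, p.Prime ∧ N < p ∧
    (p : ℤ) ^ 2 ∣ f.eval (n : ℤ)) with hT
  have cG : goodCount f δ N = G.card := by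
    refine Nat.subtype_card _ ?_
    intro n
    simp only [hG, Finset.mem_filter, Finset.mem_Ioc]
    rw [sqf_iff δ hδ0 _ (hδ n)]
    constructor
    · rintro ⟨⟨h3, h4⟩, h5⟩; exact ⟨h3, h4, h5⟩
    · rintro ⟨h3, h4, h5⟩; exact ⟨⟨h3, h4⟩, h5⟩
  have cA : Nat.card {n : ℕ // 1 ≤ n ∧ n ≤ N ∧
      ∀ p ∈ (Finset.range (z + 1)).filter Nat.Prime,
        ¬ ((p ^ (2 + (δ.factorization p - 1)) : ℕ) : ℤ) ∣ f.eval (n : ℤ)} = A.card := by
    refine Nat.subtype_card _ ?_
    intro n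
    simp only [hA, Finset.mem_filter, Finset.mem_Ioc]
    constructor
    · rintro ⟨⟨h3, h4⟩, h5⟩; exact ⟨h3, h4, h5⟩
    · rintro ⟨h3, h4, h5⟩; exact ⟨⟨h3, h4⟩, h5⟩
  have cT : tailCount f N = T.card := by
    refine Nat.subtype_card _ ?_
    intro n
    simp only [hT, Finset.mem_filter, Finset.mem_Ioc]
    constructor
    · rintro ⟨⟨h3, h4⟩, h5⟩; exact ⟨h3, h4, h5⟩
    · rintro ⟨h3, h4, h5⟩; exact ⟨⟨h3, h4⟩, h5⟩
  rw [cG, cA, cT]
  constructor
  · exact_mod_cast Finset.card_le_card (by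
      intro n hn
      simp only [hG, hA, Finset.mem_filter] at hn ⊢
      exact ⟨hn.1, fun p hp => hn.2 p hp.2⟩)
  · set P := (Finset.Ioc z N).filter Nat.Prime with hP
    have hsub : A ⊆ (G ∪ T) ∪ P.biUnion (fun p => (Finset.Ioc 0 N).filter
        (fun n : ℕ => ((p ^ 2 : ℕ) : ℤ) ∣ f.eval (n : ℤ))) := by
      intro n hn
      by_cases hg : n ∈ G
      · exact Finset.mem_union_left _ (Finset.mem_union_left _ hg)
      · have hn1 := (Finset.mem_filter.1 hn)
        have : ∃ p : ℕ, p.Prime ∧ (((p ^ (2 + (δ.factorization p - 1)) : ℕ)) : ℤ) ∣ f.eval (n : ℤ) := by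
          by_contra hcon
          apply hg
          rw [hG, Finset.mem_filter]
          refine ⟨hn1.1, ?_⟩
          intro p hp hd
          exact hcon ⟨p, hp, hd⟩
        obtain ⟨p, hp, hd⟩ := this
        have hzp : z < p := by
          by_contra hle
          exact hn1.2 p (Finset.mem_filter.2 ⟨Finset.mem_range.2 (by omega), hp⟩) hd
        have hp2 : ((p ^ 2 : ℕ) : ℤ) ∣ f.eval (n : ℤ) :=
          dvd_trans (Int.natCast_dvd_natCast.2 (pow_dvd_pow p (Nat.le_add_right 2 _))) hd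
        by_cases hpN : p ≤ N
        · refine Finset.mem_union_right _ (Finset.mem_biUnion.2 ⟨p, ?_, ?_⟩)
          · exact Finset.mem_filter.2 ⟨Finset.mem_Ioc.2 ⟨hzp, hpN⟩, hp⟩
          · exact Finset.mem_filter.2 ⟨hn1.1, hp2⟩
        · refine Finset.mem_union_left _ (Finset.mem_union_right _ ?_)
          refine Finset.mem_filter.2 ⟨hn1.1, p, hp, by omega, ?_⟩
          push_cast at hp2; exact hp2
    have h1 : A.card ≤ G.card + T.card + ∑ p ∈ P, ((Finset.Ioc 0 N).filter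
        (fun n : ℕ => ((p ^ 2 : ℕ) : ℤ) ∣ f.eval (n : ℤ))).card := by
      refine (Finset.card_le_card hsub).trans ?_
      refine (Finset.card_union_le _ _).trans ?_
      exact add_le_add (Finset.card_union_le _ _) Finset.card_biUnion_le
    have h2 : (∑ p ∈ P, (((Finset.Ioc 0 N).filter
        (fun n : ℕ => ((p ^ 2 : ℕ) : ℤ) ∣ f.eval (n : ℤ))).card : ℝ)) ≤
        ∑ p ∈ P, ((k : ℝ) * ((N : ℝ) * (1 / (p : ℝ) ^ 2) + 1)) := by
      refine Finset.sum_le_sum ?_
      intro p hp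
      have hp' := Finset.mem_filter.1 hp
      have hp2 := Finset.mem_Ioc.1 hp'.1
      have h3 := count_le f (p ^ 2) (pow_pos hp'.2.pos 2) N
      have h4 : Nat.card {n : ℕ // 1 ≤ n ∧ n ≤ N ∧ ((p ^ 2 : ℕ) : ℤ) ∣ f.eval (n : ℤ)} =
          ((Finset.Ioc 0 N).filter (fun n : ℕ => ((p ^ 2 : ℕ) : ℤ) ∣ f.eval (n : ℤ))).card := by
        refine Nat.subtype_card _ ?_
        intro n
        simp only [Finset.mem_filter, Finset.mem_Ioc]
        constructor
        · rintro ⟨⟨h3, h4⟩, h5⟩; exact ⟨h3, h4, h5⟩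
        · rintro ⟨h3, h4, h5⟩; exact ⟨⟨h3, h4⟩, h5⟩
      rw [h4] at h3
      refine h3.trans ?_
      have h5 : (rho f (p ^ 2) : ℝ) ≤ k := by exact_mod_cast hk p hp'.2 hp2.1
      have h6 : (N : ℝ) / ((p ^ 2 : ℕ) : ℝ) + 1 = (N : ℝ) * (1 / (p : ℝ) ^ 2) + 1 := by
        push_cast; ring
      rw [h6]
      exact mul_le_mul_of_nonneg_right h5 (by positivity)
    have h7 : ∑ p ∈ P, ((k : ℝ) * ((N : ℝ) * (1 / (p : ℝ) ^ 2) + 1)) ≤
        k * ((N : ℝ) / z + Nat.primeCounting N) := by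
      rw [← Finset.mul_sum, Finset.sum_add_distrib, ← Finset.mul_sum]
      refine mul_le_mul_of_nonneg_left ?_ (by positivity)
      refine add_le_add ?_ ?_
      · have h8 : ∑ p ∈ P, (1 : ℝ) / (p : ℝ) ^ 2 ≤ ∑ p ∈ Finset.Ioc z N, (1 : ℝ) / (p : ℝ) ^ 2 :=
          Finset.sum_le_sum_of_subset_of_nonneg (Finset.filter_subset _ _) (fun _ _ _ => by positivity)
        have h9 := h8.trans (sum_inv_sq_le z N hz)
        calc (N : ℝ) * ∑ p ∈ P, (1 : ℝ) / (p : ℝ) ^ 2 ≤ N * (1 / z) :=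
              mul_le_mul_of_nonneg_left h9 (by positivity)
          _ = (N : ℝ) / z := by ring
      · rw [Finset.sum_const, nsmul_eq_mul, mul_one]
        have h8 : P.card ≤ Nat.primeCounting N := by
          rw [Nat.primeCounting, Nat.primeCounting', Nat.count_eq_card_filter_range]
          refine Finset.card_le_card ?_
          intro p hp
          have hp' := Finset.mem_filter.1 hp
          have hp2 := Finset.mem_Ioc.1 hp'.1
          exact Finset.mem_filter.2 ⟨Finset.mem_range.2 (by omega), hp'.2⟩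
        exact_mod_cast h8
    have h1' : (A.card : ℝ) ≤ G.card + T.card + ∑ p ∈ P, (((Finset.Ioc 0 N).filter
        (fun n : ℕ => ((p ^ 2 : ℕ) : ℤ) ∣ f.eval (n : ℤ))).card : ℝ) := by exact_mod_cast h1
    linarith

/-- convergence of the Euler product -/
lemma loc_multipliable (f : ℤ[X]) (δ : ℕ) (hδ0 : δ ≠ 0) (k z : ℕ) (hzδ : δ ≤ z)
    (hk : ∀ p : ℕ, p.Prime → z < p → rho f (p ^ 2) ≤ k) :
    Multipliable (fun p : Nat.Primes => loc f δ p) := by
  have hs : Summable (fun p : Nat.Primes =>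
      -((rho f ((p : ℕ) ^ (2 + (δ.factorization p - 1))) : ℝ) /
        (((p : ℕ) : ℝ) ^ (2 + (δ.factorization p - 1))))) := by
    have h0 : Summable (fun p : Nat.Primes => ((k : ℝ) + z ^ 2) * (1 / (((p : ℕ) : ℝ) ^ 2))) := by
      refine Summable.mul_left _ ?_
      have h1 : Summable (fun n : ℕ => 1 / ((n : ℝ) ^ 2)) :=
        Real.summable_one_div_nat_pow.2 (by norm_num)
      exact h1.comp_injective (i := fun p : Nat.Primes => (p : ℕ)) Subtype.val_injective
    refine Summable.of_norm_bounded h0 ?_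
    intro p
    have hp := p.2
    have hp0 : (0 : ℝ) < ((p : ℕ) : ℝ) := by exact_mod_cast hp.pos
    rw [norm_neg, Real.norm_of_nonneg (by positivity)]
    rcases le_or_gt (p : ℕ) z with hle | hgt
    · have : NeZero ((p : ℕ) ^ (2 + (δ.factorization p - 1))) := ⟨(pow_pos hp.pos _).ne'⟩
      have h1 : rho f ((p : ℕ) ^ (2 + (δ.factorization p - 1))) ≤
          (p : ℕ) ^ (2 + (δ.factorization p - 1)) := by
        rw [← card_Bd]
        calc Nat.card (Bd f _) ≤ Nat.card (ZMod _) :=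
              Nat.card_le_card_of_injective _ Subtype.val_injective
          _ = _ := Nat.card_zmod _
      have h2 : (rho f ((p : ℕ) ^ (2 + (δ.factorization p - 1))) : ℝ) /
        (((p : ℕ) : ℝ) ^ (2 + (δ.factorization p - 1))) ≤ 1 := by
        rw [div_le_one (by positivity)]
        exact_mod_cast h1
      refine h2.trans ?_
      rw [mul_one_div, le_div_iff₀ (by positivity), one_mul]
      have h3 : ((p : ℕ) : ℝ) ≤ z := by exact_mod_cast hle
      have h4 : ((p : ℕ) : ℝ) ^ 2 ≤ (z : ℝ) ^ 2 := pow_le_pow_left₀ hp0.le h3 2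
      have : (0 : ℝ) ≤ k := by positivity
      linarith
    · have hf : δ.factorization p = 0 := by
        apply Nat.factorization_eq_zero_of_not_dvd
        intro h
        have := Nat.le_of_dvd (Nat.pos_of_ne_zero hδ0) h
        omega
      rw [hf]
      have h1 : (rho f ((p : ℕ) ^ (2 + (0 - 1))) : ℝ) ≤ k := by exact_mod_cast hk p hp hgt
      rw [mul_one_div]
      have h2 : (((p : ℕ) : ℝ) ^ (2 + (0 - 1))) = ((p : ℕ) : ℝ) ^ 2 := by norm_num
      rw [h2]
      refine div_le_div_of_nonneg_right ?_ (by positivity)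
      have : (0 : ℝ) ≤ (z : ℝ) ^ 2 := by positivity
      linarith
  have := Real.multipliable_one_add_of_summable hs
  refine this.congr ?_
  intro p
  unfold loc
  ring

/-- **Reduction.** The tail bound gives the density. -/
theorem density_of_tail (f : ℤ[X]) (hsep : (f.map (Int.castRingHom ℚ)).Separable) (δ : ℕ)
    (hδ : ∀ n : ℤ, (∀ v : ℤ, n ∣ f.eval v) ↔ n ∣ (δ : ℤ))
    (tail : Tendsto (fun N : ℕ => (tailCount f N : ℝ) / N) atTop (𝓝 0)) :
    Tendsto (fun N : ℕ => (goodCount f δ N : ℝ) / N) atTop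
      (𝓝 (∏' p : Nat.Primes, loc f δ p)) := by
  classical
  have hdvd : ∀ v : ℤ, (δ : ℤ) ∣ f.eval v := (hδ δ).2 dvd_rfl
  have hδ0 : δ ≠ 0 := by
    intro h0
    have hf0 : ∀ v : ℤ, f.eval v = 0 := by
      intro v
      have := hdvd v
      rw [h0] at this
      simpa using this
    have : f = 0 := Polynomial.funext (by intro v; rw [hf0 v, eval_zero])
    rw [this, Polynomial.map_zero] at hsep
    exact not_separable_zero hsep
  obtain ⟨a, b, R, hR0, hab⟩ := exists_bezout f hsep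
  set k := f.natDegree with hkdef
  set z0 := max δ R.natAbs + 1 with hz0
  have hk : ∀ p : ℕ, p.Prime → z0 ≤ p → rho f (p ^ 2) ≤ k := by
    intro p hp hzp
    refine rho_sq_le f a b R hab p hp ?_
    intro hd
    have h1 : p ∣ R.natAbs := Int.natCast_dvd.1 hd
    have h2 := Nat.le_of_dvd (Int.natAbs_pos.2 hR0) h1
    have h3 : R.natAbs ≤ max δ R.natAbs := le_max_right _ _
    omega
  have hmul := loc_multipliable f δ hδ0 k z0 ((le_max_left _ _).trans (Nat.le_succ _))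
    (fun p hp h => hk p hp h.le)
  have hprod : Tendsto (fun z : ℕ => ∏ p ∈ (Finset.range (z + 1)).filter Nat.Prime, loc f δ p) atTop
      (𝓝 (∏' p : Nat.Primes, loc f δ p)) := by
    have h1 : Tendsto (fun s : Finset Nat.Primes => ∏ p ∈ s, loc f δ p) atTop
        (𝓝 (∏' p : Nat.Primes, loc f δ p)) := hmul.hasProd
    have h2 : Tendsto (fun z : ℕ => (Finset.range (z + 1)).subtype Nat.Prime) atTop
        (atTop : Filter (Finset {p : ℕ // p.Prime})) := by
      refine tendsto_atTop_finset_of_monotone ?_ ?_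
      · intro i j hij x hx
        rw [Finset.mem_subtype, Finset.mem_range] at hx ⊢
        omega
      · intro x
        exact ⟨(x : ℕ), by rw [Finset.mem_subtype, Finset.mem_range]; omega⟩
    have h3 := h1.comp h2
    refine h3.congr ?_
    intro z
    simp only [Function.comp]
    exact Finset.prod_subtype_eq_prod_filter (s := Finset.range (z + 1)) (fun p => loc f δ p)
  rw [Metric.tendsto_atTop]
  intro ε hε
  obtain ⟨z1, hz1⟩ := (Metric.tendsto_atTop.1 hprod) (ε / 4) (by linarith)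
  obtain ⟨z2, hz2⟩ := exists_nat_gt ((k : ℝ) / (ε / 4))
  set z := max (max z0 z1) (z2 + 1) with hz
  have hzz0 : z0 ≤ z := (le_max_left _ _).trans (le_max_left _ _)
  have hzz1 : z1 ≤ z := (le_max_right _ _).trans (le_max_left _ _)
  have hzz2 : z2 + 1 ≤ z := le_max_right _ _
  have hzpos : (0 : ℝ) < z := by
    have : 0 < z := by omega
    exact_mod_cast this
  have hkz : (k : ℝ) / z < ε / 4 := by
    rw [div_lt_iff₀ hzpos]
    have h1 : (z2 : ℝ) ≤ z := by
      have : z2 ≤ z := by omega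
      exact_mod_cast this
    have h2 := (div_lt_iff₀ (by linarith : (0 : ℝ) < ε / 4)).1 hz2
    nlinarith
  have hfs := finite_sieve f ((Finset.range (z + 1)).filter Nat.Prime)
    (fun p => p ^ (2 + (δ.factorization p - 1)))
    (fun p hp => pow_pos (Finset.mem_filter.1 hp).2.pos _)
    (fun p hp q hq hpq => Nat.Coprime.pow _ _
      ((Nat.coprime_primes (Finset.mem_filter.1 hp).2 (Finset.mem_filter.1 hq).2).2 hpq))
  have hPz : ∏ p ∈ (Finset.range (z + 1)).filter Nat.Prime,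
      (1 - (rho f (p ^ (2 + (δ.factorization p - 1))) : ℝ) /
        ((p ^ (2 + (δ.factorization p - 1)) : ℕ) : ℝ)) =
      ∏ p ∈ (Finset.range (z + 1)).filter Nat.Prime, loc f δ p := by
    refine Finset.prod_congr rfl ?_
    intro p _
    unfold loc
    push_cast
    rfl
  rw [hPz] at hfs
  have herr : Tendsto (fun N : ℕ => (tailCount f N : ℝ) / N + k * ((Nat.primeCounting N : ℝ) / N))
      atTop (𝓝 0) := by
    simpa using tail.add (pi_div_tendsto.const_mul (k : ℝ))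
  obtain ⟨N1, hN1⟩ := (Metric.tendsto_atTop.1 hfs) (ε / 4) (by linarith)
  obtain ⟨N2, hN2⟩ := (Metric.tendsto_atTop.1 herr) (ε / 4) (by linarith)
  refine ⟨max (max N1 N2) 1, ?_⟩
  intro N hN
  have hNN1 : N1 ≤ N := ((le_max_left _ _).trans (le_max_left _ _)).trans hN
  have hNN2 : N2 ≤ N := ((le_max_right _ _).trans (le_max_left _ _)).trans hN
  have hN0 : 0 < N := lt_of_lt_of_le one_pos ((le_max_right _ _).trans hN)
  have hN0' : (0 : ℝ) < N := by exact_mod_cast hN0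
  have e1 := hN1 N hNN1
  have e2 := hN2 N hNN2
  have e3 := hz1 z hzz1
  obtain ⟨e4, e5⟩ := sieve_bounds f δ hδ0 hdvd k z (by omega) (fun p hp h => hk p hp (by omega)) N
  rw [Real.dist_eq] at e1 e2 e3 ⊢
  rw [abs_lt] at e1 e3 ⊢
  have e2' := (abs_lt.1 e2).2
  rw [sub_zero] at e2'
  set A : ℝ := (Nat.card {n : ℕ // 1 ≤ n ∧ n ≤ N ∧
      ∀ p ∈ (Finset.range (z + 1)).filter Nat.Prime,
        ¬ ((p ^ (2 + (δ.factorization p - 1)) : ℕ) : ℤ) ∣ f.eval (n : ℤ)} : ℝ)
  set P : ℝ := ∏ p ∈ (Finset.range (z + 1)).filter Nat.Prime, loc f δ p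
  set L : ℝ := ∏' p : Nat.Primes, loc f δ p
  have e6 : (goodCount f δ N : ℝ) / N ≤ A / N := div_le_div_of_nonneg_right e4 hN0'.le
  have e7 : A / N ≤ (goodCount f δ N : ℝ) / N + ((tailCount f N : ℝ) / N +
      k * ((Nat.primeCounting N : ℝ) / N)) + k / z := by
    have := div_le_div_of_nonneg_right e5 hN0'.le
    refine this.trans (le_of_eq ?_)
    field_simp
    ring
  constructor
  · linarith [e1.1, e3.1]
  · linarith [e1.2, e3.2]

/-- irreducible integer polynomials of positive degree are separable over `ℚ` -/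
lemma separable_of_irreducible (f : ℤ[X]) (hf : Irreducible f) (hd : f.natDegree ≠ 0) :
    (f.map (Int.castRingHom ℚ)).Separable := by
  have hprim : f.IsPrimitive := hf.isPrimitive hd
  have h1 : Irreducible (f.map (Int.castRingHom ℚ)) :=
    (hprim.irreducible_iff_irreducible_map_fraction_map (K := ℚ)).1 hf
  exact h1.separable

/-- the same in terms of the two-variable format of the problem, one variable -/
theorem density_mv (f : MvPolynomial (Fin 1) ℤ) (g : ℤ[X])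
    (hfg : ∀ v : Fin 1 → ℤ, MvPolynomial.eval v f = g.eval (v 0))
    (hsep : (g.map (Int.castRingHom ℚ)).Separable) (δ : ℕ)
    (hδ : ∀ n : ℤ, (∀ v : Fin 1 → ℤ, n ∣ MvPolynomial.eval v f) ↔ n ∣ (δ : ℤ))
    (tail : Tendsto (fun N : ℕ => (tailCount g N : ℝ) / N) atTop (𝓝 0)) :
    Filter.Tendsto
      (fun N : ℕ => (Nat.card {v : Fin 1 → ℕ // (∀ i, 1 ≤ v i ∧ v i ≤ N) ∧
          Squarefree (MvPolynomial.eval (fun i => (v i : ℤ)) f /
            ((∏ p ∈ δ.primeFactors, p ^ (δ.factorization p - 1) : ℕ) : ℤ))} : ℝ) / (N : ℝ) ^ 1)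
      Filter.atTop
      (nhds (∏' p : Nat.Primes,
        (1 - (Nat.card {v : Fin 1 → Fin ((p : ℕ) ^ (2 + (δ.factorization (p : ℕ) - 1))) //
              (((p : ℕ) ^ (2 + (δ.factorization (p : ℕ) - 1)) : ℕ) : ℤ) ∣
                MvPolynomial.eval (fun i => ((v i : ℕ) : ℤ)) f} : ℝ) /
          (((p : ℕ) : ℝ) ^ (1 * (2 + (δ.factorization (p : ℕ) - 1))))))) := by
  have hδ' : ∀ n : ℤ, (∀ v : ℤ, n ∣ g.eval v) ↔ n ∣ (δ : ℤ) := by
    intro n
    rw [← hδ n]
    constructor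
    · intro h v; rw [hfg]; exact h _
    · intro h v
      have := h (fun _ => v)
      rw [hfg] at this; exact this
  have main := density_of_tail g hsep δ hδ' tail
  have e1 : ∀ N : ℕ, goodCount g δ N = Nat.card {v : Fin 1 → ℕ // (∀ i, 1 ≤ v i ∧ v i ≤ N) ∧
          Squarefree (MvPolynomial.eval (fun i => (v i : ℤ)) f /
            ((∏ p ∈ δ.primeFactors, p ^ (δ.factorization p - 1) : ℕ) : ℤ))} := by
    intro N
    refine Nat.card_congr (Equiv.subtypeEquiv (Equiv.funUnique (Fin 1) ℕ).symm ?_)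
    intro n
    rw [hfg]
    constructor
    · rintro ⟨h1, h2, h3⟩; exact ⟨fun _ => ⟨h1, h2⟩, h3⟩
    · rintro ⟨h1, h3⟩; exact ⟨(h1 0).1, (h1 0).2, h3⟩
  have e2 : ∀ p : Nat.Primes, loc g δ p =
      (1 - (Nat.card {v : Fin 1 → Fin ((p : ℕ) ^ (2 + (δ.factorization (p : ℕ) - 1))) //
              (((p : ℕ) ^ (2 + (δ.factorization (p : ℕ) - 1)) : ℕ) : ℤ) ∣
                MvPolynomial.eval (fun i => ((v i : ℕ) : ℤ)) f} : ℝ) /
          (((p : ℕ) : ℝ) ^ (1 * (2 + (δ.factorization (p : ℕ) - 1))))) := by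
    intro p
    unfold loc rho
    rw [one_mul]
    congr 3
    refine Nat.card_congr (Equiv.subtypeEquiv (Equiv.funUnique (Fin 1) _).symm ?_)
    intro n
    rw [hfg]
    rfl
  simp only [pow_one]
  rw [← tprod_congr e2]
  refine main.congr ?_
  intro N
  rw [e1 N]

end Pool.Agent.SQF4
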