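import Mathlib

/-!
# Uniform bound for the number of units with bounded conjugates
-/

set_option autoImplicit false

open NumberField Module Polynomial

namespace Pool.Agent.SQF4

/-- the polynomial with given coefficients -/
noncomputable def polyOf (k : ℕ) (c : Fin (k + 1) → ℤ) : ℤ[X] := ∑ i : Fin (k + 1), C (c i) * X ^ (i : ℕ)

/-- algebraic integers with bounded conjugates: uniform count -/
theorem small_count (k : ℕ) (B : ℝ) : ∃ A : ℕ, ∀ (K : Type) [Field K] [NumberField K],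
    finrank ℚ K = k → ∀ S : Finset (𝓞 K), (∀ x ∈ S, ∀ φ : K →+* ℂ, ‖φ (x : K)‖ ≤ B) → S.card ≤ A := by
  classical
  set B' : ℕ := ⌈max B 1 ^ k * (k.choose (k / 2) : ℝ)⌉₊ with hB'
  let V : Finset (Fin (k + 1) → ℤ) := Fintype.piFinset (fun _ => Finset.Icc (-(B' : ℤ)) B')
  refine ⟨V.card * k, ?_⟩
  intro K _ _ hK S hS
  -- map to `K`
  let T : Finset K := V.biUnion (fun c => ((polyOf k c).aroots K).toFinset)
  have h1 : S.image (fun x : 𝓞 K => (x : K)) ⊆ T := by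
    intro y hy
    obtain ⟨x, hx, rfl⟩ := Finset.mem_image.1 hy
    have hint : IsIntegral ℤ (x : K) := RingOfIntegers.isIntegral_coe x
    set f := minpoly ℤ (x : K) with hf
    have hmap : minpoly ℚ (x : K) = f.map (algebraMap ℤ ℚ) :=
      minpoly.isIntegrallyClosed_eq_field_fractions' ℚ hint
    have hmonic : f.Monic := minpoly.monic hint
    have hdeg : f.natDegree ≤ k := by
      have h2 : (minpoly ℚ (x : K)).natDegree ≤ k := by rw [← hK]; exact minpoly.natDegree_le _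
      rw [hmap, hmonic.natDegree_map] at h2
      exact h2
    have hcoef : ∀ i, |f.coeff i| ≤ (B' : ℤ) := by
      intro i
      have h3 := Embeddings.coeff_bdd_of_norm_le (hS x hx) i
      rw [hmap, coeff_map, hK] at h3
      have h4 : ‖(algebraMap ℤ ℚ) (f.coeff i)‖ = (|f.coeff i| : ℤ) := by
        rw [eq_intCast, ← Rat.norm_cast_real]
        push_cast
        rw [Real.norm_eq_abs]
      rw [h4] at h3
      have h5 : ((|f.coeff i| : ℤ) : ℝ) ≤ (B' : ℝ) := h3.trans (Nat.le_ceil _)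
      exact_mod_cast h5
    refine Finset.mem_biUnion.2 ⟨fun i => f.coeff i, ?_, ?_⟩
    · rw [Fintype.mem_piFinset]
      intro i
      rw [Finset.mem_Icc]
      exact abs_le.1 (hcoef i)
    · have hpoly : polyOf k (fun i => f.coeff i) = f := by
        unfold polyOf
        rw [Fin.sum_univ_eq_sum_range (fun i => C (f.coeff i) * X ^ i) (k + 1)]
        exact (f.as_sum_range_C_mul_X_pow' (by omega)).symm
      rw [hpoly, Multiset.mem_toFinset, mem_aroots]
      exact ⟨hmonic.ne_zero, minpoly.aeval ℤ _⟩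
  have h2 : T.card ≤ V.card * k := by
    refine Finset.card_biUnion_le_card_mul _ _ _ ?_
    intro c _
    refine (Multiset.toFinset_card_le _).trans ?_
    refine (card_roots' _).trans ?_
    refine (natDegree_map_le).trans ?_
    unfold polyOf
    refine natDegree_sum_le_of_forall_le _ _ ?_
    intro i _
    refine (natDegree_C_mul_X_pow_le _ _).trans ?_
    have := i.2
    omega
  calc S.card = (S.image (fun x : 𝓞 K => (x : K))).card := by
        rw [Finset.card_image_of_injective _ RingOfIntegers.coe_injective]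
    _ ≤ T.card := Finset.card_le_card h1
    _ ≤ _ := h2

/-- lower bound for one conjugate -/
lemma conj_lower (K : Type) [Field K] [NumberField K] (x : 𝓞 K) (hx : x ≠ 0) (Y : ℝ) (hY : 1 ≤ Y)
    (hb : ∀ φ : K →+* ℂ, ‖φ (x : K)‖ ≤ Y) (φ : K →+* ℂ) :
    1 ≤ ‖φ (x : K)‖ * Y ^ (finrank ℚ K - 1) := by
  classical
  have h1 : (1 : ℝ) ≤ ∏ ψ : K →+* ℂ, ‖ψ (x : K)‖ := by
    have h2 : (algebraMap ℚ ℂ (Algebra.norm ℚ (x : K))) = ∏ σ : K →ₐ[ℚ] ℂ, σ (x : K) :=
      Algebra.norm_eq_prod_embeddings ℚ ℂ (x : K)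
    have h3 : ∏ σ : K →ₐ[ℚ] ℂ, σ (x : K) = ∏ ψ : K →+* ℂ, ψ (x : K) := by
      refine Fintype.prod_equiv (RingHom.equivRatAlgHom K ℂ).symm _ _ ?_
      intro σ; rfl
    have h4 : ‖(algebraMap ℚ ℂ (Algebra.norm ℚ (x : K)))‖ = ∏ ψ : K →+* ℂ, ‖ψ (x : K)‖ := by
      rw [h2, h3, norm_prod]
    rw [← h4]
    have h5 : Algebra.norm ℚ (x : K) = ((Algebra.norm ℤ x : ℤ) : ℚ) := by
      exact (Algebra.coe_norm_int x).symm
    have h6 : Algebra.norm ℤ x ≠ 0 := by
      rw [Ne, Algebra.norm_eq_zero_iff]; exact hx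
    rw [h5]
    have h7 : ‖(algebraMap ℚ ℂ) ((Algebra.norm ℤ x : ℤ) : ℚ)‖ = ((|Algebra.norm ℤ x| : ℤ) : ℝ) := by
      rw [eq_ratCast]
      push_cast
      rw [Complex.norm_intCast]
    rw [h7]
    exact_mod_cast Int.one_le_abs h6
  have h8 : ∏ ψ : K →+* ℂ, ‖ψ (x : K)‖ ≤ ‖φ (x : K)‖ * Y ^ (finrank ℚ K - 1) := by
    rw [← Finset.mul_prod_erase Finset.univ _ (Finset.mem_univ φ)]
    refine mul_le_mul_of_nonneg_left ?_ (norm_nonneg _)
    calc ∏ ψ ∈ Finset.univ.erase φ, ‖ψ (x : K)‖ ≤ ∏ ψ ∈ Finset.univ.erase φ, Y :=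
          Finset.prod_le_prod (fun _ _ => norm_nonneg _) (fun ψ _ => hb ψ)
      _ = Y ^ (finrank ℚ K - 1) := by
          rw [Finset.prod_const, Finset.card_erase_of_mem (Finset.mem_univ _), Finset.card_univ,
            Embeddings.card]
  exact h1.trans h8

/-- units with bounded conjugates: uniform count -/
theorem unit_count (k : ℕ) : ∃ A : ℕ, ∀ (K : Type) [Field K] [NumberField K],
    finrank ℚ K = k → ∀ Z : ℝ, 1 ≤ Z → ∀ S : Finset (𝓞 K)ˣ,
    (∀ u ∈ S, ∀ φ : K →+* ℂ, ‖φ ((u : 𝓞 K) : K)‖ ≤ Z) →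
    S.card ≤ A * (2 * (⌈k * Real.log Z⌉₊ + 1) + 1) ^ k := by
  classical
  obtain ⟨A, hA⟩ := small_count k 3
  refine ⟨A, ?_⟩
  intro K _ _ hK Z hZ S hS
  set L : ℕ := ⌈k * Real.log Z⌉₊ + 1 with hL
  have hlogZ : 0 ≤ Real.log Z := Real.log_nonneg hZ
  have hk1 : 1 ≤ k := by rw [← hK]; exact finrank_pos
  let cell : (𝓞 K)ˣ → ((K →+* ℂ) → ℤ) := fun u φ => ⌊Real.log ‖φ ((u : 𝓞 K) : K)‖⌋
  let V : Finset ((K →+* ℂ) → ℤ) := Fintype.piFinset (fun _ => Finset.Icc (-(L : ℤ)) L)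
  have hV : V.card = (2 * L + 1) ^ k := by
    rw [Fintype.card_piFinset]
    simp only [Int.card_Icc, Finset.prod_const, Finset.card_univ]
    rw [Embeddings.card, hK]
    congr 1
    omega
  have hnz : ∀ (u : (𝓞 K)ˣ) (φ : K →+* ℂ), φ ((u : 𝓞 K) : K) ≠ 0 := by
    intro u φ
    rw [Ne, map_eq_zero]
    intro h
    have h1 : (u : 𝓞 K) = 0 := RingOfIntegers.coe_injective (by simpa using h)
    exact u.ne_zero h1
  have hpos : ∀ (u : (𝓞 K)ˣ) (φ : K →+* ℂ), 0 < ‖φ ((u : 𝓞 K) : K)‖ := fun u φ =>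
    norm_pos_iff.2 (hnz u φ)
  have hmaps : ∀ u ∈ S, cell u ∈ V := by
    intro u hu
    rw [Fintype.mem_piFinset]
    intro φ
    rw [Finset.mem_Icc]
    have h1 : Real.log ‖φ ((u : 𝓞 K) : K)‖ ≤ Real.log Z := Real.log_le_log (hpos u φ) (hS u hu φ)
    have h2 : -(k * Real.log Z) ≤ Real.log ‖φ ((u : 𝓞 K) : K)‖ := by
      have h3 := conj_lower K (u : 𝓞 K) u.ne_zero Z hZ (hS u hu) φ
      have h4 : (0 : ℝ) < Z ^ (finrank ℚ K - 1) := by positivity
      have h5 := Real.log_le_log one_pos h3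
      rw [Real.log_one, Real.log_mul (hpos u φ).ne' h4.ne', Real.log_pow] at h5
      have h6 : ((finrank ℚ K - 1 : ℕ) : ℝ) ≤ k := by
        rw [hK]; exact_mod_cast Nat.sub_le _ _
      nlinarith
    have h7 : Real.log Z ≤ k * Real.log Z := by
      have : (1 : ℝ) ≤ k := by exact_mod_cast hk1
      nlinarith
    have h8 : (k : ℝ) * Real.log Z ≤ (⌈k * Real.log Z⌉₊ : ℝ) := Nat.le_ceil _
    have h9 : (L : ℝ) = (⌈k * Real.log Z⌉₊ : ℝ) + 1 := by rw [hL]; push_cast; rfl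
    constructor
    · rw [Int.le_floor]
      push_cast
      linarith
    · have : ((⌊Real.log ‖φ ((u : 𝓞 K) : K)‖⌋ : ℤ) : ℝ) ≤ (L : ℤ) := by
        push_cast
        have := Int.floor_le (Real.log ‖φ ((u : 𝓞 K) : K)‖)
        linarith
      exact_mod_cast this
  have hfib : ∀ c ∈ V, (S.filter (fun u => cell u = c)).card ≤ A := by
    intro c _
    rcases (S.filter (fun u => cell u = c)).eq_empty_or_nonempty with h | ⟨u0, hu0⟩
    · rw [h]; simp
    · let F : (𝓞 K)ˣ → 𝓞 K := fun u => ((u * u0⁻¹ : (𝓞 K)ˣ) : 𝓞 K)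
      have hFinj : Function.Injective F := by
        intro a b hab
        have h1 : a * u0⁻¹ = b * u0⁻¹ := Units.ext hab
        exact mul_right_cancel h1
      rw [← Finset.card_image_of_injective _ hFinj]
      refine hA K hK _ ?_
      intro x hx φ
      obtain ⟨u, hu, rfl⟩ := Finset.mem_image.1 hx
      have hc1 : cell u = cell u0 := (Finset.mem_filter.1 hu).2.trans (Finset.mem_filter.1 hu0).2.symm
      have hc2 := congrFun hc1 φ
      have hc3 : ⌊Real.log ‖φ ((u : 𝓞 K) : K)‖⌋ = ⌊Real.log ‖φ ((u0 : 𝓞 K) : K)‖⌋ := hc2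
      have h1 : Real.log ‖φ ((u : 𝓞 K) : K)‖ - Real.log ‖φ ((u0 : 𝓞 K) : K)‖ < 1 := by
        have e1 := Int.lt_floor_add_one (Real.log ‖φ ((u : 𝓞 K) : K)‖)
        have e2 := Int.floor_le (Real.log ‖φ ((u0 : 𝓞 K) : K)‖)
        rw [hc3] at e1
        linarith
      have hmul : φ ((F u : 𝓞 K) : K) * φ ((u0 : 𝓞 K) : K) = φ ((u : 𝓞 K) : K) := by
        rw [← map_mul]
        congr 1
        have : F u * (u0 : 𝓞 K) = (u : 𝓞 K) := by
          show ((u * u0⁻¹ : (𝓞 K)ˣ) : 𝓞 K) * (u0 : 𝓞 K) = (u : 𝓞 K)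
          rw [← Units.val_mul, inv_mul_cancel_right]
        rw [← this]; simp
      have hn : ‖φ ((F u : 𝓞 K) : K)‖ * ‖φ ((u0 : 𝓞 K) : K)‖ = ‖φ ((u : 𝓞 K) : K)‖ := by
        rw [← norm_mul, hmul]
      have h2 : ‖φ ((u : 𝓞 K) : K)‖ ≤ Real.exp 1 * ‖φ ((u0 : 𝓞 K) : K)‖ := by
        calc ‖φ ((u : 𝓞 K) : K)‖ = Real.exp (Real.log ‖φ ((u : 𝓞 K) : K)‖) :=
              (Real.exp_log (hpos u φ)).symm
          _ ≤ Real.exp (1 + Real.log ‖φ ((u0 : 𝓞 K) : K)‖) := Real.exp_le_exp.2 (by linarith)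
          _ = Real.exp 1 * ‖φ ((u0 : 𝓞 K) : K)‖ := by
              rw [Real.exp_add, Real.exp_log (hpos u0 φ)]
      rw [← hn] at h2
      have h3 := le_of_mul_le_mul_right h2 (hpos u0 φ)
      exact h3.trans (by have := Real.exp_one_lt_d9; linarith)
  have h := Finset.card_le_mul_card_image_of_maps_to hmaps A hfib
  rw [hV] at h
  exact h

end Pool.Agent.SQF4
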