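import Pool.Agent.Lib.SQF4.IdealCount
import Pool.Agent.Lib.SQF4.UnitCount
import Pool.Agent.Lib.MP_0b15c0_nt.DivisorBound

/-!
# Uniform bound for the number of algebraic integers dividing `M` with bounded conjugates
-/

set_option autoImplicit false

open NumberField Module Polynomial

namespace Pool.Agent.SQF4

lemma log_pow_bound (k : ℕ) (hk : 1 ≤ k) (ε : ℝ) (hε : 0 < ε) : ∃ A : ℝ, 1 ≤ A ∧ ∀ Y : ℝ, 1 ≤ Y →
    (((2 * (⌈k * Real.log (Y ^ k)⌉₊ + 1) + 1) ^ k : ℕ) : ℝ) ≤ A * Y ^ ε := by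
  have hk0 : (0 : ℝ) < k := by exact_mod_cast hk
  set e : ℝ := ε / k with he
  have he0 : 0 < e := by positivity
  set B : ℝ := 2 * k ^ 2 / e + 5 with hB
  have hB1 : 1 ≤ B := by
    have : (0 : ℝ) ≤ 2 * k ^ 2 / e := by positivity
    linarith
  refine ⟨B ^ k, one_le_pow₀ hB1, ?_⟩
  intro Y hY
  have hY0 : 0 < Y := by linarith
  have hYe : 1 ≤ Y ^ e := Real.one_le_rpow hY he0.le
  have hlog : Real.log Y ≤ Y ^ e / e := Real.log_le_rpow_div hY0.le he0
  have hlog0 : 0 ≤ Real.log Y := Real.log_nonneg hY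
  have h1 : ((⌈k * Real.log (Y ^ k)⌉₊ : ℕ) : ℝ) ≤ k * Real.log (Y ^ k) + 1 := by
    refine (Nat.ceil_lt_add_one ?_).le
    rw [Real.log_pow]; positivity
  rw [Real.log_pow] at h1
  have h2 : (((2 * (⌈k * Real.log (Y ^ k)⌉₊ + 1) + 1 : ℕ)) : ℝ) ≤ B * Y ^ e := by
    push_cast
    calc (2 : ℝ) * ((⌈k * Real.log (Y ^ k)⌉₊ : ℝ) + 1) + 1
        ≤ 2 * ((k * (k * Real.log Y) + 1) + 1) + 1 := by
          rw [Real.log_pow]
          linarith
      _ = 2 * k ^ 2 * Real.log Y + 5 := by ring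
      _ ≤ 2 * k ^ 2 * (Y ^ e / e) + 5 * Y ^ e := by
          have : (0 : ℝ) ≤ 2 * k ^ 2 := by positivity
          nlinarith
      _ = B * Y ^ e := by rw [hB]; ring
  calc (((2 * (⌈k * Real.log (Y ^ k)⌉₊ + 1) + 1) ^ k : ℕ) : ℝ)
      = (((2 * (⌈k * Real.log (Y ^ k)⌉₊ + 1) + 1 : ℕ)) : ℝ) ^ k := by push_cast; ring
    _ ≤ (B * Y ^ e) ^ k := pow_le_pow_left₀ (by positivity) h2 k
    _ = B ^ k * Y ^ ε := by
        rw [mul_pow, ← Real.rpow_natCast (Y ^ e) k, ← Real.rpow_mul hY0.le]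
        congr 2
        rw [he]; field_simp

/-- algebraic integers dividing `M` with bounded conjugates: uniform count -/
theorem elt_count (k : ℕ) (ε : ℝ) (hε : 0 < ε) : ∃ A : ℝ, 1 ≤ A ∧
    ∀ (K : Type) [Field K] [NumberField K], finrank ℚ K = k →
    ∀ (M : ℕ), M ≠ 0 → ∀ (Y : ℝ), 1 ≤ Y → ∀ (S : Finset (𝓞 K)),
    (∀ x ∈ S, x ∣ (M : 𝓞 K) ∧ ∀ φ : K →+* ℂ, ‖φ (x : K)‖ ≤ Y) →
    (S.card : ℝ) ≤ A * (M : ℝ) ^ ε * Y ^ ε := by
  classical
  rcases Nat.eq_zero_or_pos k with hk0 | hk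
  · refine ⟨1, le_rfl, ?_⟩
    intro K _ _ hK
    have : 0 < finrank ℚ K := finrank_pos
    omega
  obtain ⟨A1, hA1⟩ := unit_count k
  obtain ⟨A2, hA2, hA2'⟩ := log_pow_bound k hk ε hε
  have hkk : (0 : ℝ) < ((k * k : ℕ) : ℝ) := by exact_mod_cast Nat.mul_pos hk hk
  obtain ⟨A3, hA3, hA3'⟩ := Pool.Agent.Lib.MP0b15c0.divisor_bound (ε := ε / ((k * k : ℕ) : ℝ))
    (div_pos hε hkk)
  refine ⟨max 1 ((A1 : ℝ) * A2 * A3 ^ (k * k)), le_max_left _ _, ?_⟩
  intro K _ _ hK M hM Y hY S hS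
  have hY0 : 0 < Y := by linarith
  have hM0 : (0 : ℝ) < M := by exact_mod_cast Nat.pos_of_ne_zero hM
  obtain ⟨hfin, hcard⟩ := card_dvd_nat_le K M hM
  set I : Ideal (𝓞 K) := Ideal.span {(M : 𝓞 K)} with hI
  have hfin' : Set.Finite {J : Ideal (𝓞 K) | J ∣ I} := hfin
  set D : Finset (Ideal (𝓞 K)) := hfin'.toFinset with hD
  have hDcard : D.card ≤ M.divisors.card ^ (k * k) := by
    have h1 : D.card = Nat.card {J : Ideal (𝓞 K) // J ∣ I} := by
      have := Nat.card_eq_card_finite_toFinset hfin'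
      rw [hD, ← this]; rfl
    rw [h1, ← hK]; exact hcard
  set U : ℕ := A1 * (2 * (⌈k * Real.log (Y ^ k)⌉₊ + 1) + 1) ^ k with hU
  have hx0 : ∀ x ∈ S, x ≠ 0 := by
    intro x hx h0
    have h1 := (hS x hx).1
    rw [h0, zero_dvd_iff] at h1
    have h2 : (M : ℕ) = 0 := by exact_mod_cast h1
    exact hM h2
  have hmaps : ∀ x ∈ S, Ideal.span {x} ∈ D := by
    intro x hx
    rw [hD, Set.Finite.mem_toFinset]
    show Ideal.span {x} ∣ I
    rw [Ideal.dvd_iff_le, hI, Ideal.span_singleton_le_span_singleton]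
    exact (hS x hx).1
  have hfib : ∀ J ∈ D, (S.filter (fun x => Ideal.span {x} = J)).card ≤ U := by
    intro J _
    rcases (S.filter (fun x => Ideal.span {x} = J)).eq_empty_or_nonempty with h | ⟨x0, hx0'⟩
    · rw [h]; simp
    · have hx0S := (Finset.mem_filter.1 hx0').1
      have hassoc : ∀ x ∈ S.filter (fun x => Ideal.span {x} = J), ∃ u : (𝓞 K)ˣ, x0 * u = x := by
        intro x hx
        have h1 : Ideal.span {x0} = Ideal.span {x} :=
          (Finset.mem_filter.1 hx0').2.trans (Finset.mem_filter.1 hx).2.symm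
        rw [Ideal.span_singleton_eq_span_singleton] at h1
        exact h1
      choose! w hw using hassoc
      have hinj : Set.InjOn w (S.filter (fun x => Ideal.span {x} = J) : Set (𝓞 K)) := by
        intro a ha b hb hab
        rw [← hw a ha, ← hw b hb, hab]
      rw [← Finset.card_image_of_injOn hinj]
      refine hA1 K hK (Y ^ k) (one_le_pow₀ hY) _ ?_
      intro u hu φ
      obtain ⟨x, hx, rfl⟩ := Finset.mem_image.1 hu
      have hxS := (Finset.mem_filter.1 hx).1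
      have h1 := (hS x hxS).2 φ
      have h2 := conj_lower K x0 (hx0 x0 hx0S) Y hY (hS x0 hx0S).2 φ
      have h3 : ‖φ (x0 : K)‖ * ‖φ ((w x : 𝓞 K) : K)‖ = ‖φ (x : K)‖ := by
        rw [← norm_mul, ← map_mul]
        congr 2
        have h5 := congrArg (fun y : 𝓞 K => (y : K)) (hw x hx)
        simpa using h5
      have h4 : 0 ≤ ‖φ ((w x : 𝓞 K) : K)‖ := norm_nonneg _
      calc ‖φ ((w x : 𝓞 K) : K)‖ = 1 * ‖φ ((w x : 𝓞 K) : K)‖ := by rw [one_mul]
        _ ≤ (‖φ (x0 : K)‖ * Y ^ (finrank ℚ K - 1)) * ‖φ ((w x : 𝓞 K) : K)‖ :=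
            mul_le_mul_of_nonneg_right h2 h4
        _ = ‖φ (x : K)‖ * Y ^ (finrank ℚ K - 1) := by rw [← h3]; ring
        _ ≤ Y * Y ^ (finrank ℚ K - 1) := mul_le_mul_of_nonneg_right h1 (by positivity)
        _ = Y ^ k := by
            rw [hK, ← pow_succ']
            congr 1; omega
  have h := Finset.card_le_mul_card_image_of_maps_to hmaps U hfib
  have h' : (S.card : ℝ) ≤ (U : ℝ) * (D.card : ℝ) := by exact_mod_cast h
  have hU' : (U : ℝ) ≤ A1 * (A2 * Y ^ ε) := by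
    rw [hU]
    have := hA2' Y hY
    push_cast at this ⊢
    exact mul_le_mul_of_nonneg_left this (by positivity)
  have hD' : (D.card : ℝ) ≤ A3 ^ (k * k) * (M : ℝ) ^ ε := by
    calc (D.card : ℝ) ≤ ((M.divisors.card : ℕ) : ℝ) ^ (k * k) := by exact_mod_cast hDcard
      _ ≤ (A3 * (M : ℝ) ^ (ε / ((k * k : ℕ) : ℝ))) ^ (k * k) :=
          pow_le_pow_left₀ (by positivity) (hA3' M hM) _
      _ = A3 ^ (k * k) * (M : ℝ) ^ ε := by
          rw [mul_pow, ← Real.rpow_natCast ((M : ℝ) ^ (ε / ((k * k : ℕ) : ℝ))) (k * k),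
            ← Real.rpow_mul hM0.le]
          congr 2
          exact div_mul_cancel₀ _ hkk.ne'
  calc (S.card : ℝ) ≤ (U : ℝ) * (D.card : ℝ) := h'
    _ ≤ (A1 * (A2 * Y ^ ε)) * (A3 ^ (k * k) * (M : ℝ) ^ ε) := by
        refine mul_le_mul hU' hD' (by positivity) (by positivity)
    _ = ((A1 : ℝ) * A2 * A3 ^ (k * k)) * (M : ℝ) ^ ε * Y ^ ε := by ring
    _ ≤ _ := by
        refine mul_le_mul_of_nonneg_right ?_ (by positivity)
        exact mul_le_mul_of_nonneg_right (le_max_right _ _) (by positivity)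

end Pool.Agent.SQF4
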