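import Mathlib

/-!
# Uniform bound for the number of ideals dividing a rational integer
-/

set_option autoImplicit false

open NumberField UniqueFactorizationMonoid Module

namespace Pool.Agent.SQF4

variable (K : Type) [Field K] [NumberField K]

lemma one_add_mul_le_pow' (k a : ℕ) : 1 + k * a ≤ (1 + a) ^ k := by
  induction k with
  | zero => simp
  | succ k ih =>
    rw [pow_succ]
    calc 1 + (k + 1) * a ≤ (1 + k * a) * (1 + a) := by nlinarith [Nat.zero_le (k * a * a)]
      _ ≤ (1 + a) ^ k * (1 + a) := Nat.mul_le_mul_right _ ih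

/-- the number of divisors of an ideal -/
lemma card_dvd_le (I : Ideal (𝓞 K)) (hI : I ≠ ⊥) :
    Finite {J : Ideal (𝓞 K) // J ∣ I} ∧
    Nat.card {J : Ideal (𝓞 K) // J ∣ I} ≤
      ∏ P ∈ (normalizedFactors I).toFinset, ((normalizedFactors I).count P + 1) := by
  classical
  let S := (normalizedFactors I).toFinset
  let F : {J : Ideal (𝓞 K) // J ∣ I} → (∀ P : S, Fin ((normalizedFactors I).count (P : Ideal (𝓞 K)) + 1)) :=
    fun J P => ⟨(normalizedFactors J.1).count (P : Ideal (𝓞 K)), by
      have hJ0 : J.1 ≠ 0 := fun h => hI (by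
        have := J.2; rw [h, zero_dvd_iff] at this; exact this)
      have h1 := (dvd_iff_normalizedFactors_le_normalizedFactors hJ0 hI).1 J.2
      exact Nat.lt_succ_of_le (Multiset.count_le_of_le _ h1)⟩
  have hF : Function.Injective F := by
    intro J J' h
    have hJ0 : J.1 ≠ 0 := fun h => hI (by
        have := J.2; rw [h, zero_dvd_iff] at this; exact this)
    have hJ0' : J'.1 ≠ 0 := fun h => hI (by
        have := J'.2; rw [h, zero_dvd_iff] at this; exact this)
    have h1 := (dvd_iff_normalizedFactors_le_normalizedFactors hJ0 hI).1 J.2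
    have h1' := (dvd_iff_normalizedFactors_le_normalizedFactors hJ0' hI).1 J'.2
    have h2 : normalizedFactors J.1 = normalizedFactors J'.1 := by
      ext P
      by_cases hP : P ∈ S
      · have := congrArg Fin.val (congrFun h ⟨P, hP⟩)
        exact this
      · have h3 : (normalizedFactors I).count P = 0 := by
          rw [Multiset.count_eq_zero]
          intro h4
          exact hP (Multiset.mem_toFinset.2 h4)
        have h4 := Multiset.count_le_of_le P h1
        have h5 := Multiset.count_le_of_le P h1'
        omega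
    apply Subtype.ext
    rw [← Ideal.prod_normalizedFactors_eq_self hJ0, ← Ideal.prod_normalizedFactors_eq_self hJ0', h2]
  refine ⟨Finite.of_injective F hF, ?_⟩
  refine (Nat.card_le_card_of_injective F hF).trans ?_
  rw [Nat.card_pi]
  simp only [Nat.card_eq_fintype_card, Fintype.card_fin]
  rw [Finset.prod_coe_sort S (fun P => (normalizedFactors I).count P + 1)]

/-- the number of ideals dividing a rational integer -/
lemma card_dvd_nat_le (M : ℕ) (hM : M ≠ 0) :
    Finite {J : Ideal (𝓞 K) // J ∣ Ideal.span {(M : 𝓞 K)}} ∧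
    Nat.card {J : Ideal (𝓞 K) // J ∣ Ideal.span {(M : 𝓞 K)}} ≤
      M.divisors.card ^ (finrank ℚ K * finrank ℚ K) := by
  classical
  set k := finrank ℚ K with hk
  set I : Ideal (𝓞 K) := Ideal.span {(M : 𝓞 K)} with hIdef
  have hI : I ≠ ⊥ := by
    rw [hIdef, Ne, Ideal.span_singleton_eq_bot]
    exact_mod_cast hM
  obtain ⟨hfin, hcard⟩ := card_dvd_le K I hI
  refine ⟨hfin, hcard.trans ?_⟩
  set S := (normalizedFactors I).toFinset with hS
  have habs : Ideal.absNorm I = M ^ k := by
    rw [hIdef, Ideal.absNorm_span_natCast]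
    rw [hk, ← RingOfIntegers.rank K]
  -- facts on the elements of S
  have hmem : ∀ P ∈ S, Prime P ∧ P ∣ I := by
    intro P hP
    have := Multiset.mem_toFinset.1 hP
    exact ⟨prime_of_normalized_factor P this, dvd_of_mem_normalizedFactors this⟩
  -- a rational prime in each
  have hex : ∀ P ∈ S, ∃ p ∈ M.primeFactors, ((p : ℕ) : 𝓞 K) ∈ P := by
    intro P hP
    obtain ⟨hPr, hd⟩ := hmem P hP
    have hPp : P.IsPrime := Ideal.isPrime_of_prime hPr
    have hM1 : ((M : ℕ) : 𝓞 K) ∈ P := by
      rw [Ideal.dvd_iff_le] at hd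
      exact hd (Ideal.subset_span (Set.mem_singleton _))
    have hprod : ((∏ p ∈ M.primeFactors, p ^ M.factorization p : ℕ) : 𝓞 K) ∈ P := by
      have h0 : M = ∏ p ∈ M.primeFactors, p ^ M.factorization p := by
        conv_lhs => rw [← Nat.prod_factorization_pow_eq_self hM]
        rw [Nat.prod_factorization_eq_prod_primeFactors]
      rw [← h0]; exact hM1
    push_cast at hprod
    obtain ⟨p, hp, h1⟩ := (hPp.prod_mem_iff).1 hprod
    exact ⟨p, hp, hPp.mem_of_pow_mem _ h1⟩
  choose! q hq1 hq2 using hex
  have hqnorm : ∀ P ∈ S, q P ∣ Ideal.absNorm P := by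
    intro P hP
    have hqp : (q P).Prime := Nat.prime_of_mem_primeFactors (hq1 P hP)
    have h1 : Ideal.span {((q P : ℕ) : 𝓞 K)} ≤ P := by
      rw [Ideal.span_singleton_le_iff_mem]; exact hq2 P hP
    have h2 := Ideal.absNorm_dvd_absNorm_of_le h1
    rw [Ideal.absNorm_span_natCast] at h2
    obtain ⟨j, _, hj⟩ := (Nat.dvd_prime_pow hqp).1 h2
    have hj0 : j ≠ 0 := by
      rintro rfl
      rw [pow_zero, Ideal.absNorm_eq_one_iff] at hj
      exact (hmem P hP).1.not_isUnit (by
        rw [hj, ← Ideal.one_eq_top]; exact isUnit_one)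
    rw [hj]
    exact dvd_pow_self _ hj0
  -- count bound
  have hcount : ∀ P ∈ S, (normalizedFactors I).count P ≤ k * M.factorization (q P) := by
    intro P hP
    have hqp : (q P).Prime := Nat.prime_of_mem_primeFactors (hq1 P hP)
    have h1 : P ^ (normalizedFactors I).count P ∣ I := by
      have h2 : Multiset.replicate ((normalizedFactors I).count P) P ≤ normalizedFactors I :=
        Multiset.le_count_iff_replicate_le.1 le_rfl
      have h3 := Multiset.prod_dvd_prod_of_le h2
      rw [Multiset.prod_replicate, Ideal.prod_normalizedFactors_eq_self hI] at h3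
      exact h3
    have h4 : (Ideal.absNorm P) ^ (normalizedFactors I).count P ∣ M ^ k := by
      rw [← habs, ← map_pow]
      exact map_dvd _ h1
    have h5 : (q P) ^ (normalizedFactors I).count P ∣ M ^ k :=
      (pow_dvd_pow_of_dvd (hqnorm P hP) _).trans h4
    have h6 := (hqp.pow_dvd_iff_le_factorization (pow_ne_zero k hM)).1 h5
    rw [Nat.factorization_pow] at h6
    simpa using h6
  -- number over each prime
  have hnum : ∀ p ∈ M.primeFactors, (S.filter (fun P => q P = p)).card ≤ k := by
    intro p hp
    have hpp : p.Prime := Nat.prime_of_mem_primeFactors hp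
    have hp0 : (Ideal.span {((p : ℕ) : 𝓞 K)}) ≠ ⊥ := by
      rw [Ne, Ideal.span_singleton_eq_bot]
      exact_mod_cast hpp.ne_zero
    have h1 : ∏ P ∈ S.filter (fun P => q P = p), P ∣ Ideal.span {((p : ℕ) : 𝓞 K)} := by
      refine Finset.prod_primes_dvd _ ?_ ?_
      · intro P hP
        exact (hmem P (Finset.mem_filter.1 hP).1).1
      · intro P hP
        obtain ⟨h2, h3⟩ := Finset.mem_filter.1 hP
        rw [Ideal.dvd_iff_le, Ideal.span_singleton_le_iff_mem]
        have := hq2 P h2
        rwa [h3] at this
    have h2 : Ideal.absNorm (∏ P ∈ S.filter (fun P => q P = p), P) ∣ p ^ k := by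
      have h3 := map_dvd Ideal.absNorm h1
      rw [Ideal.absNorm_span_natCast, RingOfIntegers.rank K] at h3
      exact h3
    rw [map_prod] at h2
    have h3 : ∏ P ∈ S.filter (fun P => q P = p), p ∣ ∏ P ∈ S.filter (fun P => q P = p), Ideal.absNorm P := by
      refine Finset.prod_dvd_prod_of_dvd _ _ ?_
      intro P hP
      obtain ⟨h4, h5⟩ := Finset.mem_filter.1 hP
      have := hqnorm P h4
      rwa [h5] at this
    rw [Finset.prod_const] at h3
    exact (Nat.pow_dvd_pow_iff_le_right hpp.one_lt).1 (h3.trans h2)
  -- assembly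
  calc ∏ P ∈ S, ((normalizedFactors I).count P + 1)
      = ∏ p ∈ M.primeFactors, ∏ P ∈ S.filter (fun P => q P = p), ((normalizedFactors I).count P + 1) := by
        rw [Finset.prod_fiberwise_of_maps_to hq1]
    _ ≤ ∏ p ∈ M.primeFactors, (M.factorization p + 1) ^ (k * k) := by
        refine Finset.prod_le_prod' ?_
        intro p hp
        calc ∏ P ∈ S.filter (fun P => q P = p), ((normalizedFactors I).count P + 1)
            ≤ ∏ P ∈ S.filter (fun P => q P = p), (M.factorization p + 1) ^ k := by
              refine Finset.prod_le_prod' ?_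
              intro P hP
              obtain ⟨h4, h5⟩ := Finset.mem_filter.1 hP
              have h6 := hcount P h4
              rw [h5] at h6
              have h7 : 1 + k * M.factorization p ≤ (1 + M.factorization p) ^ k :=
                one_add_mul_le_pow' k (M.factorization p)
              calc (normalizedFactors I).count P + 1 ≤ 1 + k * M.factorization p := by omega
                _ ≤ (1 + M.factorization p) ^ k := h7
                _ = _ := by rw [add_comm]
          _ = ((M.factorization p + 1) ^ k) ^ (S.filter (fun P => q P = p)).card := by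
              rw [Finset.prod_const]
          _ ≤ ((M.factorization p + 1) ^ k) ^ k :=
              Nat.pow_le_pow_right (pow_pos (Nat.succ_pos _) _) (hnum p hp)
          _ = _ := by rw [← pow_mul]
    _ = M.divisors.card ^ (k * k) := by
        rw [Finset.prod_pow, Nat.card_divisors hM]

end Pool.Agent.SQF4
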